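import Pool.Agent.Lib.MP_9c903d_ag.NK.Rank

/-!
# Part RankS: a nonzero singular element of the radical has q = 4 and rank two
-/

namespace Pool.Agent.MP_9c903d

open scoped ComplexConjugate commutatorElement

/-- rank factorisation of a square matrix -/
private theorem RankS_factor {q : ℕ} (M : Matrix (Fin q) (Fin q) ℂ) :
    ∃ a u : Fin M.rank → Fin q → ℂ, LinearIndependent ℂ a ∧ LinearIndependent ℂ u ∧
      ∀ j k, M j k = ∑ m, a m j * u m k := by
  classical
  let B : Module.Basis (Fin M.rank) ℂ (LinearMap.range M.mulVecLin) :=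
    Module.finBasis ℂ (LinearMap.range M.mulVecLin)
  let c : Fin q → LinearMap.range M.mulVecLin := fun k =>
    ⟨M.mulVecLin (Pi.single k 1), LinearMap.mem_range_self _ _⟩
  refine ⟨fun m => (B m : Fin q → ℂ), fun m k => B.repr (c k) m, ?_, ?_, ?_⟩
  · exact B.linearIndependent.map' (Submodule.subtype _) (Submodule.ker_subtype _)
  · rw [Fintype.linearIndependent_iff]
    intro g hg m
    let φ : LinearMap.range M.mulVecLin →ₗ[ℂ] ℂ := ∑ m, g m • B.coord m
    have hφ : ∀ y, φ y = ∑ m, g m * B.repr y m := by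
      intro y
      simp only [φ, LinearMap.sum_apply, LinearMap.smul_apply, Module.Basis.coord_apply, smul_eq_mul]
    have h1 : ∀ k, φ (c k) = 0 := by
      intro k
      rw [hφ]
      have := congrFun hg k
      simpa only [Finset.sum_apply, Pi.smul_apply, smul_eq_mul, Pi.zero_apply] using this
    have h2 : φ.comp (LinearMap.rangeRestrict M.mulVecLin) = 0 := by
      refine (Pi.basisFun ℂ (Fin q)).ext fun k => ?_
      rw [Pi.basisFun_apply]
      exact h1 k
    have h3 : ∀ y, φ y = 0 := by
      rintro ⟨y, v, rfl⟩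
      exact LinearMap.congr_fun h2 v
    have h4 := h3 (B m)
    rw [hφ] at h4
    rw [Finset.sum_eq_single m] at h4
    · simpa using h4
    · intro j _ hj
      rw [Module.Basis.repr_self, Finsupp.single_eq_of_ne hj, mul_zero]
    · intro hm
      exact absurd (Finset.mem_univ _) hm
  · intro j k
    have h1 := B.sum_repr (c k)
    have h2 := congrArg (fun y : LinearMap.range M.mulVecLin => (y : Fin q → ℂ) j) h1
    have h3 : (c k : Fin q → ℂ) j = M j k := by
      show (M.mulVec (Pi.single k 1)) j = M j k
      simp [Matrix.mulVec_single]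
    rw [← h3, ← h2]
    simp only [Submodule.coe_sum, Submodule.coe_smul, Finset.sum_apply, Pi.smul_apply, smul_eq_mul]
    exact Finset.sum_congr rfl fun m _ => mul_comm _ _

/-- the rank is at most three -/
private theorem RankS_le {q : ℕ} (hq : q ≤ 4) (M : Matrix (Fin q) (Fin q) ℂ) (hs : M.det = 0 ∨ q ≤ 3) :
    M.rank ≤ 3 := by
  have h1 : M.rank ≤ q := by
    have := M.rank_le_width
    exact this
  rcases hs with hs | hs
  · obtain ⟨v, hv, hv0⟩ := Matrix.exists_mulVec_eq_zero_iff.2 hs
    have h2 := LinearMap.finrank_range_add_finrank_ker M.mulVecLin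
    rw [Module.finrank_fintype_fun_eq_card, Fintype.card_fin] at h2
    have h3 : Module.finrank ℂ (LinearMap.ker M.mulVecLin) ≠ 0 := by
      intro h3
      rw [Submodule.finrank_eq_zero] at h3
      have h4 : v ∈ LinearMap.ker M.mulVecLin := by
        rw [LinearMap.mem_ker]
        exact hv0
      rw [h3, Submodule.mem_bot] at h4
      exact hv h4
    have h4 : M.rank = Module.finrank ℂ (LinearMap.range M.mulVecLin) := rfl
    omega
  · omega

private theorem RankS_sum {q r : ℕ} {P : Fin q → Fin q → Fin q → Fin q → ℂ} {h : Fin q → Fin q → ℂ}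
    (hR : InR P h) (a u : Fin r → Fin q → ℂ) (hau : ∀ j k, h j k = ∑ m, a m j * u m k)
    (b c : Fin q → ℂ) : ∑ m, F P (a m) b (u m) c = 0 := by
  have h1 : ∑ m, F P (a m) b (u m) c =
      ∑ j, ∑ l, b j * c l * ∑ i, ∑ k, h i k * P i j k l := by
    calc ∑ m, F P (a m) b (u m) c
        = ∑ m, ∑ i, ∑ j, ∑ k, ∑ l, a m i * b j * u m k * c l * P i j k l := rfl
      _ = ∑ i, ∑ j, ∑ k, ∑ l, ∑ m, a m i * b j * u m k * c l * P i j k l := by
          rw [Finset.sum_comm]
          refine Finset.sum_congr rfl fun i _ => ?_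
          rw [Finset.sum_comm]
          refine Finset.sum_congr rfl fun j _ => ?_
          rw [Finset.sum_comm]
          refine Finset.sum_congr rfl fun k _ => ?_
          rw [Finset.sum_comm]
      _ = ∑ i, ∑ j, ∑ k, ∑ l, b j * c l * (h i k * P i j k l) := by
          refine Finset.sum_congr rfl fun i _ => Finset.sum_congr rfl fun j _ =>
            Finset.sum_congr rfl fun k _ => Finset.sum_congr rfl fun l _ => ?_
          rw [hau, Finset.sum_mul, Finset.mul_sum]
          exact Finset.sum_congr rfl fun m _ => by ring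
      _ = ∑ j, ∑ l, b j * c l * ∑ i, ∑ k, h i k * P i j k l := by
          rw [Finset.sum_comm]
          refine Finset.sum_congr rfl fun j _ => ?_
          have e : ∀ i, ∑ k, ∑ l, b j * c l * (h i k * P i j k l) =
              ∑ l, ∑ k, b j * c l * (h i k * P i j k l) := fun i => Finset.sum_comm
          rw [Finset.sum_congr rfl fun i _ => e i, Finset.sum_comm]
          refine Finset.sum_congr rfl fun l _ => ?_
          rw [Finset.mul_sum]
          exact Finset.sum_congr rfl fun i _ => by rw [Finset.mul_sum]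
  rw [h1]
  refine Finset.sum_eq_zero fun j _ => Finset.sum_eq_zero fun l _ => ?_
  rw [hR j l, mul_zero]

theorem singular_elt {q : ℕ} {P : Fin q → Fin q → Fin q → Fin q → ℂ} (hP : IsForm P)
    (hq2 : 2 ≤ q) (hq : q ≤ 4) (h : Fin q → Fin q → ℂ) (hR : InR P h) (h0 : h ≠ 0)
    (hs : (Matrix.of h).det = 0 ∨ q ≤ 3) :
    q = 4 ∧ ∃ a0 a1 u0 u1 : Fin q → ℂ, LinearIndependent ℂ ![a0, a1] ∧
      LinearIndependent ℂ ![u0, u1] ∧ ∀ b c, F P a0 b u0 c + F P a1 b u1 c = 0 := by
  obtain ⟨a, u, ha, hu, hau⟩ := RankS_factor (Matrix.of h)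
  have hr := RankS_le hq (Matrix.of h) hs
  generalize (Matrix.of h).rank = r at a u ha hu hau hr
  have hsum := RankS_sum hR a u hau
  interval_cases r
  · exfalso
    apply h0
    funext j k
    have := hau j k
    rw [Fin.sum_univ_zero] at this
    exact this
  · exfalso
    refine rank_one hP hq2 (a 0) (u 0) (ha.ne_zero 0) (hu.ne_zero 0) fun b c => ?_
    have := hsum b c
    rwa [Fin.sum_univ_one] at this
  · have ea : a = ![a 0, a 1] := by
      funext i
      fin_cases i <;> rfl
    have eu : u = ![u 0, u 1] := by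
      funext i
      fin_cases i <;> rfl
    rw [ea] at ha
    rw [eu] at hu
    have hs2 : ∀ b c, F P (a 0) b (u 0) c + F P (a 1) b (u 1) c = 0 := by
      intro b c
      have := hsum b c
      rwa [Fin.sum_univ_two] at this
    have h4 := rank_two hP (a 0) (a 1) (u 0) (u 1) ha hu hs2
    have h5 := h4.fintype_card_le_finrank
    rw [Module.finrank_fintype_fun_eq_card, Fintype.card_fin, Fintype.card_fin] at h5
    exact ⟨by omega, a 0, a 1, u 0, u 1, ha, hu, hs2⟩
  · exfalso
    have ea : a = ![a 0, a 1, a 2] := by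
      funext i
      fin_cases i <;> rfl
    have eu : u = ![u 0, u 1, u 2] := by
      funext i
      fin_cases i <;> rfl
    rw [ea] at ha
    rw [eu] at hu
    refine rank_three hP hq (a 0) (a 1) (a 2) (u 0) (u 1) (u 2) ha hu fun b c => ?_
    have := hsum b c
    rwa [Fin.sum_univ_three] at this

end Pool.Agent.MP_9c903d
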