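import Pool.Agent.Lib.MP_9c903d_ag.NK.Defs

/-!
# Part Sing: a nonzero syzygy gives a nonzero singular element of the radical
-/

namespace Pool.Agent.MP_9c903d

open scoped ComplexConjugate commutatorElement

theorem exists_singular {q : ℕ} {P : Fin q → Fin q → Fin q → Fin q → ℂ} (hP : IsForm P)
    (hq2 : 2 ≤ q) (τ : Fin q → Fin q → Fin q → ℂ)
    (hA : ∀ i, InR P (τ i)) (hB : ∀ k c d, ∑ i, ∑ j, τ i j k * P i j c d = 0) (h0 : τ ≠ 0) :
    ∃ h : Fin q → Fin q → ℂ, InR P h ∧ h ≠ 0 ∧ (Matrix.of h).det = 0 := by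
  obtain ⟨i0, hi0⟩ : ∃ i0, τ i0 ≠ 0 := Function.ne_iff.mp h0
  have : Nontrivial (Fin q) := Fin.nontrivial_iff_two_le.mpr hq2
  have : Nonempty (Fin q) := ⟨i0⟩
  by_cases hdet : (Matrix.of (τ i0)).det = 0
  · exact ⟨τ i0, hA i0, hi0, hdet⟩
  by_cases hall : ∀ i, ∃ c : ℂ, τ i = c • τ i0
  · exfalso
    choose lam hlam using hall
    have hlam0 : lam i0 = 1 := by
      by_contra hne
      have h1 : (1 - lam i0) • τ i0 = 0 := by
        rw [sub_smul, one_smul, ← hlam i0, sub_self]
      rcases smul_eq_zero.mp h1 with h | h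
      · exact hne (sub_eq_zero.mp h).symm
      · exact hi0 h
    have hlamne : lam ≠ 0 := by
      intro h
      rw [h] at hlam0
      simp at hlam0
    -- the sum over the first two slots vanishes
    have hsum : ∀ k c d, ∑ i, ∑ j, lam i * τ i0 j k * P i j c d = 0 := by
      intro k c d
      rw [← hB k c d]
      refine Finset.sum_congr rfl fun i _ => Finset.sum_congr rfl fun j _ => ?_
      rw [hlam i]
      simp [Pi.smul_apply, smul_eq_mul]
    have hF : ∀ k, F P lam (fun j => τ i0 j k) (star lam) (star fun j => τ i0 j k) = 0 := by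
      intro k
      unfold F
      have : ∀ i j, ∑ c, ∑ d, lam i * τ i0 j k * (star lam) c * (star fun j => τ i0 j k) d
          * P i j c d = ∑ c, ∑ d, (star lam) c * (star fun j => τ i0 j k) d
          * (lam i * τ i0 j k * P i j c d) := by
        intro i j
        refine Finset.sum_congr rfl fun c _ => Finset.sum_congr rfl fun d _ => ?_
        ring
      simp only [this]
      have h2 : ∀ (f : Fin q → Fin q → Fin q → Fin q → ℂ),
          ∑ i, ∑ j, ∑ c, ∑ d, f i j c d = ∑ c, ∑ d, ∑ i, ∑ j, f i j c d := by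
        intro f
        simp only [← Finset.sum_product', Finset.univ_product_univ]
        exact Fintype.sum_equiv
          (⟨fun p => ⟨p.2.2.1, p.2.2.2, p.1, p.2.1⟩, fun p => ⟨p.2.2.1, p.2.2.2, p.1, p.2.1⟩,
            fun _ => rfl, fun _ => rfl⟩ :
            Fin q × Fin q × Fin q × Fin q ≃ Fin q × Fin q × Fin q × Fin q) _ _ fun _ => rfl
      rw [h2]
      refine Finset.sum_eq_zero fun c _ => Finset.sum_eq_zero fun d _ => ?_
      have h3 := hsum k c d
      calc ∑ i, ∑ j, (star lam) c * (star fun j => τ i0 j k) d * (lam i * τ i0 j k * P i j c d)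
          = (star lam) c * (star fun j => τ i0 j k) d * ∑ i, ∑ j, lam i * τ i0 j k * P i j c d := by
            simp only [Finset.mul_sum]
        _ = 0 := by rw [h3, mul_zero]
    have hdep : ∀ k, ∃ t : ℂ, t • lam = fun j => τ i0 j k := by
      intro k
      by_contra hno
      push Not at hno
      have hli : LinearIndependent ℂ ![lam, fun j => τ i0 j k] :=
        (LinearIndependent.pair_iff' hlamne).mpr hno
      have := hP.pos _ _ hli
      rw [hF k] at this
      simp at this
    choose t ht using hdep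
    apply hdet
    have hM : Matrix.of (τ i0) = Matrix.vecMulVec lam t := by
      ext j k
      have := congrFun (ht k) j
      simp only [Pi.smul_apply, smul_eq_mul] at this
      rw [Matrix.of_apply, Matrix.vecMulVec_apply, ← this, mul_comm]
    rw [hM, Matrix.det_vecMulVec]
  · push Not at hall
    obtain ⟨i1, hi1⟩ := hall
    set M : Matrix (Fin q) (Fin q) ℂ := Matrix.of (τ i0) with hM
    set N : Matrix (Fin q) (Fin q) ℂ := M⁻¹ * Matrix.of (τ i1) with hN
    have hMu : IsUnit M.det := isUnit_iff_ne_zero.mpr hdet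
    obtain ⟨mu, hmu⟩ := spectrum.nonempty_of_isAlgClosed_of_finiteDimensional ℂ N
    refine ⟨τ i1 - mu • τ i0, ?_, ?_, ?_⟩
    · intro b c
      have h1 := hA i1 b c
      have h2 := hA i0 b c
      calc ∑ j, ∑ k, (τ i1 - mu • τ i0) j k * P j b k c
          = ∑ j, ∑ k, τ i1 j k * P j b k c - mu * ∑ j, ∑ k, τ i0 j k * P j b k c := by
            simp only [Finset.mul_sum, ← Finset.sum_sub_distrib]
            refine Finset.sum_congr rfl fun j _ => Finset.sum_congr rfl fun k _ => ?_
            simp only [Pi.sub_apply, Pi.smul_apply, smul_eq_mul]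
            ring
        _ = 0 := by rw [h1, h2]; ring
    · intro h
      exact hi1 mu (sub_eq_zero.mp h)
    · have h1 : Matrix.of (τ i1 - mu • τ i0) = M * (N - algebraMap ℂ _ mu) := by
        rw [mul_sub, hN, ← mul_assoc, Matrix.mul_nonsing_inv M hMu, one_mul]
        ext j k
        simp [Matrix.algebraMap_eq_diagonal, hM, mul_comm]
      rw [h1, Matrix.det_mul]
      have h2 : (N - algebraMap ℂ _ mu).det = 0 := by
        by_contra hne
        apply spectrum.mem_iff.mp hmu
        have : IsUnit (N - algebraMap ℂ _ mu) := (Matrix.isUnit_iff_isUnit_det _).mpr (isUnit_iff_ne_zero.mpr hne)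
        rw [← neg_sub]
        exact this.neg
      rw [h2, mul_zero]

end Pool.Agent.MP_9c903d
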