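import Pool.Agent.Lib.MP_9c903d_ag.NK.Core
import Pool.Agent.Lib.MP_9c903d_ag.NK.RankS
import Pool.Agent.Lib.MP_9c903d_ag.NK.Sing

/-!
# Part Adapt: change of basis
-/

namespace Pool.Agent.MP_9c903d

open scoped ComplexConjugate commutatorElement

section tools

variable {q : ℕ} {P : Fin q → Fin q → Fin q → Fin q → ℂ}

private theorem Adapt_F_prod (a b c d : Fin q → ℂ) : F P a b c d =
    ∑ p : Fin q × Fin q × Fin q × Fin q, a p.1 * b p.2.1 * c p.2.2.1 * d p.2.2.2 * P p.1 p.2.1 p.2.2.1 p.2.2.2 := by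
  unfold F
  simp only [Fintype.sum_prod_type]

private theorem Adapt_lin1 (s : Fin q → ℂ) (f : Fin q → Fin q → ℂ) (b c d : Fin q → ℂ) :
    F P (fun x => ∑ i, s i * f i x) b c d = ∑ i, s i * F P (f i) b c d := by
  simp only [Adapt_F_prod, Finset.mul_sum]
  rw [Finset.sum_comm]
  refine Finset.sum_congr rfl fun p _ => ?_
  simp only [Finset.sum_mul]
  exact Finset.sum_congr rfl fun i _ => by ring

private theorem Adapt_lin2 (s : Fin q → ℂ) (f : Fin q → Fin q → ℂ) (a c d : Fin q → ℂ) :
    F P a (fun x => ∑ i, s i * f i x) c d = ∑ i, s i * F P a (f i) c d := by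
  simp only [Adapt_F_prod, Finset.mul_sum]
  rw [Finset.sum_comm]
  refine Finset.sum_congr rfl fun p _ => ?_
  simp only [Finset.sum_mul]
  exact Finset.sum_congr rfl fun i _ => by ring

private theorem Adapt_lin3 (s : Fin q → ℂ) (f : Fin q → Fin q → ℂ) (a b d : Fin q → ℂ) :
    F P a b (fun x => ∑ i, s i * f i x) d = ∑ i, s i * F P a b (f i) d := by
  simp only [Adapt_F_prod, Finset.mul_sum]
  rw [Finset.sum_comm]
  refine Finset.sum_congr rfl fun p _ => ?_
  simp only [Finset.sum_mul]
  exact Finset.sum_congr rfl fun i _ => by ring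

private theorem Adapt_lin4 (s : Fin q → ℂ) (f : Fin q → Fin q → ℂ) (a b c : Fin q → ℂ) :
    F P a b c (fun x => ∑ i, s i * f i x) = ∑ i, s i * F P a b c (f i) := by
  simp only [Adapt_F_prod, Finset.mul_sum]
  rw [Finset.sum_comm]
  refine Finset.sum_congr rfl fun p _ => ?_
  simp only [Finset.sum_mul]
  exact Finset.sum_congr rfl fun i _ => by ring

private theorem Adapt_alt1 (hP : IsForm P) (a b c d : Fin q → ℂ) : F P b a c d = - F P a b c d := by
  unfold F
  rw [Finset.sum_comm, ← Finset.sum_neg_distrib]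
  refine Finset.sum_congr rfl fun i _ => ?_
  rw [← Finset.sum_neg_distrib]
  refine Finset.sum_congr rfl fun j _ => ?_
  rw [← Finset.sum_neg_distrib]
  refine Finset.sum_congr rfl fun k _ => ?_
  rw [← Finset.sum_neg_distrib]
  refine Finset.sum_congr rfl fun l _ => ?_
  rw [hP.alt1 i j k l]
  ring

private theorem Adapt_alt2 (hP : IsForm P) (a b c d : Fin q → ℂ) : F P a b d c = - F P a b c d := by
  unfold F
  rw [← Finset.sum_neg_distrib]
  refine Finset.sum_congr rfl fun i _ => ?_
  rw [← Finset.sum_neg_distrib]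
  refine Finset.sum_congr rfl fun j _ => ?_
  rw [Finset.sum_comm, ← Finset.sum_neg_distrib]
  refine Finset.sum_congr rfl fun k _ => ?_
  rw [← Finset.sum_neg_distrib]
  refine Finset.sum_congr rfl fun l _ => ?_
  rw [hP.alt2 i j k l]
  ring

private theorem Adapt_comm22 (φ : Fin q → Fin q → Fin q → Fin q → ℂ) :
    ∑ j, ∑ k, ∑ x, ∑ y, φ j k x y = ∑ x, ∑ y, ∑ j, ∑ k, φ j k x y := by
  calc _ = ∑ p : Fin q × Fin q, ∑ s : Fin q × Fin q, φ p.1 p.2 s.1 s.2 := by
        simp only [Fintype.sum_prod_type]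
    _ = ∑ s : Fin q × Fin q, ∑ p : Fin q × Fin q, φ p.1 p.2 s.1 s.2 := Finset.sum_comm
    _ = _ := by simp only [Fintype.sum_prod_type]

private theorem Adapt_comm23 (φ : Fin q → Fin q → Fin q → Fin q → Fin q → ℂ) :
    ∑ j, ∑ k, ∑ x, ∑ y, ∑ z, φ j k x y z = ∑ x, ∑ y, ∑ z, ∑ j, ∑ k, φ j k x y z := by
  calc _ = ∑ p : Fin q × Fin q, ∑ s : Fin q × Fin q × Fin q, φ p.1 p.2 s.1 s.2.1 s.2.2 := by
        simp only [Fintype.sum_prod_type]
    _ = ∑ s : Fin q × Fin q × Fin q, ∑ p : Fin q × Fin q, φ p.1 p.2 s.1 s.2.1 s.2.2 := Finset.sum_comm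
    _ = _ := by simp only [Fintype.sum_prod_type]

private theorem Adapt_comm33 (φ : Fin q → Fin q → Fin q → Fin q → Fin q → Fin q → ℂ) :
    ∑ i, ∑ j, ∑ k, ∑ x, ∑ y, ∑ z, φ i j k x y z = ∑ x, ∑ y, ∑ z, ∑ i, ∑ j, ∑ k, φ i j k x y z := by
  calc _ = ∑ p : Fin q × Fin q × Fin q, ∑ s : Fin q × Fin q × Fin q, φ p.1 p.2.1 p.2.2 s.1 s.2.1 s.2.2 := by
        simp only [Fintype.sum_prod_type]
    _ = ∑ s : Fin q × Fin q × Fin q, ∑ p : Fin q × Fin q × Fin q, φ p.1 p.2.1 p.2.2 s.1 s.2.1 s.2.2 := Finset.sum_comm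
    _ = _ := by simp only [Fintype.sum_prod_type]

private theorem Adapt_herm (hP : IsForm P) (a b c d : Fin q → ℂ) :
    conj (F P a b c d) = F P (star c) (star d) (star a) (star b) := by
  unfold F
  rw [Adapt_comm22 (fun i j k l => star c i * star d j * star a k * star b l * P i j k l)]
  simp only [map_sum]
  refine Finset.sum_congr rfl fun i _ => Finset.sum_congr rfl fun j _ =>
    Finset.sum_congr rfl fun k _ => Finset.sum_congr rfl fun l _ => ?_
  rw [hP.herm i j k l]
  simp only [map_mul, Pi.star_apply, RCLike.star_def]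
  ring

/-- unit vector -/
private noncomputable def Adapt_e (y : Fin q) : Fin q → ℂ := fun x => if y = x then 1 else 0

private theorem Adapt_F13 (y z : Fin q) (b d : Fin q → ℂ) :
    F P (Adapt_e y) b (Adapt_e z) d = ∑ j, ∑ l, b j * d l * P y j z l := by
  unfold F Adapt_e
  simp [ite_mul, Finset.sum_ite_eq]

private theorem Adapt_F12 (x y : Fin q) (c d : Fin q → ℂ) :
    F P (Adapt_e x) (Adapt_e y) c d = ∑ k, ∑ l, c k * d l * P x y k l := by
  unfold F Adapt_e
  simp [ite_mul, Finset.sum_ite_eq]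

end tools

theorem core21 {q : ℕ} {P : Fin q → Fin q → Fin q → Fin q → ℂ} (hP : IsForm P) (hq2 : 2 ≤ q)
    (hq : q ≤ 4) (τ : Fin q → Fin q → Fin q → ℂ)
    (hA : ∀ i, InR P (τ i)) (hB : ∀ k c d, ∑ i, ∑ j, τ i j k * P i j c d = 0) : τ = 0 := by
  by_contra h0
  obtain ⟨h, hR, hne, hdet⟩ := exists_singular hP hq2 τ hA hB h0
  obtain ⟨h4, a0, a1, u0, u1, ha, hu, hF⟩ := singular_elt hP hq2 hq h hR hne (Or.inl hdet)
  subst h4
  have hli := rank_two hP a0 a1 u0 u1 ha hu hF
  obtain ⟨f, hf⟩ : ∃ f : Fin 4 → Fin 4 → ℂ, f = ![a0, a1, star u0, star u1] := ⟨_, rfl⟩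
  rw [← hf] at hli
  have hM : IsUnit (Matrix.of f) := by
    rw [← Matrix.linearIndependent_rows_iff_isUnit]
    exact hli
  have hMd : IsUnit (Matrix.of f).det := (Matrix.isUnit_iff_isUnit_det _).1 hM
  obtain ⟨N, hN⟩ : ∃ N : Matrix (Fin 4) (Fin 4) ℂ, N = (Matrix.of f)⁻¹ := ⟨_, rfl⟩
  have hNM : ∀ y x, ∑ j, N y j * f j x = Adapt_e y x := by
    intro y x
    have h1 : N * Matrix.of f = 1 := by rw [hN, Matrix.nonsing_inv_mul _ hMd]
    have h2 := congrFun (congrFun h1 y) x
    rw [Matrix.mul_apply, Matrix.one_apply] at h2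
    exact h2
  have hMN : Matrix.of f * N = 1 := by rw [hN, Matrix.mul_nonsing_inv _ hMd]
  have hNM1 : ∀ y, (fun x => ∑ j, N y j * f j x) = Adapt_e y := fun y => funext (hNM y)
  have hNM2 : ∀ y, (fun x => ∑ j, conj (N y j) * star (f j) x) = Adapt_e y := by
    intro y
    funext x
    have h1 := congrArg (starRingEnd ℂ) (hNM y x)
    rw [map_sum] at h1
    have h2 : (starRingEnd ℂ) (Adapt_e y x) = Adapt_e y x := by
      unfold Adapt_e
      split_ifs <;> simp
    rw [h2] at h1
    rw [← h1]
    exact Finset.sum_congr rfl fun j _ => by rw [map_mul, Pi.star_apply, RCLike.star_def]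
  obtain ⟨P', hP'⟩ : ∃ P' : Fin 4 → Fin 4 → Fin 4 → Fin 4 → ℂ,
      P' = fun i j k l => F P (f i) (f j) (star (f k)) (star (f l)) := ⟨_, rfl⟩
  have hFF : ∀ a b c d : Fin 4 → ℂ, F P' a b c d = F P (fun x => ∑ i, a i * f i x) (fun x => ∑ i, b i * f i x)
      (fun x => ∑ i, c i * star (f i) x) (fun x => ∑ i, d i * star (f i) x) := by
    intro a b c d
    have e : F P' a b c d = ∑ i, ∑ j, ∑ k, ∑ l, a i * b j * c k * d l * P' i j k l := rfl
    rw [e, Adapt_lin1]
    refine Finset.sum_congr rfl fun i _ => ?_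
    rw [Adapt_lin2, Finset.mul_sum]
    refine Finset.sum_congr rfl fun j _ => ?_
    rw [Adapt_lin3 (f := fun i => star (f i)), Finset.mul_sum, Finset.mul_sum]
    refine Finset.sum_congr rfl fun k _ => ?_
    rw [Adapt_lin4 (f := fun i => star (f i)), Finset.mul_sum, Finset.mul_sum, Finset.mul_sum]
    refine Finset.sum_congr rfl fun l _ => ?_
    rw [hP']
    ring
  have hform : IsForm P' := by
    refine ⟨?_, ?_, ?_, ?_⟩
    · intro i j k l
      rw [hP']
      exact Adapt_alt1 hP _ _ _ _
    · intro i j k l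
      rw [hP']
      exact Adapt_alt2 hP _ _ _ _
    · intro i j k l
      rw [hP']
      simp only
      rw [Adapt_herm hP, star_star, star_star]
    · intro a b hab
      rw [hFF]
      have hs : ∀ a : Fin 4 → ℂ, (fun x => ∑ i, star a i * star (f i) x) = star (fun x => ∑ i, a i * f i x) := by
        intro a
        funext x
        simp only [Pi.star_apply, star_sum, star_mul']
      rw [hs, hs]
      refine hP.pos _ _ ?_
      rw [LinearIndependent.pair_iff] at hab ⊢
      intro s t hst
      refine hab s t ?_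
      have h1 : Matrix.vecMul (s • a + t • b) (Matrix.of f) = 0 := by
        rw [← hst]
        funext x
        simp only [Matrix.vecMul, dotProduct, Matrix.of_apply, Pi.add_apply, Pi.smul_apply, smul_eq_mul,
          Finset.mul_sum, ← Finset.sum_add_distrib]
        exact Finset.sum_congr rfl fun i _ => by ring
      have h2 := congrArg (fun v => Matrix.vecMul v N) h1
      simp only [Matrix.vecMul_vecMul, hMN, Matrix.vecMul_one, Matrix.zero_vecMul] at h2
      exact h2
  have h02 : ∀ b c, P' 0 b 2 c + P' 1 b 3 c = 0 := by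
    intro b c
    have h1 := hF (f b) (star (f c))
    have e0 : f 0 = a0 := by rw [hf]; rfl
    have e1 : f 1 = a1 := by rw [hf]; rfl
    have e2 : f 2 = star u0 := by rw [hf]; rfl
    have e3 : f 3 = star u1 := by rw [hf]; rfl
    rw [hP']
    simp only
    rw [e0, e1, e2, e3, star_star, star_star]
    exact h1
  obtain ⟨τ', hτ'⟩ : ∃ τ' : Fin 4 → Fin 4 → Fin 4 → ℂ,
      τ' = fun i j k => ∑ x, ∑ y, ∑ z, τ x y z * N x i * N y j * conj (N z k) := ⟨_, rfl⟩
  have hA' : ∀ i, InR P' (τ' i) := by
    intro i b c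
    have h1 : ∀ y z, ∑ j, ∑ k, N y j * conj (N z k) * P' j b k c =
        ∑ j, ∑ l, f b j * star (f c) l * P y j z l := by
      intro y z
      rw [← Adapt_F13, ← hNM1 y, ← hNM2 z, Adapt_lin1]
      simp only [Adapt_lin3 (f := fun i => star (f i)), Finset.mul_sum]
      rw [hP']
      exact Finset.sum_congr rfl fun j _ => Finset.sum_congr rfl fun k _ => by ring
    calc ∑ j, ∑ k, τ' i j k * P' j b k c
        = ∑ j, ∑ k, ∑ x, ∑ y, ∑ z, τ x y z * N x i * (N y j * conj (N z k) * P' j b k c) := by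
          rw [hτ']
          refine Finset.sum_congr rfl fun j _ => Finset.sum_congr rfl fun k _ => ?_
          simp only [Finset.sum_mul]
          refine Finset.sum_congr rfl fun x _ => Finset.sum_congr rfl fun y _ =>
            Finset.sum_congr rfl fun z _ => ?_
          ring
      _ = ∑ x, ∑ y, ∑ z, ∑ j, ∑ k, τ x y z * N x i * (N y j * conj (N z k) * P' j b k c) :=
          Adapt_comm23 _
      _ = ∑ x, ∑ y, ∑ z, τ x y z * N x i * ∑ j, ∑ l, f b j * star (f c) l * P y j z l := by
          refine Finset.sum_congr rfl fun x _ => Finset.sum_congr rfl fun y _ =>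
            Finset.sum_congr rfl fun z _ => ?_
          rw [← h1]
          simp only [Finset.mul_sum]
      _ = ∑ x, N x i * ∑ j, ∑ l, f b j * star (f c) l * ∑ y, ∑ z, τ x y z * P y j z l := by
          refine Finset.sum_congr rfl fun x _ => ?_
          simp only [Finset.mul_sum]
          rw [Adapt_comm22 (fun j l y z => N x i * (f b j * star (f c) l * (τ x y z * P y j z l)))]
          refine Finset.sum_congr rfl fun y _ => Finset.sum_congr rfl fun z _ =>
            Finset.sum_congr rfl fun j _ => Finset.sum_congr rfl fun l _ => ?_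
          ring
      _ = 0 := by
          refine Finset.sum_eq_zero fun x _ => ?_
          have h2 : ∑ j, ∑ l, f b j * star (f c) l * ∑ y, ∑ z, τ x y z * P y j z l = 0 := by
            refine Finset.sum_eq_zero fun j _ => Finset.sum_eq_zero fun l _ => ?_
            rw [hA x j l, mul_zero]
          rw [h2, mul_zero]
  have hB' : ∀ k c d, ∑ i, ∑ j, τ' i j k * P' i j c d = 0 := by
    intro k c d
    have h1 : ∀ x y, ∑ i, ∑ j, N x i * N y j * P' i j c d =
        ∑ m, ∑ l, star (f c) m * star (f d) l * P x y m l := by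
      intro x y
      rw [← Adapt_F12, ← hNM1 x, ← hNM1 y, Adapt_lin1]
      simp only [Adapt_lin2, Finset.mul_sum]
      rw [hP']
      exact Finset.sum_congr rfl fun j _ => Finset.sum_congr rfl fun k _ => by ring
    calc ∑ i, ∑ j, τ' i j k * P' i j c d
        = ∑ i, ∑ j, ∑ x, ∑ y, ∑ z, τ x y z * conj (N z k) * (N x i * N y j * P' i j c d) := by
          rw [hτ']
          refine Finset.sum_congr rfl fun i _ => Finset.sum_congr rfl fun j _ => ?_
          simp only [Finset.sum_mul]
          refine Finset.sum_congr rfl fun x _ => Finset.sum_congr rfl fun y _ =>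
            Finset.sum_congr rfl fun z _ => ?_
          ring
      _ = ∑ x, ∑ y, ∑ z, ∑ i, ∑ j, τ x y z * conj (N z k) * (N x i * N y j * P' i j c d) :=
          Adapt_comm23 _
      _ = ∑ x, ∑ y, ∑ z, τ x y z * conj (N z k) * ∑ m, ∑ l, star (f c) m * star (f d) l * P x y m l := by
          refine Finset.sum_congr rfl fun x _ => Finset.sum_congr rfl fun y _ =>
            Finset.sum_congr rfl fun z _ => ?_
          rw [← h1]
          simp only [Finset.mul_sum]
      _ = ∑ z, conj (N z k) * ∑ m, ∑ l, star (f c) m * star (f d) l * ∑ x, ∑ y, τ x y z * P x y m l := by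
          simp only [Finset.mul_sum]
          have h3 : ∀ z, ∑ m, ∑ l, ∑ x, ∑ y, conj (N z k) * (star (f c) m * star (f d) l * (τ x y z * P x y m l)) =
              ∑ x, ∑ y, ∑ m, ∑ l, conj (N z k) * (star (f c) m * star (f d) l * (τ x y z * P x y m l)) :=
            fun z => Adapt_comm22 _
          simp only [h3]
          have h5 : ∑ z, ∑ x, ∑ y, ∑ m, ∑ l, conj (N z k) * (star (f c) m * star (f d) l * (τ x y z * P x y m l)) =
              ∑ x, ∑ y, ∑ z, ∑ m, ∑ l, conj (N z k) * (star (f c) m * star (f d) l * (τ x y z * P x y m l)) := by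
            rw [Finset.sum_comm]
            exact Finset.sum_congr rfl fun x _ => Finset.sum_comm
          rw [h5]
          refine Finset.sum_congr rfl fun x _ => Finset.sum_congr rfl fun y _ => Finset.sum_congr rfl fun z _ =>
            Finset.sum_congr rfl fun m _ => Finset.sum_congr rfl fun l _ => ?_
          ring
      _ = 0 := by
          refine Finset.sum_eq_zero fun z _ => ?_
          have h2 : ∑ m, ∑ l, star (f c) m * star (f d) l * ∑ x, ∑ y, τ x y z * P x y m l = 0 := by
            refine Finset.sum_eq_zero fun m _ => Finset.sum_eq_zero fun l _ => ?_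
            rw [hB z m l, mul_zero]
          rw [h2, mul_zero]
  have hz : τ' = 0 := adapted_zero hform h02 τ' hA' hB'
  apply h0
  funext a b c
  have hrec : τ a b c = ∑ i, ∑ j, ∑ k, τ' i j k * (f i a * f j b * conj (f k c)) := by
    calc τ a b c = ∑ x, ∑ y, ∑ z, τ x y z * (Adapt_e x a * Adapt_e y b * Adapt_e z c) := by
          unfold Adapt_e
          simp
      _ = ∑ x, ∑ y, ∑ z, ∑ i, ∑ j, ∑ k, τ x y z * N x i * N y j * conj (N z k) * (f i a * f j b * conj (f k c)) := by
          refine Finset.sum_congr rfl fun x _ => Finset.sum_congr rfl fun y _ =>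
            Finset.sum_congr rfl fun z _ => ?_
          rw [← hNM x a, ← hNM y b, ← congrFun (hNM2 z) c]
          rw [Finset.sum_mul_sum, Finset.sum_mul, Finset.mul_sum]
          refine Finset.sum_congr rfl fun i _ => ?_
          rw [Finset.sum_mul, Finset.mul_sum]
          refine Finset.sum_congr rfl fun j _ => ?_
          rw [Finset.mul_sum, Finset.mul_sum]
          refine Finset.sum_congr rfl fun k _ => ?_
          rw [Pi.star_apply, RCLike.star_def]
          ring
      _ = ∑ i, ∑ j, ∑ k, ∑ x, ∑ y, ∑ z, τ x y z * N x i * N y j * conj (N z k) * (f i a * f j b * conj (f k c)) :=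
          Adapt_comm33 _
      _ = ∑ i, ∑ j, ∑ k, τ' i j k * (f i a * f j b * conj (f k c)) := by
          rw [hτ']
          simp only [Finset.sum_mul]
  rw [hrec, hz]
  simp

end Pool.Agent.MP_9c903d
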