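import Pool.Agent.Lib.MP_9c903d_ag.NK.Surf

/-!
# Part Bas: the basis e_i, conj e_i of H^1 and the form P
-/

namespace Pool.Agent.MP_9c903d

open scoped ComplexConjugate commutatorElement

private theorem bas_cj_add {G : Type*} [Group G] (φ ψ : H1 G) : cj (φ + ψ) = cj φ + cj ψ := by
  ext g
  exact map_add (starRingEnd ℂ) (φ g) (ψ g)

private theorem bas_cj_zero {G : Type*} [Group G] : cj (0 : H1 G) = 0 := by
  ext g
  exact map_zero (starRingEnd ℂ)

private theorem bas_cj_smul {G : Type*} [Group G] (c : ℂ) (φ : H1 G) : cj (c • φ) = conj c • cj φ := by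
  ext g
  exact map_mul (starRingEnd ℂ) c (φ g)

private theorem bas_cj_cj {G : Type*} [Group G] (φ : H1 G) : cj (cj φ) = φ := by
  ext g
  exact Complex.conj_conj (φ g)

private theorem bas_cj_sum {G : Type*} [Group G] {α : Type*} (s : Finset α) (f : α → H1 G) :
    cj (∑ i ∈ s, f i) = ∑ i ∈ s, cj (f i) := by
  classical
  induction s using Finset.induction_on with
  | empty => simp [bas_cj_zero]
  | insert a s ha ih => rw [Finset.sum_insert ha, Finset.sum_insert ha, bas_cj_add, ih]

theorem exists_basis {G : Type*} [Group G] (D : HodgeRiemannData G) [Module.Finite ℂ (H1 G)] :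
    ∃ (q : ℕ) (ε : Module.Basis (Fin q ⊕ Fin q) ℂ (H1 G)),
      (∀ i, ε (Sum.inl i) ∈ D.V) ∧ (∀ i, ε (Sum.inr i) = cj (ε (Sum.inl i))) := by
  classical
  let e := Module.finBasis ℂ D.V
  let v : Fin (Module.finrank ℂ D.V) ⊕ Fin (Module.finrank ℂ D.V) → H1 G :=
    Sum.elim (fun i => (e i : H1 G)) fun i => cj (e i : H1 G)
  have hsum : ∀ a : D.V, (a : H1 G) = ∑ i, e.repr a i • (e i : H1 G) := by
    intro a
    conv_lhs => rw [← e.sum_repr a]
    rw [Submodule.coe_sum]
    rfl
  have hli : LinearIndependent ℂ v := by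
    rw [Fintype.linearIndependent_iff]
    intro c hc
    rw [Fintype.sum_sum_type] at hc
    change ∑ i, c (Sum.inl i) • (e i : H1 G) + ∑ i, c (Sum.inr i) • cj (e i : H1 G) = 0 at hc
    set A : D.V := ∑ i, c (Sum.inl i) • e i with hA
    set B : D.V := ∑ i, conj (c (Sum.inr i)) • e i with hB
    have hA' : (A : H1 G) = ∑ i, c (Sum.inl i) • (e i : H1 G) := by
      rw [hA, Submodule.coe_sum]
      rfl
    have hB' : cj (B : H1 G) = ∑ i, c (Sum.inr i) • cj (e i : H1 G) := by
      rw [hB, Submodule.coe_sum, bas_cj_sum]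
      refine Finset.sum_congr rfl fun i _ => ?_
      rw [Submodule.coe_smul, bas_cj_smul, Complex.conj_conj]
    rw [← hA', ← hB'] at hc
    have h1 : cj (B : H1 G) = -(A : H1 G) := by
      rw [eq_neg_iff_add_eq_zero, add_comm]
      exact hc
    have h2 : (B : H1 G) = 0 := D.disj _ B.2 (by rw [h1]; exact D.V.neg_mem A.2)
    have h3 : (A : H1 G) = 0 := by
      rw [h2, bas_cj_zero, add_zero] at hc
      exact hc
    have h4 : B = 0 := Subtype.ext h2
    have h5 : A = 0 := Subtype.ext h3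
    have hle := Fintype.linearIndependent_iff.1 e.linearIndependent
    rintro (i | i)
    · exact hle _ (hA.symm.trans h5) i
    · have h6 := hle _ (hB.symm.trans h4) i
      exact (map_eq_zero (starRingEnd ℂ)).1 h6
  have hsp : ⊤ ≤ Submodule.span ℂ (Set.range v) := by
    intro φ _
    obtain ⟨a, ha, b, hb, rfl⟩ := D.decomp φ
    refine Submodule.add_mem _ ?_ ?_
    · have h1 := hsum ⟨a, ha⟩
      change a = _ at h1
      rw [h1]
      exact Submodule.sum_mem _ fun i _ => Submodule.smul_mem _ _ (Submodule.subset_span ⟨Sum.inl i, rfl⟩)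
    · have h1 := hsum ⟨b, hb⟩
      change b = _ at h1
      rw [h1, bas_cj_sum]
      refine Submodule.sum_mem _ fun i _ => ?_
      rw [bas_cj_smul]
      exact Submodule.smul_mem _ _ (Submodule.subset_span ⟨Sum.inr i, rfl⟩)
  refine ⟨_, Module.Basis.mk hli hsp, fun i => ?_, fun i => ?_⟩
  · rw [Module.Basis.mk_apply]
    exact (e i).2
  · rw [Module.Basis.mk_apply, Module.Basis.mk_apply]
    rfl

private theorem bas_swap01 {V : Type*} (a b c d : V) : (![b, a, c, d] : Fin 4 → V) = ![a, b, c, d] ∘ Equiv.swap 0 1 := by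
  ext i
  fin_cases i <;> rfl

private theorem bas_swap23 {V : Type*} (a b c d : V) : (![a, b, d, c] : Fin 4 → V) = ![a, b, c, d] ∘ Equiv.swap 2 3 := by
  ext i
  fin_cases i <;> rfl

private theorem bas_swap02 {V : Type*} (a b c d : V) : (![c, b, a, d] : Fin 4 → V) = ![a, b, c, d] ∘ Equiv.swap 0 2 := by
  ext i
  fin_cases i <;> rfl

private theorem bas_swap13 {V : Type*} (a b c d : V) : (![a, d, c, b] : Fin 4 → V) = ![a, b, c, d] ∘ Equiv.swap 1 3 := by
  ext i
  fin_cases i <;> rfl

section slots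

variable {G : Type*} [Group G] (T : (H1 G) [⋀^Fin 4]→ₗ[ℂ] ℂ) {n : ℕ}

private theorem bas_upd0 {V : Type*} (x a b c d : V) : Function.update (![a, b, c, d] : Fin 4 → V) 0 x = ![x, b, c, d] := by
  ext i
  fin_cases i <;> rfl

private theorem bas_upd1 {V : Type*} (x a b c d : V) : Function.update (![a, b, c, d] : Fin 4 → V) 1 x = ![a, x, c, d] := by
  ext i
  fin_cases i <;> rfl

private theorem bas_upd2 {V : Type*} (x a b c d : V) : Function.update (![a, b, c, d] : Fin 4 → V) 2 x = ![a, b, x, d] := by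
  ext i
  fin_cases i <;> rfl

private theorem bas_upd3 {V : Type*} (x a b c d : V) : Function.update (![a, b, c, d] : Fin 4 → V) 3 x = ![a, b, c, x] := by
  ext i
  fin_cases i <;> rfl

private theorem bas_lin (m : Fin 4 → H1 G) (k : Fin 4) (c : Fin n → ℂ) (u : Fin n → H1 G) :
    T (Function.update m k (∑ i, c i • u i)) = ∑ i, c i * T (Function.update m k (u i)) := by
  have h : ∀ x, T (Function.update m k x) = T.toMultilinearMap.toLinearMap m k x := fun x => rfl
  rw [h, map_sum]
  refine Finset.sum_congr rfl fun i _ => ?_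
  rw [map_smul, h]
  rfl

private theorem bas_exp (a b c d : Fin n → ℂ) (u w : Fin n → H1 G) :
    T ![∑ i, a i • u i, ∑ i, b i • u i, ∑ i, c i • w i, ∑ i, d i • w i] =
      ∑ i, ∑ j, ∑ k, ∑ l, a i * b j * c k * d l * T ![u i, u j, w k, w l] := by
  have h0 : ∀ y z w' : H1 G, T ![∑ i, a i • u i, y, z, w'] = ∑ i, a i * T ![u i, y, z, w'] := by
    intro y z w'
    have h := bas_lin T ![0, y, z, w'] 0 a u
    simpa only [bas_upd0] using h
  have h1 : ∀ x z w' : H1 G, T ![x, ∑ i, b i • u i, z, w'] = ∑ i, b i * T ![x, u i, z, w'] := by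
    intro x z w'
    have h := bas_lin T ![x, 0, z, w'] 1 b u
    simpa only [bas_upd1] using h
  have h2 : ∀ x y w' : H1 G, T ![x, y, ∑ i, c i • w i, w'] = ∑ i, c i * T ![x, y, w i, w'] := by
    intro x y w'
    have h := bas_lin T ![x, y, 0, w'] 2 c w
    simpa only [bas_upd2] using h
  have h3 : ∀ x y z : H1 G, T ![x, y, z, ∑ i, d i • w i] = ∑ i, d i * T ![x, y, z, w i] := by
    intro x y z
    have h := bas_lin T ![x, y, z, 0] 3 d w
    simpa only [bas_upd3] using h
  rw [h0]
  refine Finset.sum_congr rfl fun i _ => ?_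
  rw [h1, Finset.mul_sum]
  refine Finset.sum_congr rfl fun j _ => ?_
  rw [h2, Finset.mul_sum, Finset.mul_sum]
  refine Finset.sum_congr rfl fun k _ => ?_
  rw [h3, Finset.mul_sum, Finset.mul_sum, Finset.mul_sum]
  refine Finset.sum_congr rfl fun l _ => ?_
  ring

end slots

theorem isForm {G : Type*} [Group G] (D : HodgeRiemannData G) (hn : Group.IsNilpotent G) {q : ℕ}
    (ε : Module.Basis (Fin q ⊕ Fin q) ℂ (H1 G)) (h1 : ∀ i, ε (Sum.inl i) ∈ D.V)
    (h2 : ∀ i, ε (Sum.inr i) = cj (ε (Sum.inl i))) :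
    IsForm (fun i j k l : Fin q =>
      D.T ![ε (Sum.inl i), ε (Sum.inl j), ε (Sum.inr k), ε (Sum.inr l)]) := by
  refine ⟨?_, ?_, ?_, ?_⟩
  · intro i j k l
    rw [bas_swap01 (ε (Sum.inl i)) (ε (Sum.inl j))]
    exact D.T.map_swap _ (by decide)
  · intro i j k l
    rw [bas_swap23 (ε (Sum.inl i)) (ε (Sum.inl j))]
    exact D.T.map_swap _ (by decide)
  · intro i j k l
    have h3 := D.real (ε (Sum.inl i)) (ε (Sum.inl j)) (ε (Sum.inr k)) (ε (Sum.inr l))
    rw [← h3, h2 k, h2 l, bas_cj_cj, bas_cj_cj, ← h2 i, ← h2 j, bas_swap02 (ε (Sum.inr i)) (ε (Sum.inl l)) (ε (Sum.inl k)),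
      D.T.map_swap _ (by decide : (0 : Fin 4) ≠ 2), bas_swap13 (ε (Sum.inr i)) (ε (Sum.inr j)) (ε (Sum.inl k)),
      D.T.map_swap _ (by decide : (1 : Fin 4) ≠ 3), neg_neg]
  · intro a b hab
    set A : H1 G := ∑ i, a i • ε (Sum.inl i) with hA
    set B : H1 G := ∑ i, b i • ε (Sum.inl i) with hB
    have hAV : A ∈ D.V := Submodule.sum_mem _ fun i _ => Submodule.smul_mem _ _ (h1 i)
    have hBV : B ∈ D.V := Submodule.sum_mem _ fun i _ => Submodule.smul_mem _ _ (h1 i)
    have hcj : ∀ c : Fin q → ℂ, cj (∑ i, c i • ε (Sum.inl i)) = ∑ i, (star c) i • ε (Sum.inr i) := by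
      intro c
      rw [bas_cj_sum]
      refine Finset.sum_congr rfl fun i _ => ?_
      rw [bas_cj_smul, h2]
      rfl
    have hF : F (fun i j k l : Fin q => D.T ![ε (Sum.inl i), ε (Sum.inl j), ε (Sum.inr k), ε (Sum.inr l)]) a b (star a) (star b) =
        D.T ![A, B, cj A, cj B] := by
      rw [hA, hB, hcj, hcj, bas_exp]
      rfl
    rw [hF]
    have hli : LinearIndependent ℂ ![A, B] := by
      have hε : LinearIndependent ℂ fun i => ε (Sum.inl i) := ε.linearIndependent.comp _ Sum.inl_injective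
      have hinj : LinearMap.ker (Fintype.linearCombination ℂ fun i => ε (Sum.inl i)) = ⊥ := by
        rw [LinearMap.ker_eq_bot']
        intro c hc
        funext i
        exact Fintype.linearIndependent_iff.1 hε c hc i
      have h3 := hab.map' _ hinj
      have h4 : (Fintype.linearCombination ℂ fun i => ε (Sum.inl i)) ∘ ![a, b] = ![A, B] := by
        funext i
        fin_cases i <;> rfl
      rwa [h4] at h3
    refine lt_of_le_of_ne (D.nonneg A hAV B hBV) fun h0 => ?_
    have h3 := D.eq_zero A hAV B hBV h0.symm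
    obtain ⟨g, hg, f, hf⟩ := D.castelnuovo A hAV B hBV hli h3
    exact no_surj hn g hg f hf

end Pool.Agent.MP_9c903d
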