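import Pool.Agent.Lib.MP_9c903d_ag.NK.Defs

/-!
# Part Blk: the blocks in an adapted basis (W = {0,1}, X = {2,3}, h_0 = e_0 conj e_2 + e_1 conj e_3)
-/

namespace Pool.Agent.MP_9c903d

open scoped ComplexConjugate commutatorElement

private theorem blk_rank {k02 k03 k12 k13 : ℂ} (hdet : k02 * k13 - k03 * k12 = 0) :
    ∃ s0 s1 t2 t3 : ℂ, k02 = s0 * t2 ∧ k03 = s0 * t3 ∧ k12 = s1 * t2 ∧ k13 = s1 * t3 := by
  by_cases h2 : k02 = 0
  · by_cases h3 : k03 = 0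
    · exact ⟨0, 1, k12, k13, by rw [h2, zero_mul], by rw [h3, zero_mul], by rw [one_mul], by rw [one_mul]⟩
    · have h12 : k12 = 0 := by
        rw [h2] at hdet
        have : k03 * k12 = 0 := by linear_combination -hdet
        exact (mul_eq_zero.1 this).resolve_left h3
      refine ⟨1, k13 / k03, k02, k03, by rw [one_mul], by rw [one_mul], ?_, ?_⟩
      · rw [h12, h2, mul_zero]
      · field_simp
  · refine ⟨1, k12 / k02, k02, k03, by rw [one_mul], by rw [one_mul], ?_, ?_⟩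
    · field_simp
    · field_simp
      linear_combination hdet

private theorem blk_indep {s0 s1 t2 t3 : ℂ} (hs : ¬ (s0 = 0 ∧ s1 = 0)) (ht : ¬ (t2 = 0 ∧ t3 = 0)) :
    LinearIndependent ℂ ![(![s0, s1, 0, 0] : Fin 4 → ℂ), ![0, 0, t2, t3]] := by
  rw [LinearIndependent.pair_iff]
  intro x y h
  have e0 := congrFun h 0
  have e1 := congrFun h 1
  have e2 := congrFun h 2
  have e3 := congrFun h 3
  simp at e0 e1 e2 e3
  constructor
  · by_contra hx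
    apply hs
    exact ⟨e0.resolve_left hx, e1.resolve_left hx⟩
  · by_contra hy
    apply ht
    exact ⟨e2.resolve_left hy, e3.resolve_left hy⟩

section
variable {P : Fin 4 → Fin 4 → Fin 4 → Fin 4 → ℂ} (hP : IsForm P)
  (h02 : ∀ b c, P 0 b 2 c + P 1 b 3 c = 0)

include hP in
private theorem blk_d1 (i k l : Fin 4) : P i i k l = 0 := by
  have := hP.alt1 i i k l
  linear_combination (1 / 2 : ℂ) * this

include hP in
private theorem blk_d2 (i j k : Fin 4) : P i j k k = 0 := by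
  have := hP.alt2 i j k k
  linear_combination (1 / 2 : ℂ) * this

include hP h02

theorem z_all (c : Fin 4) : P 0 1 2 c = 0 ∧ P 0 1 3 c = 0 ∧ P 0 c 2 3 = 0 ∧ P 1 c 2 3 = 0 ∧
    P 2 c 0 1 = 0 ∧ P 3 c 0 1 = 0 ∧ P 2 3 0 c = 0 ∧ P 2 3 1 c = 0 := by
  have a1 : ∀ c, P 0 1 2 c = 0 := by
    intro c
    have h1 := h02 1 c
    rw [blk_d1 hP 1 3 c, add_zero] at h1
    exact h1
  have a2 : ∀ c, P 0 1 3 c = 0 := by
    intro c
    have h1 := h02 0 c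
    rw [blk_d1 hP 0 2 c, zero_add, hP.alt1 0 1 3 c] at h1
    linear_combination -h1
  have a3 : ∀ c, P 0 c 2 3 = 0 := by
    intro c
    have h1 := h02 c 3
    rw [blk_d2 hP 1 c 3, add_zero] at h1
    exact h1
  have a4 : ∀ c, P 1 c 2 3 = 0 := by
    intro c
    have h1 := h02 c 2
    rw [blk_d2 hP 0 c 2, zero_add, hP.alt2 1 c 2 3] at h1
    linear_combination -h1
  refine ⟨a1 c, a2 c, a3 c, a4 c, ?_, ?_, ?_, ?_⟩
  · rw [hP.herm 0 1 2 c, a1, map_zero]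
  · rw [hP.herm 0 1 3 c, a2, map_zero]
  · rw [hP.herm 0 c 2 3, a3, map_zero]
  · rw [hP.herm 1 c 2 3, a4, map_zero]

theorem g1 (b c : Fin 4) : P 0 b c 2 + P 1 b c 3 = 0 := by
  rw [hP.alt2 0 b 2 c, hP.alt2 1 b 3 c]
  linear_combination -(h02 b c)

omit h02 in
private theorem blk_norm :
    (∀ k l, P 1 0 k l = - P 0 1 k l) ∧ (∀ k l, P 2 0 k l = - P 0 2 k l) ∧ (∀ k l, P 3 0 k l = - P 0 3 k l) ∧
    (∀ k l, P 2 1 k l = - P 1 2 k l) ∧ (∀ k l, P 3 1 k l = - P 1 3 k l) ∧ (∀ k l, P 3 2 k l = - P 2 3 k l) ∧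
    (∀ i j, P i j 1 0 = - P i j 0 1) ∧ (∀ i j, P i j 2 0 = - P i j 0 2) ∧ (∀ i j, P i j 3 0 = - P i j 0 3) ∧
    (∀ i j, P i j 2 1 = - P i j 1 2) ∧ (∀ i j, P i j 3 1 = - P i j 1 3) ∧ (∀ i j, P i j 3 2 = - P i j 2 3) :=
  ⟨hP.alt1 0 1, hP.alt1 0 2, hP.alt1 0 3, hP.alt1 1 2, hP.alt1 1 3, hP.alt1 2 3,
    fun i j => hP.alt2 i j 0 1, fun i j => hP.alt2 i j 0 2, fun i j => hP.alt2 i j 0 3,
    fun i j => hP.alt2 i j 1 2, fun i j => hP.alt2 i j 1 3, fun i j => hP.alt2 i j 2 3⟩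

private theorem blk_zero :
    P 0 1 0 2 = 0 ∧ P 0 1 0 3 = 0 ∧ P 0 1 1 2 = 0 ∧ P 0 1 1 3 = 0 ∧ P 0 1 2 3 = 0 ∧
    P 0 2 0 1 = 0 ∧ P 0 3 0 1 = 0 ∧ P 1 2 0 1 = 0 ∧ P 1 3 0 1 = 0 ∧ P 2 3 0 1 = 0 ∧
    P 0 2 2 3 = 0 ∧ P 0 3 2 3 = 0 ∧ P 1 2 2 3 = 0 ∧ P 1 3 2 3 = 0 ∧
    P 2 3 0 2 = 0 ∧ P 2 3 0 3 = 0 ∧ P 2 3 1 2 = 0 ∧ P 2 3 1 3 = 0 := by
  have z := z_all hP h02
  have s : ∀ i j k l, P i j k l = 0 → P i j l k = 0 := by
    intro i j k l h
    rw [hP.alt2 i j k l, h, neg_zero]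
  have s' : ∀ i j k l, P i j k l = 0 → P j i k l = 0 := by
    intro i j k l h
    rw [hP.alt1 i j k l, h, neg_zero]
  exact ⟨s _ _ _ _ (z 0).1, s _ _ _ _ (z 0).2.1, s _ _ _ _ (z 1).1, s _ _ _ _ (z 1).2.1, (z 3).1,
    s' _ _ _ _ (z 0).2.2.2.2.1, s' _ _ _ _ (z 0).2.2.2.2.2.1, s' _ _ _ _ (z 1).2.2.2.2.1,
    s' _ _ _ _ (z 1).2.2.2.2.2.1, (z 3).2.2.2.2.1,
    (z 2).2.2.1, (z 3).2.2.1, (z 2).2.2.2.1, (z 3).2.2.2.1,
    (z 2).2.2.2.2.2.2.1, (z 3).2.2.2.2.2.2.1, (z 2).2.2.2.2.2.2.2, (z 3).2.2.2.2.2.2.2⟩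

/-- `W × W` equations of an element of the radical -/
theorem rw_eq {h : Fin 4 → Fin 4 → ℂ} (hR : InR P h) :
    (h 2 2 * P 0 2 0 2 + h 2 3 * P 0 2 0 3 + h 3 2 * P 0 3 0 2 + h 3 3 * P 0 3 0 3
      + h 1 1 * P 0 1 0 1 = 0) ∧
    (h 2 2 * P 1 2 1 2 + h 2 3 * P 1 2 1 3 + h 3 2 * P 1 3 1 2 + h 3 3 * P 1 3 1 3
      + h 0 0 * P 0 1 0 1 = 0) ∧
    (h 2 2 * P 0 2 1 2 + h 2 3 * P 0 2 1 3 + h 3 2 * P 0 3 1 2 + h 3 3 * P 0 3 1 3
      - h 1 0 * P 0 1 0 1 = 0) ∧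
    (h 2 2 * P 1 2 0 2 + h 2 3 * P 1 2 0 3 + h 3 2 * P 1 3 0 2 + h 3 3 * P 1 3 0 3
      - h 0 1 * P 0 1 0 1 = 0) := by
  obtain ⟨n1, n2, n3, n4, n5, n6, n7, n8, n9, n10, n11, n12⟩ := blk_norm hP
  obtain ⟨z1, z2, z3, z4, z5, z6, z7, z8, z9, z10, z11, z12, z13, z14, z15, z16, z17, z18⟩ := blk_zero hP h02
  have d1 := blk_d1 hP
  have d2 := blk_d2 hP
  have e00 := hR 0 0
  have e11 := hR 1 1
  have e01 := hR 0 1
  have e10 := hR 1 0
  simp only [Fin.sum_univ_four, d1, d2, n1, n2, n3, n4, n5, n6, n7, n8, n9, n10, n11, n12, z1, z2, z3, z4, z5, z6,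
    z7, z8, z9, z10, z11, z12, z13, z14, z15, z16, z17, z18, neg_zero, mul_zero, add_zero, zero_add, neg_neg] at e00 e11 e01 e10
  refine ⟨?_, ?_, ?_, ?_⟩
  · linear_combination e00
  · linear_combination e11
  · linear_combination e01
  · linear_combination e10

/-- `X × X` equations of an element of the radical -/
theorem rx_eq {h : Fin 4 → Fin 4 → ℂ} (hR : InR P h) :
    (h 0 0 * P 0 2 0 2 + h 0 1 * P 0 2 1 2 + h 1 0 * P 1 2 0 2 + h 1 1 * P 1 2 1 2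
      + h 3 3 * P 2 3 2 3 = 0) ∧
    (h 0 0 * P 0 3 0 3 + h 0 1 * P 0 3 1 3 + h 1 0 * P 1 3 0 3 + h 1 1 * P 1 3 1 3
      + h 2 2 * P 2 3 2 3 = 0) ∧
    (h 0 0 * P 0 2 0 3 + h 0 1 * P 0 2 1 3 + h 1 0 * P 1 2 0 3 + h 1 1 * P 1 2 1 3
      - h 3 2 * P 2 3 2 3 = 0) ∧
    (h 0 0 * P 0 3 0 2 + h 0 1 * P 0 3 1 2 + h 1 0 * P 1 3 0 2 + h 1 1 * P 1 3 1 2
      - h 2 3 * P 2 3 2 3 = 0) := by
  obtain ⟨n1, n2, n3, n4, n5, n6, n7, n8, n9, n10, n11, n12⟩ := blk_norm hP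
  obtain ⟨z1, z2, z3, z4, z5, z6, z7, z8, z9, z10, z11, z12, z13, z14, z15, z16, z17, z18⟩ := blk_zero hP h02
  have d1 := blk_d1 hP
  have d2 := blk_d2 hP
  have e22 := hR 2 2
  have e33 := hR 3 3
  have e23 := hR 2 3
  have e32 := hR 3 2
  simp only [Fin.sum_univ_four, d1, d2, n1, n2, n3, n4, n5, n6, n7, n8, n9, n10, n11, n12, z1, z2, z3, z4, z5, z6,
    z7, z8, z9, z10, z11, z12, z13, z14, z15, z16, z17, z18, neg_zero, mul_zero, add_zero, zero_add, neg_neg] at e22 e33 e23 e32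
  refine ⟨?_, ?_, ?_, ?_⟩
  · linear_combination e22
  · linear_combination e33
  · linear_combination e23
  · linear_combination e32

omit h02 in
/-- the contraction argument -/
private theorem blk_key {n02 n03 n12 n13 : ℂ} (hdet : n02 * n13 - n03 * n12 = 0)
    (hE : ∀ b c, (b = 2 ∨ b = 3) → (c = 0 ∨ c = 1) →
      n02 * P 0 b c 2 + n03 * P 0 b c 3 + n12 * P 1 b c 2 + n13 * P 1 b c 3 = 0) :
    n02 = 0 ∧ n03 = 0 ∧ n12 = 0 ∧ n13 = 0 := by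
  obtain ⟨s0, s1, t2, t3, rfl, rfl, rfl, rfl⟩ := blk_rank hdet
  by_cases hs : s0 = 0 ∧ s1 = 0
  · rw [hs.1, hs.2]; simp
  by_cases ht : t2 = 0 ∧ t3 = 0
  · rw [ht.1, ht.2]; simp
  exfalso
  have ht' : ¬ (conj t2 = 0 ∧ conj t3 = 0) := by simpa using ht
  have hpos := hP.pos ![s0, s1, 0, 0] ![0, 0, conj t2, conj t3] (blk_indep hs ht')
  have e20 := hE 2 0 (Or.inl rfl) (Or.inl rfl)
  have e21 := hE 2 1 (Or.inl rfl) (Or.inr rfl)
  have e30 := hE 3 0 (Or.inr rfl) (Or.inl rfl)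
  have e31 := hE 3 1 (Or.inr rfl) (Or.inr rfl)
  have hF : F P ![s0, s1, 0, 0] ![0, 0, conj t2, conj t3] (star ![s0, s1, 0, 0]) (star ![0, 0, conj t2, conj t3]) = 0 := by
    simp [F, Fin.sum_univ_four]
    linear_combination conj t2 * conj s0 * e20 + conj t2 * conj s1 * e21 + conj t3 * conj s0 * e30 + conj t3 * conj s1 * e31
  rw [hF] at hpos
  simp at hpos

omit hP h02 in
private theorem blk_eig (m02 m03 m12 m13 : ℂ) : ∃ l : ℂ, (m02 - l) * (m13 - l) - m03 * m12 = 0 := by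
  obtain ⟨z, hz⟩ := IsAlgClosed.exists_eq_mul_self ((m02 - m13) ^ 2 + 4 * m03 * m12)
  refine ⟨((m02 + m13) + z) / 2, ?_⟩
  linear_combination -(1 / 4 : ℂ) * hz

theorem mixed {h : Fin 4 → Fin 4 → ℂ} (hR : InR P h) :
    h 0 3 = 0 ∧ h 1 2 = 0 ∧ h 0 2 = h 1 3 ∧ h 2 1 = 0 ∧ h 3 0 = 0 ∧ h 2 0 = h 3 1 := by
  obtain ⟨n1, n2, n3, n4, n5, n6, n7, n8, n9, n10, n11, n12⟩ := blk_norm hP
  obtain ⟨z1, z2, z3, z4, z5, z6, z7, z8, z9, z10, z11, z12, z13, z14, z15, z16, z17, z18⟩ := blk_zero hP h02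
  have d1 := blk_d1 hP
  have d2 := blk_d2 hP
  have g := g1 hP h02
  have g' : ∀ b c, P c 2 0 b + P c 3 1 b = 0 := by
    intro b c
    rw [hP.herm 0 b c 2, hP.herm 1 b c 3, ← map_add, g, map_zero]
  -- the block W x X
  obtain ⟨l, hl⟩ := blk_eig (h 0 2) (h 0 3) (h 1 2) (h 1 3)
  have k1 := blk_key hP hl (by
    intro b c hb hc
    have e := hR b c
    rcases hb with rfl | rfl <;> rcases hc with rfl | rfl
    all_goals
      simp only [Fin.sum_univ_four, d1, d2, n1, n2, n3, n4, n5, n6, n7, n8, n9, n10, n11, n12, z1, z2, z3, z4, z5, z6,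
        z7, z8, z9, z10, z11, z12, z13, z14, z15, z16, z17, z18, neg_zero, mul_zero, add_zero, zero_add, neg_neg] at e ⊢
    · have g0 := g 2 0
      linear_combination -e - l * g0
    · have g0 := g 2 1
      linear_combination -e - l * g0
    · have g0 := g 3 0
      linear_combination -e - l * g0
    · have g0 := g 3 1
      linear_combination -e - l * g0)
  -- the block X x W
  obtain ⟨l', hl'⟩ := blk_eig (h 2 0) (h 3 0) (h 2 1) (h 3 1)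
  have hl2 : conj (h 2 0 - l') * conj (h 3 1 - l') - conj (h 3 0) * conj (h 2 1) = 0 := by
    rw [← map_mul, ← map_mul, ← map_sub, hl', map_zero]
  have k2 := blk_key hP hl2 (by
    intro b c hb hc
    have e := congrArg conj (hR c b)
    have hh : ∀ i j k m, conj (P i j k m) = P k m i j := fun i j k m => (hP.herm i j k m).symm
    rcases hb with rfl | rfl <;> rcases hc with rfl | rfl
    all_goals
      simp only [Fin.sum_univ_four, map_add, map_mul, map_sub, map_zero, map_neg, hh, d1, d2, n1, n2, n3, n4, n5, n6, n7, n8, n9, n10, n11,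
        n12, z1, z2, z3, z4, z5, z6, z7, z8, z9, z10, z11, z12, z13, z14, z15, z16, z17, z18, neg_zero, mul_zero, add_zero,
        zero_add, neg_neg] at e ⊢
    · have g0 := g 2 0
      linear_combination -e - conj l' * g0
    · have g0 := g 2 1
      linear_combination -e - conj l' * g0
    · have g0 := g 3 0
      linear_combination -e - conj l' * g0
    · have g0 := g 3 1
      linear_combination -e - conj l' * g0)
  refine ⟨k1.2.1, k1.2.2.1, by linear_combination k1.1 - k1.2.2.2, ?_, ?_, ?_⟩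
  · simpa using k2.2.2.1
  · simpa using k2.2.1
  · have e1 := k2.1
    have e2 := k2.2.2.2
    rw [map_eq_zero] at e1 e2
    linear_combination e1 - e2

theorem rad {A : Fin 4 → Fin 4 → ℂ} (hA : ∀ c d, ∑ i, ∑ j, A i j * P i j c d = 0) :
    A 0 1 = A 1 0 ∧ A 2 3 = A 3 2 ∧ ∀ c d,
      (A 0 2 - A 2 0) * P 0 2 c d + (A 0 3 - A 3 0) * P 0 3 c d
      + (A 1 2 - A 2 1) * P 1 2 c d + (A 1 3 - A 3 1) * P 1 3 c d = 0 := by
  obtain ⟨n1, n2, n3, n4, n5, n6, n7, n8, n9, n10, n11, n12⟩ := blk_norm hP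
  obtain ⟨z1, z2, z3, z4, z5, z6, z7, z8, z9, z10, z11, z12, z13, z14, z15, z16, z17, z18⟩ := blk_zero hP h02
  have d1 := blk_d1 hP
  have p01 : P 0 1 0 1 ≠ 0 := by
    intro h0
    have hi : LinearIndependent ℂ ![(![1, 0, 0, 0] : Fin 4 → ℂ), ![0, 1, 0, 0]] := by
      rw [LinearIndependent.pair_iff]
      intro x y h
      have e0 := congrFun h 0
      have e1 := congrFun h 1
      simp at e0 e1
      exact ⟨e0, e1⟩
    have hpos := hP.pos _ _ hi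
    simp [F, Fin.sum_univ_four, h0] at hpos
  have p23 : P 2 3 2 3 ≠ 0 := by
    intro h0
    have hi : LinearIndependent ℂ ![(![0, 0, 1, 0] : Fin 4 → ℂ), ![0, 0, 0, 1]] := by
      rw [LinearIndependent.pair_iff]
      intro x y h
      have e0 := congrFun h 2
      have e1 := congrFun h 3
      simp at e0 e1
      exact ⟨e0, e1⟩
    have hpos := hP.pos _ _ hi
    simp [F, Fin.sum_univ_four, h0] at hpos
  have q1 : A 0 1 = A 1 0 := by
    have e := hA 0 1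
    simp only [Fin.sum_univ_four, d1, n1, n2, n3, n4, n5, n6, z6, z7, z8, z9, z10, neg_zero, mul_zero, add_zero, zero_add] at e
    have e' : (A 0 1 - A 1 0) * P 0 1 0 1 = 0 := by linear_combination e
    exact sub_eq_zero.1 ((mul_eq_zero.1 e').resolve_right p01)
  have q2 : A 2 3 = A 3 2 := by
    have e := hA 2 3
    simp only [Fin.sum_univ_four, d1, n1, n2, n3, n4, n5, n6, z5, z11, z12, z13, z14, neg_zero, mul_zero, add_zero, zero_add] at e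
    have e' : (A 2 3 - A 3 2) * P 2 3 2 3 = 0 := by linear_combination e
    exact sub_eq_zero.1 ((mul_eq_zero.1 e').resolve_right p23)
  refine ⟨q1, q2, ?_⟩
  intro c d
  have e := hA c d
  simp only [Fin.sum_univ_four, d1, n1, n2, n3, n4, n5, n6, mul_zero, add_zero, zero_add] at e
  linear_combination e - (q1) * P 0 1 c d - (q2) * P 2 3 c d

omit h02 in
theorem ns {k02 k03 k12 k13 : ℂ} (hk : ∀ c d, k02 * P 0 2 c d + k03 * P 0 3 c d
      + k12 * P 1 2 c d + k13 * P 1 3 c d = 0) (hdet : k02 * k13 - k03 * k12 = 0) :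
    k02 = 0 ∧ k03 = 0 ∧ k12 = 0 ∧ k13 = 0 := by
  obtain ⟨s0, s1, t2, t3, rfl, rfl, rfl, rfl⟩ := blk_rank hdet
  by_cases hs : s0 = 0 ∧ s1 = 0
  · rw [hs.1, hs.2]; simp
  by_cases ht : t2 = 0 ∧ t3 = 0
  · rw [ht.1, ht.2]; simp
  exfalso
  have hpos := hP.pos ![s0, s1, 0, 0] ![0, 0, t2, t3] (blk_indep hs ht)
  have hF : F P ![s0, s1, 0, 0] ![0, 0, t2, t3] (star ![s0, s1, 0, 0]) (star ![0, 0, t2, t3]) = 0 := by
    simp [F, Fin.sum_univ_four]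
    linear_combination conj s0 * conj t2 * hk 0 2 + conj s0 * conj t3 * hk 0 3 + conj s1 * conj t2 * hk 1 2 + conj s1 * conj t3 * hk 1 3
  rw [hF] at hpos
  simp at hpos

end

end Pool.Agent.MP_9c903d
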