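import Pool.Agent.Lib.MP_9c903d_ag.NK.Defs

/-!
# Part Coord: coordinates of trilinear functions
-/

namespace Pool.Agent.MP_9c903d

open scoped ComplexConjugate commutatorElement

/-- one variable -/
theorem coeff_zero {G : Type*} [Group G] {I : Type*} [Fintype I]
    (ε : Module.Basis I ℂ (H1 G)) (c : I → ℂ) (h : ∀ g : G, ∑ i, c i * ε i (.ofMul g) = 0) :
    c = 0 := by
  have h0 : ∑ i, c i • ε i = 0 := by
    refine AddMonoidHom.ext fun x => ?_
    have := h x.toMul
    rw [AddMonoidHom.finsetSum_apply]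
    simpa using this
  funext i
  exact Fintype.linearIndependent_iff.1 ε.linearIndependent c h0 i

/-- an additive function is a combination of the basis -/
private theorem Coord_repr {G : Type*} [Group G] {I : Type*} [Fintype I]
    (ε : Module.Basis I ℂ (H1 G)) (f : H1 G) (g : G) :
    f (.ofMul g) = ∑ i, ε.repr f i * ε i (.ofMul g) := by
  conv_lhs => rw [← ε.sum_repr f]
  rw [AddMonoidHom.finsetSum_apply]
  rfl

/-- uniqueness of the coefficients -/
private theorem Coord_zero {G : Type*} [Group G] {I : Type*} [Fintype I]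
    (ε : Module.Basis I ℂ (H1 G)) (d : I → I → I → ℂ)
    (h : ∀ g h l : G, ∑ i, ∑ j, ∑ k, d i j k * ε i (.ofMul g) * ε j (.ofMul h) *
      ε k (.ofMul l) = 0) (i j k : I) : d i j k = 0 := by
  have h1 : ∀ h' l : G, ∀ i, ∑ j, ∑ k, d i j k * ε j (.ofMul h') * ε k (.ofMul l) = 0 := by
    intro h' l i
    refine congrFun (coeff_zero ε (fun i => ∑ j, ∑ k, d i j k * ε j (.ofMul h') *
      ε k (.ofMul l)) fun g => ?_) i
    rw [← h g h' l]
    refine Finset.sum_congr rfl fun i _ => ?_
    rw [Finset.sum_mul]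
    refine Finset.sum_congr rfl fun j _ => ?_
    rw [Finset.sum_mul]
    exact Finset.sum_congr rfl fun k _ => by ring
  have h2 : ∀ l : G, ∀ i j, ∑ k, d i j k * ε k (.ofMul l) = 0 := by
    intro l i j
    refine congrFun (coeff_zero ε (fun j => ∑ k, d i j k * ε k (.ofMul l)) fun g => ?_) j
    rw [← h1 g l i]
    refine Finset.sum_congr rfl fun j _ => ?_
    rw [Finset.sum_mul]
    exact Finset.sum_congr rfl fun k _ => by ring
  exact congrFun (coeff_zero ε (fun k => d i j k) fun g => h2 g i j) k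

theorem trilinear_coord {G : Type*} [Group G] {I : Type*} [Fintype I]
    (ε : Module.Basis I ℂ (H1 G)) (t : G → G → G → ℂ)
    (h1 : ∀ g g' h l, t (g * g') h l = t g h l + t g' h l)
    (h2 : ∀ g h h' l, t g (h * h') l = t g h l + t g h' l)
    (h3 : ∀ g h l, t g h l = - t g l h)
    (h4 : ∀ g h l, t g h l + t h l g + t l g h = 0) :
    ∃ c : I → I → I → ℂ,
      (∀ g h l, t g h l = ∑ i, ∑ j, ∑ k, c i j k * ε i (.ofMul g) * ε j (.ofMul h) *
        ε k (.ofMul l)) ∧
      (∀ i j k, c i j k = - c i k j) ∧ (∀ i j k, c i j k + c j k i + c k i j = 0) := by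
  have h2' : ∀ g h l l', t g h (l * l') = t g h l + t g h l' := by
    intro g h l l'
    rw [h3 g h (l * l'), h2, h3 g h l, h3 g h l']
    ring
  let T1 : G → G → H1 G := fun h l => AddMonoidHom.mk' (fun x : Additive G => t x.toMul h l)
    (fun x y => h1 _ _ _ _)
  have T1h : ∀ h h' l, T1 (h * h') l = T1 h l + T1 h' l := by
    intro h h' l
    exact AddMonoidHom.ext fun x => h2 _ _ _ _
  have T1l : ∀ h l l', T1 h (l * l') = T1 h l + T1 h l' := by
    intro h l l'
    exact AddMonoidHom.ext fun x => h2' _ _ _ _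
  let T2 : I → G → H1 G := fun i l => AddMonoidHom.mk'
    (fun x : Additive G => ε.repr (T1 x.toMul l) i) (fun x y => by
      show ε.repr (T1 (x.toMul * y.toMul) l) i = _
      rw [T1h, map_add, Finsupp.add_apply])
  have T2l : ∀ i l l', T2 i (l * l') = T2 i l + T2 i l' := by
    intro i l l'
    refine AddMonoidHom.ext fun x => ?_
    show ε.repr (T1 x.toMul (l * l')) i = ε.repr (T1 x.toMul l) i + ε.repr (T1 x.toMul l') i
    rw [T1l, map_add, Finsupp.add_apply]
  let T3 : I → I → H1 G := fun i j => AddMonoidHom.mk'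
    (fun x : Additive G => ε.repr (T2 i x.toMul) j) (fun x y => by
      show ε.repr (T2 i (x.toMul * y.toMul)) j = _
      rw [T2l, map_add, Finsupp.add_apply])
  have key : ∀ g h l, t g h l = ∑ i, ∑ j, ∑ k, ε.repr (T3 i j) k * ε i (.ofMul g) *
      ε j (.ofMul h) * ε k (.ofMul l) := by
    intro g h l
    have e1 : t g h l = ∑ i, ε.repr (T1 h l) i * ε i (.ofMul g) := Coord_repr ε (T1 h l) g
    have e2 : ∀ i, ε.repr (T1 h l) i = ∑ j, ε.repr (T2 i l) j * ε j (.ofMul h) := fun i =>
      Coord_repr ε (T2 i l) h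
    have e3 : ∀ i j, ε.repr (T2 i l) j = ∑ k, ε.repr (T3 i j) k * ε k (.ofMul l) := fun i j =>
      Coord_repr ε (T3 i j) l
    rw [e1]
    refine Finset.sum_congr rfl fun i _ => ?_
    rw [e2 i, Finset.sum_mul]
    refine Finset.sum_congr rfl fun j _ => ?_
    rw [e3 i j, Finset.sum_mul, Finset.sum_mul]
    exact Finset.sum_congr rfl fun k _ => by ring
  refine ⟨fun i j k => ε.repr (T3 i j) k, key, fun i j k => ?_, fun i j k => ?_⟩
  · have := Coord_zero ε (fun i j k => ε.repr (T3 i j) k + ε.repr (T3 i k) j) (by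
      intro g h l
      have e1 := key g h l
      have e2 : t g l h = ∑ i, ∑ j, ∑ k, ε.repr (T3 i k) j * ε i (.ofMul g) *
          ε j (.ofMul h) * ε k (.ofMul l) := by
        rw [key g l h]
        refine Finset.sum_congr rfl fun i _ => ?_
        rw [Finset.sum_comm]
        exact Finset.sum_congr rfl fun j _ => Finset.sum_congr rfl fun k _ => by ring
      simp only [add_mul, Finset.sum_add_distrib]
      rw [← e1, ← e2, h3 g h l]
      ring) i j k
    exact eq_neg_of_add_eq_zero_left this
  · exact Coord_zero ε (fun i j k => ε.repr (T3 i j) k + ε.repr (T3 j k) i + ε.repr (T3 k i) j) (by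
      intro g h l
      have e1 := key g h l
      have e2 : t h l g = ∑ i, ∑ j, ∑ k, ε.repr (T3 j k) i * ε i (.ofMul g) *
          ε j (.ofMul h) * ε k (.ofMul l) := by
        rw [key h l g]
        have : ∀ (F : I → I → I → ℂ), ∑ x, ∑ y, ∑ z, F x y z = ∑ i, ∑ j, ∑ k, F j k i := by
          intro F
          calc ∑ x, ∑ y, ∑ z, F x y z = ∑ x, ∑ z, ∑ y, F x y z :=
                Finset.sum_congr rfl fun x _ => Finset.sum_comm
            _ = ∑ z, ∑ x, ∑ y, F x y z := Finset.sum_comm
        rw [this]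
        exact Finset.sum_congr rfl fun i _ => Finset.sum_congr rfl fun j _ =>
          Finset.sum_congr rfl fun k _ => by ring
      have e3 : t l g h = ∑ i, ∑ j, ∑ k, ε.repr (T3 k i) j * ε i (.ofMul g) *
          ε j (.ofMul h) * ε k (.ofMul l) := by
        rw [key l g h]
        have : ∀ (F : I → I → I → ℂ), ∑ x, ∑ y, ∑ z, F x y z = ∑ i, ∑ j, ∑ k, F k i j := by
          intro F
          calc ∑ x, ∑ y, ∑ z, F x y z = ∑ y, ∑ x, ∑ z, F x y z := Finset.sum_comm
            _ = ∑ y, ∑ z, ∑ x, F x y z := Finset.sum_congr rfl fun y _ => Finset.sum_comm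
        rw [this]
        exact Finset.sum_congr rfl fun i _ => Finset.sum_congr rfl fun j _ =>
          Finset.sum_congr rfl fun k _ => by ring
      simp only [add_mul, Finset.sum_add_distrib]
      rw [← e1, ← e2, ← e3]
      exact h4 g h l) i j k

end Pool.Agent.MP_9c903d
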