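import Pool.Agent.Lib.MP_9c903d_ag.NK.Blk

/-!
# In an adapted basis of `ℂ^4` there is no nonzero syzygy of type (2,1)
-/

namespace Pool.Agent.MP_9c903d

open scoped ComplexConjugate commutatorElement

section
variable {P : Fin 4 → Fin 4 → Fin 4 → Fin 4 → ℂ}

theorem InR.star' (hP : IsForm P) {h : Fin 4 → Fin 4 → ℂ} (hR : InR P h) :
    InR P (fun j k => conj (h k j)) := by
  intro b c
  have h1 := congrArg conj (hR c b)
  simp only [map_sum, map_mul, map_zero] at h1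
  rw [Finset.sum_comm] at h1
  rw [← h1]
  refine Finset.sum_congr rfl fun j _ => Finset.sum_congr rfl fun k _ => ?_
  rw [hP.herm k c j b]

theorem InR.lin {h g : Fin 4 → Fin 4 → ℂ} (hR : InR P h) (hS : InR P g) (s t : ℂ) :
    InR P (fun j k => s * h j k + t * g j k) := by
  intro b c
  have h1 := hR b c
  have h2 := hS b c
  have : ∑ j, ∑ k, (s * h j k + t * g j k) * P j b k c
      = s * (∑ j, ∑ k, h j k * P j b k c) + t * (∑ j, ∑ k, g j k * P j b k c) := by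
    simp only [Finset.mul_sum, ← Finset.sum_add_distrib]
    refine Finset.sum_congr rfl fun j _ => Finset.sum_congr rfl fun k _ => ?_
    ring
  rw [this, h1, h2]; ring

/-- the value of the form on a `W`-vector and an `X`-vector -/
theorem F_WX (s0 s1 t2 t3 r0 r1 u2 u3 : ℂ) :
    F P ![s0, s1, 0, 0] ![0, 0, t2, t3] ![r0, r1, 0, 0] ![0, 0, u2, u3] =
      s0 * t2 * r0 * u2 * P 0 2 0 2 + s0 * t2 * r0 * u3 * P 0 2 0 3
      + s0 * t2 * r1 * u2 * P 0 2 1 2 + s0 * t2 * r1 * u3 * P 0 2 1 3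
      + s0 * t3 * r0 * u2 * P 0 3 0 2 + s0 * t3 * r0 * u3 * P 0 3 0 3
      + s0 * t3 * r1 * u2 * P 0 3 1 2 + s0 * t3 * r1 * u3 * P 0 3 1 3
      + s1 * t2 * r0 * u2 * P 1 2 0 2 + s1 * t2 * r0 * u3 * P 1 2 0 3
      + s1 * t2 * r1 * u2 * P 1 2 1 2 + s1 * t2 * r1 * u3 * P 1 2 1 3
      + s1 * t3 * r0 * u2 * P 1 3 0 2 + s1 * t3 * r0 * u3 * P 1 3 0 3
      + s1 * t3 * r1 * u2 * P 1 3 1 2 + s1 * t3 * r1 * u3 * P 1 3 1 3 := by
  have v : ∀ a b c d : ℂ, (![a, b, c, d] : Fin 4 → ℂ) 0 = a ∧ (![a, b, c, d] : Fin 4 → ℂ) 1 = b ∧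
      (![a, b, c, d] : Fin 4 → ℂ) 2 = c ∧ (![a, b, c, d] : Fin 4 → ℂ) 3 = d :=
    fun a b c d => ⟨rfl, rfl, rfl, rfl⟩
  simp only [F, Fin.sum_univ_four, (v _ _ _ _).1, (v _ _ _ _).2.1, (v _ _ _ _).2.2.1,
    (v _ _ _ _).2.2.2, zero_mul, mul_zero, zero_add, add_zero]
  ring

theorem star_W (s0 s1 : ℂ) : star (![s0, s1, 0, 0] : Fin 4 → ℂ) = ![conj s0, conj s1, 0, 0] := by
  ext i; fin_cases i <;> simp

theorem star_X (s0 s1 : ℂ) : star (![0, 0, s0, s1] : Fin 4 → ℂ) = ![0, 0, conj s0, conj s1] := by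
  ext i; fin_cases i <;> simp

theorem li_WX (s0 s1 t2 t3 : ℂ) (hs : ¬ (s0 = 0 ∧ s1 = 0)) (ht : ¬ (t2 = 0 ∧ t3 = 0)) :
    LinearIndependent ℂ ![(![s0, s1, 0, 0] : Fin 4 → ℂ), ![0, 0, t2, t3]] := by
  rw [LinearIndependent.pair_iff]
  intro a b h
  have e0 := congrFun h 0
  have e1 := congrFun h 1
  have e2 := congrFun h 2
  have e3 := congrFun h 3
  simp at e0 e1 e2 e3
  refine ⟨?_, ?_⟩
  · by_contra ha
    apply hs
    exact ⟨by tauto, by tauto⟩
  · by_contra hb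
    apply ht
    exact ⟨by tauto, by tauto⟩

theorem pos_WX (hP : IsForm P) (s0 s1 t2 t3 : ℂ) (hs : ¬ (s0 = 0 ∧ s1 = 0))
    (ht : ¬ (t2 = 0 ∧ t3 = 0)) :
    0 < (F P ![s0, s1, 0, 0] ![0, 0, t2, t3] ![conj s0, conj s1, 0, 0]
      ![0, 0, conj t2, conj t3]).re := by
  have := hP.pos _ _ (li_WX s0 s1 t2 t3 hs ht)
  rwa [star_W, star_X] at this

theorem F_im (hP : IsForm P) (a b : Fin 4 → ℂ) : (F P a b (star a) (star b)).im = 0 := by
  have h : conj (F P a b (star a) (star b)) = F P a b (star a) (star b) := by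
    have h1 : conj (F P a b (star a) (star b))
        = ∑ i, ∑ j, ∑ k, ∑ l, a k * b l * star a i * star b j * P k l i j := by
      simp only [F, map_sum, map_mul]
      refine Finset.sum_congr rfl fun i _ => Finset.sum_congr rfl fun j _ =>
        Finset.sum_congr rfl fun k _ => Finset.sum_congr rfl fun l _ => ?_
      rw [hP.herm i j k l]
      simp only [Pi.star_apply, RCLike.star_def, Complex.conj_conj]
      ring
    rw [h1]
    simp only [F]
    rw [show (∑ i, ∑ j, ∑ k, ∑ l, a i * b j * star a k * star b l * P i j k l)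
      = ∑ k, ∑ l, ∑ i, ∑ j, a i * b j * star a k * star b l * P i j k l from ?_]
    calc _ = ∑ i, ∑ j, ∑ l, ∑ k, a i * b j * star a k * star b l * P i j k l :=
          Finset.sum_congr rfl fun i _ => Finset.sum_congr rfl fun j _ => Finset.sum_comm
      _ = ∑ i, ∑ l, ∑ j, ∑ k, a i * b j * star a k * star b l * P i j k l :=
          Finset.sum_congr rfl fun i _ => Finset.sum_comm
      _ = ∑ l, ∑ i, ∑ j, ∑ k, a i * b j * star a k * star b l * P i j k l := Finset.sum_comm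
      _ = ∑ l, ∑ i, ∑ k, ∑ j, a i * b j * star a k * star b l * P i j k l :=
          Finset.sum_congr rfl fun l _ => Finset.sum_congr rfl fun i _ => Finset.sum_comm
      _ = ∑ l, ∑ k, ∑ i, ∑ j, a i * b j * star a k * star b l * P i j k l :=
          Finset.sum_congr rfl fun l _ => Finset.sum_comm
      _ = _ := Finset.sum_comm
  exact Complex.conj_eq_iff_im.mp h

theorem p_ne (hP : IsForm P) : P 0 1 0 1 ≠ 0 ∧ P 2 3 2 3 ≠ 0 := by
  constructor
  · intro h
    have := hP.pos ![1, 0, 0, 0] ![0, 1, 0, 0] (by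
      rw [LinearIndependent.pair_iff]
      intro a b h
      have e0 := congrFun h 0
      have e1 := congrFun h 1
      simp at e0 e1
      exact ⟨e0, e1⟩)
    rw [show (star ![1, 0, 0, 0] : Fin 4 → ℂ) = ![1, 0, 0, 0] by ext i; fin_cases i <;> simp,
      show (star ![0, 1, 0, 0] : Fin 4 → ℂ) = ![0, 1, 0, 0] by ext i; fin_cases i <;> simp] at this
    simp [F, Fin.sum_univ_four, h] at this
  · intro h
    have := hP.pos ![0, 0, 1, 0] ![0, 0, 0, 1] (by
      rw [LinearIndependent.pair_iff]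
      intro a b h
      have e0 := congrFun h 2
      have e1 := congrFun h 3
      simp at e0 e1
      exact ⟨e0, e1⟩)
    rw [show (star ![0, 0, 1, 0] : Fin 4 → ℂ) = ![0, 0, 1, 0] by ext i; fin_cases i <;> simp,
      show (star ![0, 0, 0, 1] : Fin 4 → ℂ) = ![0, 0, 0, 1] by ext i; fin_cases i <;> simp] at this
    simp [F, Fin.sum_univ_four, h] at this

variable (hP : IsForm P) (h02 : ∀ b c, P 0 b 2 c + P 1 b 3 c = 0)
include hP h02

/-- no element of the radical has `X`-block `c x conj x` -/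
theorem core_L1 {h : Fin 4 → Fin 4 → ℂ} (hR : InR P h) (c x2 x3 : ℂ) (hc : c ≠ 0)
    (hx : ¬ (x2 = 0 ∧ x3 = 0)) (e22 : h 2 2 = c * (x2 * conj x2)) (e23 : h 2 3 = c * (x2 * conj x3))
    (e32 : h 3 2 = c * (x3 * conj x2)) (e33 : h 3 3 = c * (x3 * conj x3)) : False := by
  obtain ⟨w00, w11, w01, w10⟩ := rw_eq hP h02 hR
  obtain ⟨x22, x33, x23, x32⟩ := rx_eq hP h02 hR
  have hp := (p_ne hP).1
  set y2 := conj x2 with hy2
  set y3 := conj x3 with hy3
  set M00 := x2 * y2 * P 0 2 0 2 + x2 * y3 * P 0 2 0 3 + x3 * y2 * P 0 3 0 2 + x3 * y3 * P 0 3 0 3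
    with hM00
  set M11 := x2 * y2 * P 1 2 1 2 + x2 * y3 * P 1 2 1 3 + x3 * y2 * P 1 3 1 2 + x3 * y3 * P 1 3 1 3
    with hM11
  set M01 := x2 * y2 * P 0 2 1 2 + x2 * y3 * P 0 2 1 3 + x3 * y2 * P 0 3 1 2 + x3 * y3 * P 0 3 1 3
    with hM01
  set M10 := x2 * y2 * P 1 2 0 2 + x2 * y3 * P 1 2 0 3 + x3 * y2 * P 1 3 0 2 + x3 * y3 * P 1 3 0 3
    with hM10
  have a1 : h 1 1 * P 0 1 0 1 = - c * M00 := by
    rw [hM00]; rw [e22, e23, e32, e33] at w00; linear_combination w00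
  have a0 : h 0 0 * P 0 1 0 1 = - c * M11 := by
    rw [hM11]; rw [e22, e23, e32, e33] at w11; linear_combination w11
  have b0 : h 1 0 * P 0 1 0 1 = c * M01 := by
    rw [hM01]; rw [e22, e23, e32, e33] at w01; linear_combination - w01
  have b1 : h 0 1 * P 0 1 0 1 = c * M10 := by
    rw [hM10]; rw [e22, e23, e32, e33] at w10; linear_combination - w10
  have key : h 0 0 * M00 + h 0 1 * M01 + h 1 0 * M10 + h 1 1 * M11 = 0 := by
    rw [e33] at x22
    rw [e22] at x33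
    rw [e32] at x23
    rw [e23] at x32
    rw [hM00, hM01, hM10, hM11]
    linear_combination x2 * y2 * x22 + x3 * y3 * x33 + x2 * y3 * x23 + x3 * y2 * x32
  have det0 : M00 * M11 - M01 * M10 = 0 := by
    have : c * (M00 * M11 - M01 * M10) = 0 := by
      linear_combination (-(1 : ℂ) / 2) * (P 0 1 0 1 * key - M00 * a0 - M01 * b1 - M10 * b0
        - M11 * a1)
    exact (mul_eq_zero.mp this).resolve_left hc
  have f00 : F P ![1, 0, 0, 0] ![0, 0, x2, x3] ![conj 1, conj 0, 0, 0]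
      ![0, 0, conj x2, conj x3] = M00 := by
    rw [F_WX, hM00]; simp only [map_one, map_zero]; ring
  have hM0 : M00 ≠ 0 := by
    intro h0
    have := pos_WX hP 1 0 x2 x3 (by simp) hx
    rw [f00, h0] at this
    simp at this
  have := pos_WX hP M10 (-M00) x2 x3 (by intro h; exact hM0 (neg_eq_zero.mp h.2)) hx
  rw [F_WX] at this
  have e : M10 * x2 * conj M10 * conj x2 * P 0 2 0 2 + M10 * x2 * conj M10 * conj x3 * P 0 2 0 3
      + M10 * x2 * conj (-M00) * conj x2 * P 0 2 1 2 + M10 * x2 * conj (-M00) * conj x3 * P 0 2 1 3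
      + M10 * x3 * conj M10 * conj x2 * P 0 3 0 2 + M10 * x3 * conj M10 * conj x3 * P 0 3 0 3
      + M10 * x3 * conj (-M00) * conj x2 * P 0 3 1 2 + M10 * x3 * conj (-M00) * conj x3 * P 0 3 1 3
      + -M00 * x2 * conj M10 * conj x2 * P 1 2 0 2 + -M00 * x2 * conj M10 * conj x3 * P 1 2 0 3
      + -M00 * x2 * conj (-M00) * conj x2 * P 1 2 1 2
      + -M00 * x2 * conj (-M00) * conj x3 * P 1 2 1 3
      + -M00 * x3 * conj M10 * conj x2 * P 1 3 0 2 + -M00 * x3 * conj M10 * conj x3 * P 1 3 0 3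
      + -M00 * x3 * conj (-M00) * conj x2 * P 1 3 1 2
      + -M00 * x3 * conj (-M00) * conj x3 * P 1 3 1 3
      = conj M10 * (M10 * M00 - M00 * M10) + conj (-M00) * (M10 * M01 - M00 * M11) := by
    rw [← hy2, ← hy3]
    have q1 : M10 * M00 - M00 * M10 = M10 * (x2 * y2 * P 0 2 0 2 + x2 * y3 * P 0 2 0 3
      + x3 * y2 * P 0 3 0 2 + x3 * y3 * P 0 3 0 3) - M00 * (x2 * y2 * P 1 2 0 2
      + x2 * y3 * P 1 2 0 3 + x3 * y2 * P 1 3 0 2 + x3 * y3 * P 1 3 0 3) := by
      rw [← hM00, ← hM10]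
    have q2 : M10 * M01 - M00 * M11 = M10 * (x2 * y2 * P 0 2 1 2 + x2 * y3 * P 0 2 1 3
      + x3 * y2 * P 0 3 1 2 + x3 * y3 * P 0 3 1 3) - M00 * (x2 * y2 * P 1 2 1 2
      + x2 * y3 * P 1 2 1 3 + x3 * y2 * P 1 3 1 2 + x3 * y3 * P 1 3 1 3) := by
      rw [← hM01, ← hM11]
    rw [q1, q2]
    generalize conj M10 = z1
    generalize conj (-M00) = z2
    generalize M10 = z3
    generalize M00 = z4
    ring
  rw [e] at this
  have e2 : conj M10 * (M10 * M00 - M00 * M10) + conj (-M00) * (M10 * M01 - M00 * M11) = 0 := by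
    linear_combination (- conj (-M00)) * det0
  rw [e2] at this
  simp at this

/-- elements of the radical and of `rad P` -/
theorem D1 {h : Fin 4 → Fin 4 → ℂ} (hR : InR P h) {k02 k03 k12 k13 : ℂ}
    (hk : ∀ c d, k02 * P 0 2 c d + k03 * P 0 3 c d + k12 * P 1 2 c d + k13 * P 1 3 c d = 0) :
    h 2 2 * k03 + h 2 3 * k13 - h 3 2 * k02 - h 3 3 * k12 = 0 := by
  obtain ⟨x22, x33, x23, x32⟩ := rx_eq hP h02 hR
  have hp := (p_ne hP).2
  have g20 := g1 hP h02 2 0
  have g21 := g1 hP h02 2 1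
  have g30 := g1 hP h02 3 0
  have g31 := g1 hP h02 3 1
  have : P 2 3 2 3 * (h 2 2 * k03 + h 2 3 * k13 - h 3 2 * k02 - h 3 3 * k12) = 0 := by
    linear_combination (-k12) * x22 + k02 * x23 - k13 * x32 + k03 * x33
      - h 0 0 * (hk 0 3 - k12 * g20 - k13 * g30) - h 0 1 * (hk 1 3 - k12 * g21 - k13 * g31)
      + h 1 0 * (hk 0 2 - k02 * g20 - k03 * g30) + h 1 1 * (hk 1 2 - k02 * g21 - k03 * g31)
  exact (mul_eq_zero.mp this).resolve_left hp

/-- the case where the antisymmetric part does not vanish is impossible -/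
theorem core_key {A B : Fin 4 → Fin 4 → ℂ} (hA : InR P A) (hB : InR P B)
    {k02 k03 k12 k13 a2 a3 v2 v3 : ℂ}
    (hk : ∀ c d, k02 * P 0 2 c d + k03 * P 0 3 c d + k12 * P 1 2 c d + k13 * P 1 3 c d = 0)
    (hD : k02 * k13 - k03 * k12 ≠ 0) (hv : ¬ (v2 = 0 ∧ v3 = 0))
    (A22 : A 2 2 = v2 * k02 + a2) (A32 : A 3 2 = v2 * k03 + a3)
    (A23 : A 2 3 = v3 * k02) (A33 : A 3 3 = v3 * k03)
    (B22 : B 2 2 = v2 * k12) (B32 : B 3 2 = v2 * k13)
    (B23 : B 2 3 = v3 * k12 + a2) (B33 : B 3 3 = v3 * k13 + a3) : False := by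
  set D := k02 * k13 - k03 * k12 with hDdef
  have dA := D1 hP h02 hA hk
  have dB := D1 hP h02 hB hk
  rw [A22, A23, A32, A33] at dA
  rw [B22, B23, B32, B33] at dB
  have ea2 : a2 = v2 * k02 + v3 * k12 := by
    apply mul_left_cancel₀ hD
    rw [hDdef]
    linear_combination (-k12) * dA + k02 * dB
  have ea3 : a3 = v2 * k03 + v3 * k13 := by
    apply mul_left_cancel₀ hD
    rw [hDdef]
    linear_combination (-k13) * dA + k03 * dB
  have ha : ¬ (a2 = 0 ∧ a3 = 0) := by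
    rintro ⟨h1, h2⟩
    apply hv
    constructor
    · apply (mul_eq_zero.mp (?_ : D * v2 = 0)).resolve_left hD
      rw [hDdef]
      linear_combination (-k13) * ea2 + k12 * ea3 + k13 * h1 - k12 * h2
    · apply (mul_eq_zero.mp (?_ : D * v3 = 0)).resolve_left hD
      rw [hDdef]
      linear_combination k03 * ea2 - k02 * ea3 - k03 * h1 + k02 * h2
  -- the element with `X`-block `a conj w`
  have hN : InR P (fun j k => (v2 / 2) * A j k + (v3 / 2) * B j k) := InR.lin hA hB _ _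
  set N : Fin 4 → Fin 4 → ℂ := fun j k => (v2 / 2) * A j k + (v3 / 2) * B j k with hNdef
  have N22 : N 2 2 = a2 * v2 := by
    show (v2 / 2) * A 2 2 + (v3 / 2) * B 2 2 = _
    rw [A22, B22]; linear_combination (-(v2 / 2)) * ea2
  have N32 : N 3 2 = a3 * v2 := by
    show (v2 / 2) * A 3 2 + (v3 / 2) * B 3 2 = _
    rw [A32, B32]; linear_combination (-(v2 / 2)) * ea3
  have N23 : N 2 3 = a2 * v3 := by
    show (v2 / 2) * A 2 3 + (v3 / 2) * B 2 3 = _
    rw [A23, B23]; linear_combination (-(v3 / 2)) * ea2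
  have N33 : N 3 3 = a3 * v3 := by
    show (v2 / 2) * A 3 3 + (v3 / 2) * B 3 3 = _
    rw [A33, B33]; linear_combination (-(v3 / 2)) * ea3
  obtain ⟨w2, hw2⟩ : ∃ w2, w2 = conj v2 := ⟨_, rfl⟩
  obtain ⟨w3, hw3⟩ : ∃ w3, w3 = conj v3 := ⟨_, rfl⟩
  have cw2 : conj w2 = v2 := by rw [hw2, Complex.conj_conj]
  have cw3 : conj w3 = v3 := by rw [hw3, Complex.conj_conj]
  have hw : ¬ (w2 = 0 ∧ w3 = 0) := by
    rintro ⟨h1, h2⟩
    apply hv
    rw [← cw2, ← cw3, h1, h2]
    simp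
  by_cases hE : a2 * w3 - a3 * w2 = 0
  · -- `w` is a multiple of `a`
    obtain ⟨c, hc2, hc3⟩ : ∃ c, w2 = c * a2 ∧ w3 = c * a3 := by
      by_cases h2 : a2 = 0
      · have h3 : a3 ≠ 0 := fun h => ha ⟨h2, h⟩
        refine ⟨w3 / a3, ?_, ?_⟩
        · have : a3 * w2 = 0 := by linear_combination (-1 : ℂ) * hE + w3 * h2
          rw [h2, (mul_eq_zero.mp this).resolve_left h3]; simp
        · field_simp
      · refine ⟨w2 / a2, ?_, ?_⟩
        · field_simp
        · field_simp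
          linear_combination hE
    have hc : conj c ≠ 0 := by
      intro h
      have : c = 0 := by simpa using h
      apply hw; rw [hc2, hc3, this]; simp
    have ev2 : v2 = conj c * conj a2 := by rw [← cw2, hc2, map_mul]
    have ev3 : v3 = conj c * conj a3 := by rw [← cw3, hc3, map_mul]
    exact core_L1 hP h02 hN (conj c) a2 a3 hc ha
      (by rw [N22, ev2]; ring) (by rw [N23, ev3]; ring)
      (by rw [N32, ev2]; ring) (by rw [N33, ev3]; ring)
  · -- `a`, `w` independent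
    set E := a2 * w3 - a3 * w2 with hEdef
    obtain ⟨s1, hs1⟩ : ∃ s1, s1 = (w2 * k13 - w3 * k12) / D := ⟨_, rfl⟩
    obtain ⟨s2, hs2⟩ : ∃ s2, s2 = (w3 * k02 - w2 * k03) / D := ⟨_, rfl⟩
    have s1D : s1 * D = w2 * k13 - w3 * k12 := by rw [hs1]; field_simp
    have s2D : s2 * D = w3 * k02 - w2 * k03 := by rw [hs2]; field_simp
    have ew2 : w2 = s1 * k02 + s2 * k12 := by
      apply mul_left_cancel₀ hD
      linear_combination (-k02) * s1D - k12 * s2D + w2 * hDdef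
    have ew3 : w3 = s1 * k03 + s2 * k13 := by
      apply mul_left_cancel₀ hD
      linear_combination (-k03) * s1D - k13 * s2D + w3 * hDdef
    have dN := D1 hP h02 (InR.star' hP hN) hk
    simp only [N22, N23, N32, N33, map_mul, ← hw2, ← hw3] at dN
    -- `conj a3 * s1 = conj a2 * s2`
    have es : conj a3 * s1 = conj a2 * s2 := by
      apply mul_left_cancel₀ hD
      linear_combination dN + conj a3 * s1D - conj a2 * s2D
    obtain ⟨m, hm1, hm2⟩ : ∃ m, s1 = m * conj a2 ∧ s2 = m * conj a3 := by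
      by_cases h2 : conj a2 = 0
      · have h3 : conj a3 ≠ 0 := by
          intro h; apply ha; constructor
          · simpa using h2
          · simpa using h
        refine ⟨s2 / conj a3, ?_, ?_⟩
        · have : conj a3 * s1 = 0 := by rw [es, h2]; ring
          rw [h2, (mul_eq_zero.mp this).resolve_left h3]; simp
        · field_simp
      · refine ⟨s1 / conj a2, ?_, ?_⟩
        · field_simp
        · field_simp
          linear_combination - es
    -- decomposition of kappa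
    obtain ⟨p0, hp0⟩ : ∃ p0, p0 = (k02 * w3 - k03 * w2) / E := ⟨_, rfl⟩
    obtain ⟨p1, hp1⟩ : ∃ p1, p1 = (k12 * w3 - k13 * w2) / E := ⟨_, rfl⟩
    obtain ⟨r0, hr0⟩ : ∃ r0, r0 = (a2 * k03 - a3 * k02) / E := ⟨_, rfl⟩
    obtain ⟨r1, hr1⟩ : ∃ r1, r1 = (a2 * k13 - a3 * k12) / E := ⟨_, rfl⟩
    have p0E : p0 * E = k02 * w3 - k03 * w2 := by rw [hp0]; field_simp
    have p1E : p1 * E = k12 * w3 - k13 * w2 := by rw [hp1]; field_simp
    have r0E : r0 * E = a2 * k03 - a3 * k02 := by rw [hr0]; field_simp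
    have r1E : r1 * E = a2 * k13 - a3 * k12 := by rw [hr1]; field_simp
    have f02 : k02 = p0 * a2 + r0 * w2 := by
      apply mul_left_cancel₀ hE
      linear_combination (-a2) * p0E - w2 * r0E + k02 * hEdef
    have f03 : k03 = p0 * a3 + r0 * w3 := by
      apply mul_left_cancel₀ hE
      linear_combination (-a3) * p0E - w3 * r0E + k03 * hEdef
    have f12 : k12 = p1 * a2 + r1 * w2 := by
      apply mul_left_cancel₀ hE
      linear_combination (-a2) * p1E - w2 * r1E + k12 * hEdef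
    have f13 : k13 = p1 * a3 + r1 * w3 := by
      apply mul_left_cancel₀ hE
      linear_combination (-a3) * p1E - w3 * r1E + k13 * hEdef
    -- `h_0 = p conj w + m r conj a`
    have q02 : (p0 * v2 + r0 * s1 - 1) * k02 + (p0 * v3 + r0 * s2) * k12 = 0 := by
      linear_combination (-p0) * ea2 - r0 * ew2 - f02
    have q03 : (p0 * v2 + r0 * s1 - 1) * k03 + (p0 * v3 + r0 * s2) * k13 = 0 := by
      linear_combination (-p0) * ea3 - r0 * ew3 - f03
    have q12 : (p1 * v2 + r1 * s1) * k02 + (p1 * v3 + r1 * s2 - 1) * k12 = 0 := by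
      linear_combination (-p1) * ea2 - r1 * ew2 - f12
    have q13 : (p1 * v2 + r1 * s1) * k03 + (p1 * v3 + r1 * s2 - 1) * k13 = 0 := by
      linear_combination (-p1) * ea3 - r1 * ew3 - f13
    have g02 : p0 * v2 + r0 * s1 = 1 := by
      have : D * (p0 * v2 + r0 * s1 - 1) = 0 := by
        rw [hDdef]; linear_combination k13 * q02 - k12 * q03
      linear_combination (mul_eq_zero.mp this).resolve_left hD
    have g03 : p0 * v3 + r0 * s2 = 0 := by
      have : D * (p0 * v3 + r0 * s2) = 0 := by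
        rw [hDdef]; linear_combination k02 * q03 - k03 * q02
      exact (mul_eq_zero.mp this).resolve_left hD
    have g12 : p1 * v2 + r1 * s1 = 0 := by
      have : D * (p1 * v2 + r1 * s1) = 0 := by
        rw [hDdef]; linear_combination k13 * q12 - k12 * q13
      exact (mul_eq_zero.mp this).resolve_left hD
    have g13 : p1 * v3 + r1 * s2 = 1 := by
      have : D * (p1 * v3 + r1 * s2 - 1) = 0 := by
        rw [hDdef]; linear_combination k02 * q13 - k03 * q12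
      linear_combination (mul_eq_zero.mp this).resolve_left hD
    have hr : ¬ (r0 = 0 ∧ r1 = 0) := by
      rintro ⟨h1, h2⟩
      have e1 : p0 * v2 = 1 := by rw [← g02, h1]; ring
      have e2 : p0 * v3 = 0 := by rw [← g03, h1]; ring
      have e3 : p1 * v3 = 1 := by rw [← g13, h2]; ring
      have : p0 ≠ 0 := by intro h; rw [h] at e1; simp at e1
      rw [(mul_eq_zero.mp e2).resolve_left this] at e3
      simp at e3
    have Fa := pos_WX hP r0 r1 a2 a3 hr ha
    have Fw := pos_WX hP r0 r1 w2 w3 hr hw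
    have Fai := F_im hP ![r0, r1, 0, 0] ![0, 0, a2, a3]
    have Fwi := F_im hP ![r0, r1, 0, 0] ![0, 0, w2, w3]
    rw [star_W, star_X] at Fai Fwi
    have gg := g1 hP h02
    have main : m * F P ![r0, r1, 0, 0] ![0, 0, a2, a3] ![conj r0, conj r1, 0, 0]
        ![0, 0, conj a2, conj a3] = F P ![r0, r1, 0, 0] ![0, 0, w2, w3] ![conj r0, conj r1, 0, 0]
        ![0, 0, conj w2, conj w3] := by
      rw [F_WX, F_WX, cw2, cw3]
      have k1 := hk 0 2
      have k2 := hk 0 3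
      have k3 := hk 1 2
      have k4 := hk 1 3
      rw [f02, f03, f12, f13] at k1 k2 k3 k4
      have l1 := gg 2 0
      have l2 := gg 2 1
      have l3 := gg 3 0
      have l4 := gg 3 1
      rw [hm1] at g02 g12
      rw [hm2] at g03 g13
      linear_combination (-(conj r0 * v2)) * k1 - (conj r0 * v3) * k2 - (conj r1 * v2) * k3
        - (conj r1 * v3) * k4 + (a2 * conj r0) * l1 + (a2 * conj r1) * l2 + (a3 * conj r0) * l3
        + (a3 * conj r1) * l4
        + (a2 * conj r0 * P 0 2 0 2 + a2 * conj r1 * P 0 2 1 2 + a3 * conj r0 * P 0 3 0 2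
          + a3 * conj r1 * P 0 3 1 2) * g02
        + (a2 * conj r0 * P 0 2 0 3 + a2 * conj r1 * P 0 2 1 3 + a3 * conj r0 * P 0 3 0 3
          + a3 * conj r1 * P 0 3 1 3) * g03
        + (a2 * conj r0 * P 1 2 0 2 + a2 * conj r1 * P 1 2 1 2 + a3 * conj r0 * P 1 3 0 2
          + a3 * conj r1 * P 1 3 1 2) * g12
        + (a2 * conj r0 * P 1 2 0 3 + a2 * conj r1 * P 1 2 1 3 + a3 * conj r0 * P 1 3 0 3
          + a3 * conj r1 * P 1 3 1 3) * g13
    obtain ⟨x, hx0, hxm⟩ : ∃ x : ℝ, 0 < x ∧ m = (x : ℂ) := by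
      generalize F P ![r0, r1, 0, 0] ![0, 0, a2, a3] ![conj r0, conj r1, 0, 0]
        ![0, 0, conj a2, conj a3] = z at main Fa Fai
      generalize F P ![r0, r1, 0, 0] ![0, 0, w2, w3] ![conj r0, conj r1, 0, 0]
        ![0, 0, conj w2, conj w3] = y at main Fw Fwi
      have hz : z = (z.re : ℂ) := by apply Complex.ext <;> simp [Fai]
      have hy : y = (y.re : ℂ) := by apply Complex.ext <;> simp [Fwi]
      refine ⟨y.re / z.re, by positivity, ?_⟩
      have hz0 : z ≠ 0 := by intro h; rw [h] at Fa; simp at Fa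
      have : m = y / z := by field_simp; exact main
      rw [this, hy, hz]
      push_cast
      simp
    obtain ⟨μ, hμ0, hμ⟩ : ∃ μ : ℝ, 0 < μ ∧ (μ : ℂ) * μ = m := by
      refine ⟨Real.sqrt x, Real.sqrt_pos.mpr hx0, ?_⟩
      rw [hxm, ← Complex.ofReal_mul, Real.mul_self_sqrt hx0.le]
    have h2 : InR P (fun j k => s1 * A j k + s2 * B j k) := InR.lin hA hB _ _
    have hNs := InR.star' hP hN
    have h3 := InR.lin h2 (InR.lin hN hNs μ μ) 1 1
    refine core_L1 hP h02 h3 1 (μ * a2 + w2) (μ * a3 + w3) one_ne_zero ?_ ?_ ?_ ?_ ?_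
    · rintro ⟨h1, h2⟩
      apply hE
      rw [hEdef]
      linear_combination a2 * h2 - a3 * h1
    · simp only [N22, A22, B22, map_mul, map_add, Complex.conj_ofReal, ← hw2, cw2]
      rw [← hμ] at hm1 hm2
      linear_combination a2 * hm1 - v2 * ew2
    · simp only [N23, N32, A23, B23, map_mul, map_add, Complex.conj_ofReal, ← hw2, cw3]
      rw [← hμ] at hm1 hm2
      linear_combination a2 * hm2 - v3 * ew2
    · simp only [N23, N32, A32, B32, map_mul, map_add, Complex.conj_ofReal, ← hw3, cw2]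
      rw [← hμ] at hm1 hm2
      linear_combination a3 * hm1 - v2 * ew3
    · simp only [N33, A33, B33, map_mul, map_add, Complex.conj_ofReal, ← hw3, cw3]
      rw [← hμ] at hm1 hm2
      linear_combination a3 * hm2 - v3 * ew3

/-- half of the entries of a syzygy vanish -/
theorem core_half (τ : Fin 4 → Fin 4 → Fin 4 → ℂ)
    (hA : ∀ i, InR P (τ i)) (hB : ∀ k c d, ∑ i, ∑ j, τ i j k * P i j c d = 0) :
    (τ 0 0 0 = 0 ∧ τ 0 0 1 = 0 ∧ τ 0 1 0 = 0 ∧ τ 0 1 1 = 0 ∧
      τ 1 0 0 = 0 ∧ τ 1 0 1 = 0 ∧ τ 1 1 0 = 0 ∧ τ 1 1 1 = 0) ∧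
    (τ 0 0 2 = 0 ∧ τ 0 0 3 = 0 ∧ τ 0 1 2 = 0 ∧ τ 0 1 3 = 0 ∧
      τ 1 0 2 = 0 ∧ τ 1 0 3 = 0 ∧ τ 1 1 2 = 0 ∧ τ 1 1 3 = 0) ∧
    (τ 0 2 2 = 0 ∧ τ 0 2 3 = 0 ∧ τ 0 3 2 = 0 ∧ τ 0 3 3 = 0 ∧
      τ 1 2 2 = 0 ∧ τ 1 2 3 = 0 ∧ τ 1 3 2 = 0 ∧ τ 1 3 3 = 0) ∧
    (τ 2 0 2 = 0 ∧ τ 2 0 3 = 0 ∧ τ 2 1 2 = 0 ∧ τ 2 1 3 = 0 ∧
      τ 3 0 2 = 0 ∧ τ 3 0 3 = 0 ∧ τ 3 1 2 = 0 ∧ τ 3 1 3 = 0) := by
  obtain ⟨m003, m012, m002, -, -, -⟩ := mixed hP h02 (hA 0)
  obtain ⟨m103, m112, m102, -, -, -⟩ := mixed hP h02 (hA 1)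
  obtain ⟨m203, m212, m202, -, -, -⟩ := mixed hP h02 (hA 2)
  obtain ⟨m303, m312, m302, -, -, -⟩ := mixed hP h02 (hA 3)
  obtain ⟨s2, -, r2⟩ := rad hP h02 (hB 2)
  obtain ⟨s3, -, r3⟩ := rad hP h02 (hB 3)
  have a1 : τ 1 0 2 = 0 := by rw [← s2]; exact m012
  have a1' : τ 1 1 3 = 0 := by rw [← m102]; exact a1
  have a0' : τ 0 1 3 = 0 := by rw [s3]; exact m103
  have a0 : τ 0 0 2 = 0 := by rw [m002]; exact a0'
  -- the antisymmetric parts vanish
  have hk2 : ∀ c d, (τ 0 2 2 - τ 2 0 2) * P 0 2 c d + (τ 0 3 2 - τ 3 0 2) * P 0 3 c d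
      + τ 1 2 2 * P 1 2 c d + τ 1 3 2 * P 1 3 c d = 0 := by
    intro c d
    have := r2 c d
    rw [m212, m312] at this
    linear_combination this
  have hk3 : ∀ c d, τ 0 2 3 * P 0 2 c d + τ 0 3 3 * P 0 3 c d
      + (τ 1 2 3 - τ 2 0 2) * P 1 2 c d + (τ 1 3 3 - τ 3 0 2) * P 1 3 c d = 0 := by
    intro c d
    have := r3 c d
    rw [m203, m303, ← m202, ← m302] at this
    linear_combination this
  by_cases hD2 : (τ 0 2 2 - τ 2 0 2) * τ 1 3 2 - (τ 0 3 2 - τ 3 0 2) * τ 1 2 2 = 0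
  · obtain ⟨e1, e2, e3, e4⟩ := ns hP hk2 hD2
    by_cases hD3 : τ 0 2 3 * (τ 1 3 3 - τ 3 0 2) - τ 0 3 3 * (τ 1 2 3 - τ 2 0 2) = 0
    · obtain ⟨d1, d2, d3, d4⟩ := ns hP hk3 hD3
      -- now `a = 0`
      have ha : τ 2 0 2 = 0 ∧ τ 3 0 2 = 0 := by
        by_contra hne
        refine core_L1 hP h02 (InR.lin (hA 0) (hA 1) (conj (τ 2 0 2)) (conj (τ 3 0 2))) 1 (τ 2 0 2)
          (τ 3 0 2) one_ne_zero hne ?_ ?_ ?_ ?_
        · show conj (τ 2 0 2) * τ 0 2 2 + conj (τ 3 0 2) * τ 1 2 2 = _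
          linear_combination conj (τ 2 0 2) * e1 + conj (τ 3 0 2) * e3
        · show conj (τ 2 0 2) * τ 0 2 3 + conj (τ 3 0 2) * τ 1 2 3 = _
          linear_combination conj (τ 2 0 2) * d1 + conj (τ 3 0 2) * d3
        · show conj (τ 2 0 2) * τ 0 3 2 + conj (τ 3 0 2) * τ 1 3 2 = _
          linear_combination conj (τ 2 0 2) * e2 + conj (τ 3 0 2) * e4
        · show conj (τ 2 0 2) * τ 0 3 3 + conj (τ 3 0 2) * τ 1 3 3 = _
          linear_combination conj (τ 2 0 2) * d2 + conj (τ 3 0 2) * d4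
      obtain ⟨ha2, ha3⟩ := ha
      have x022 : τ 0 2 2 = 0 := by linear_combination e1 + ha2
      have x032 : τ 0 3 2 = 0 := by linear_combination e2 + ha3
      have x123 : τ 1 2 3 = 0 := by linear_combination d3 + ha2
      have x133 : τ 1 3 3 = 0 := by linear_combination d4 + ha3
      have hp := (p_ne hP).1
      obtain ⟨w00, w11, w01, w10⟩ := rw_eq hP h02 (hA 0)
      rw [x022, d1, x032, d2] at w00 w11 w01 w10
      obtain ⟨v00, v11, v01, v10⟩ := rw_eq hP h02 (hA 1)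
      rw [e3, x123, e4, x133] at v00 v11 v01 v10
      simp only [zero_mul, zero_add, mul_eq_zero, hp, or_false] at w00 w11
      simp only [zero_mul, zero_add, zero_sub, neg_eq_zero, mul_eq_zero, hp, or_false] at w01 w10
      simp only [zero_mul, zero_add, mul_eq_zero, hp, or_false] at v00 v11
      simp only [zero_mul, zero_add, zero_sub, neg_eq_zero, mul_eq_zero, hp, or_false] at v01 v10
      exact ⟨⟨w11, w10, w01, w00, v11, v10, v01, v00⟩,
        ⟨a0, m003, m012, a0', a1, m103, m112, a1'⟩,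
        ⟨x022, d1, x032, d2, e3, x123, e4, x133⟩,
        ⟨ha2, m203, m212, by rw [← m202]; exact ha2, ha3, m303, m312, by rw [← m302]; exact ha3⟩⟩
    · exfalso
      exact core_key hP h02 (hA 0) (hA 1) (a2 := τ 2 0 2) (a3 := τ 3 0 2) (v2 := 0) (v3 := 1) hk3 hD3
        (by simp) (by linear_combination e1) (by linear_combination e2) (by ring) (by ring)
        (by linear_combination e3) (by linear_combination e4) (by ring) (by ring)
  · exfalso
    -- `kappa^3 = lam kappa^2`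
    set k02 := τ 0 2 2 - τ 2 0 2 with hk02
    set k03 := τ 0 3 2 - τ 3 0 2 with hk03
    set k12 := τ 1 2 2 with hk12
    set k13 := τ 1 3 2 with hk13
    set l02 := τ 0 2 3 with hl02
    set l03 := τ 0 3 3 with hl03
    set l12 := τ 1 2 3 - τ 2 0 2 with hl12
    set l13 := τ 1 3 3 - τ 3 0 2 with hl13
    obtain ⟨lam, hlam⟩ : ∃ lam : ℂ, (l02 - lam * k02) * (l13 - lam * k13)
        - (l03 - lam * k03) * (l12 - lam * k12) = 0 := by
      set a := k02 * k13 - k03 * k12 with ha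
      set b := -(l02 * k13 + k02 * l13 - l03 * k12 - k03 * l12) with hb
      set c := l02 * l13 - l03 * l12 with hc
      obtain ⟨s, hs⟩ : ∃ s : ℂ, discrim a b c = s * s := by
        obtain ⟨s, hs⟩ := IsAlgClosed.exists_pow_nat_eq (discrim a b c) (n := 2) (by norm_num)
        exact ⟨s, by rw [← hs]; ring⟩
      obtain ⟨x, hx⟩ := exists_quadratic_eq_zero hD2 ⟨s, hs⟩
      refine ⟨x, ?_⟩
      rw [ha, hb, hc] at hx
      linear_combination hx
    have hkl : ∀ c d, (l02 - lam * k02) * P 0 2 c d + (l03 - lam * k03) * P 0 3 c d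
      + (l12 - lam * k12) * P 1 2 c d + (l13 - lam * k13) * P 1 3 c d = 0 := by
      intro c d
      linear_combination hk3 c d - lam * hk2 c d
    obtain ⟨d1, d2, d3, d4⟩ := ns hP hkl hlam
    exact core_key hP h02 (hA 0) (hA 1) (a2 := τ 2 0 2) (a3 := τ 3 0 2) (v2 := 1) (v3 := lam) hk2 hD2
      (by simp) (by rw [hk02]; ring) (by rw [hk03]; ring) (by linear_combination d1)
      (by linear_combination d2) (by ring) (by ring)
      (by linear_combination d3 - hl12) (by linear_combination d4 - hl13)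

end

/-- exchange of `W` and `X` -/
def sw : Fin 4 → Fin 4 := ![2, 3, 0, 1]

theorem sw_sw (i : Fin 4) : sw (sw i) = i := by fin_cases i <;> rfl

def swE : Fin 4 ≃ Fin 4 := ⟨sw, sw, sw_sw, sw_sw⟩

theorem isForm_sw {P : Fin 4 → Fin 4 → Fin 4 → Fin 4 → ℂ} (hP : IsForm P) :
    IsForm (fun i j k l => P (sw i) (sw j) (sw k) (sw l)) where
  alt1 i j k l := hP.alt1 _ _ _ _
  alt2 i j k l := hP.alt2 _ _ _ _
  herm i j k l := hP.herm _ _ _ _
  pos a b hab := by
    have h := hP.pos (a ∘ sw) (b ∘ sw) (by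
      rw [LinearIndependent.pair_iff] at hab ⊢
      intro s t hst
      apply hab s t
      ext i
      have := congrFun hst (sw i)
      simpa [sw_sw] using this)
    have e : F (fun i j k l => P (sw i) (sw j) (sw k) (sw l)) a b (star a) (star b)
        = F P (a ∘ sw) (b ∘ sw) (star (a ∘ sw)) (star (b ∘ sw)) := by
      unfold F
      refine Fintype.sum_equiv swE _ _ fun i => Fintype.sum_equiv swE _ _ fun j =>
        Fintype.sum_equiv swE _ _ fun k => Fintype.sum_equiv swE _ _ fun l => ?_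
      simp [swE, sw_sw]
    rw [e]; exact h

theorem adapted_zero {P : Fin 4 → Fin 4 → Fin 4 → Fin 4 → ℂ} (hP : IsForm P)
    (h02 : ∀ b c, P 0 b 2 c + P 1 b 3 c = 0) (τ : Fin 4 → Fin 4 → Fin 4 → ℂ)
    (hA : ∀ i, InR P (τ i)) (hB : ∀ k c d, ∑ i, ∑ j, τ i j k * P i j c d = 0) : τ = 0 := by
  have H1 := core_half hP h02 τ hA hB
  have h20 : ∀ b c, P (sw 0) (sw b) (sw 2) (sw c) + P (sw 1) (sw b) (sw 3) (sw c) = 0 := by
    intro b c
    show P 2 (sw b) 0 (sw c) + P 3 (sw b) 1 (sw c) = 0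
    rw [hP.herm 0 (sw c) 2 (sw b), hP.herm 1 (sw c) 3 (sw b), ← map_add, h02, map_zero]
  have H2 := core_half (isForm_sw hP) h20 (fun i j k => τ (sw i) (sw j) (sw k))
    (by
      intro i b c
      rw [← hA (sw i) (sw b) (sw c)]
      exact Fintype.sum_equiv swE _ _ fun j => Fintype.sum_equiv swE _ _ fun k => rfl)
    (by
      intro k c d
      rw [← hB (sw k) (sw c) (sw d)]
      exact Fintype.sum_equiv swE _ _ fun j => Fintype.sum_equiv swE _ _ fun k => rfl)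
  simp only [sw, Matrix.cons_val_zero, Matrix.cons_val_one, Matrix.cons_val] at H2
  obtain ⟨⟨_, _, _, _, _, _, _, _⟩, ⟨_, _, _, _, _, _, _, _⟩, ⟨_, _, _, _, _, _, _, _⟩,
    ⟨_, _, _, _, _, _, _, _⟩⟩ := H1
  obtain ⟨⟨_, _, _, _, _, _, _, _⟩, ⟨_, _, _, _, _, _, _, _⟩, ⟨_, _, _, _, _, _, _, _⟩,
    ⟨_, _, _, _, _, _, _, _⟩⟩ := H2
  funext i j k
  fin_cases i <;> fin_cases j <;> fin_cases k <;> assumption

end Pool.Agent.MP_9c903d
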