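import Mathlib

/-!
# Cohomological data of compact Kaehler manifolds with given fundamental group

`H1 G = Hom(G, ℂ) = H^1(M; ℂ)` for every connected space `M` with `π_1(M) = G`.
-/

namespace Pool.Agent.MP_9c903d

open scoped ComplexConjugate commutatorElement

/-- `H^1(G; ℂ) = Hom(G, ℂ)`. -/
abbrev H1 (G : Type*) [Group G] : Type _ := Additive G →+ ℂ

/-- Complex conjugation on `H^1(G; ℂ)`. -/
noncomputable def cj {G : Type*} [Group G] (φ : H1 G) : H1 G :=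
  (starRingEnd ℂ).toAddMonoidHom.comp φ

/-- `∑ φ_i ∪ ψ_i = 0` in `H^2(G; ℂ)`: the cocycle `(g, h) ↦ ∑ φ_i(g) ψ_i(h)` is the
coboundary of a function `c`. -/
def CupZero {G : Type*} [Group G] {n : ℕ} (φ ψ : Fin n → H1 G) : Prop :=
  ∃ c : G → ℂ, ∀ g h : G,
    ∑ i, φ i (Additive.ofMul g) * ψ i (Additive.ofMul h) = c (g * h) - c g - c h

/-- The fundamental group of the closed orientable surface of genus `g`: generators
`a_i = (i, false)` and `b_i = (i, true)`, `i < g`, one relator `∏ [a_i, b_i]`. -/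
def SurfaceGroup (g : ℕ) : Type :=
  PresentedGroup
    {((List.ofFn fun i : Fin g =>
      ⁅(FreeGroup.of (i, false) : FreeGroup (Fin g × Bool)), FreeGroup.of (i, true)⁆).prod)}

noncomputable instance (g : ℕ) : Group (SurfaceGroup g) := by
  unfold SurfaceGroup; infer_instance

/-- What classical Hodge theory gives on `H^1` of a compact connected Kaehler manifold `M` with
`π_1(M) = G`, dimension `n ≥ 2` and Kaehler class `ω`. -/
structure HodgeRiemannData (G : Type*) [Group G] where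
  /-- `H^{1,0}`: the classes of the holomorphic 1-forms. -/
  V : Submodule ℂ (H1 G)
  /-- Hodge decomposition `H^1 = H^{1,0} ⊕ conj H^{1,0}`. -/
  decomp : ∀ φ : H1 G, ∃ a ∈ V, ∃ b ∈ V, φ = a + cj b
  disj : ∀ a ∈ V, cj a ∈ V → a = 0
  /-- `T(a, b, c, d) = ∫_M a ∪ b ∪ c ∪ d ∪ ω^{n-2}`. -/
  T : (H1 G) [⋀^Fin 4]→ₗ[ℂ] ℂ
  /-- `ω` is real. -/
  real : ∀ a b c d : H1 G, T ![cj a, cj b, cj c, cj d] = conj (T ![a, b, c, d])
  /-- `ω` is of type `(1,1)`: only the component of type `(2,2)` counts. -/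
  type : ∀ a ∈ V, ∀ b ∈ V, ∀ c ∈ V, ∀ d : H1 G, T ![a, b, c, d] = 0
  /-- `H^2(G; ℂ) → H^2(M; ℂ)`: relations in `H^2(G; ℂ)` hold in `H^2(M; ℂ)`. -/
  cup : ∀ (n : ℕ) (φ ψ : Fin n → H1 G), CupZero φ ψ →
    ∀ c d : H1 G, ∑ i, T ![φ i, ψ i, c, d] = 0
  /-- `∫ i a ∧ conj a ∧ ω^{n-1} > 0` for a holomorphic 1-form `a ≠ 0`. -/
  one : ∀ a ∈ V, CupZero ![a] ![cj a] → a = 0
  /-- Hodge-Riemann for the holomorphic 2-form `a ∧ b`: `∫ a ∧ b ∧ conj (a ∧ b) ∧ ω^{n-2} ≥ 0`,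
  with equality only if `a ∧ b = 0`. -/
  nonneg : ∀ a ∈ V, ∀ b ∈ V, 0 ≤ (T ![a, b, cj a, cj b]).re
  eq_zero : ∀ a ∈ V, ∀ b ∈ V, (T ![a, b, cj a, cj b]).re = 0 → CupZero ![a] ![b]
  /-- Castelnuovo-de Franchis: two linearly independent holomorphic 1-forms with `a ∧ b = 0` come
  from a holomorphic map with connected fibres onto a curve of genus `g ≥ 2`. -/
  castelnuovo : ∀ a ∈ V, ∀ b ∈ V, LinearIndependent ℂ ![a, b] → CupZero ![a] ![b] →
    ∃ g : ℕ, 2 ≤ g ∧ ∃ f : G →* SurfaceGroup g, Function.Surjective f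

/-- The 4-linear form on `ℂ^q` with coefficients `P`. -/
noncomputable def F {q : ℕ} (P : Fin q → Fin q → Fin q → Fin q → ℂ) (a b c d : Fin q → ℂ) : ℂ :=
  ∑ i, ∑ j, ∑ k, ∑ l, a i * b j * c k * d l * P i j k l

/-- Coefficients `P i j k l = T(e_i, e_j, conj e_k, conj e_l)`. -/
structure IsForm {q : ℕ} (P : Fin q → Fin q → Fin q → Fin q → ℂ) : Prop where
  alt1 : ∀ i j k l, P j i k l = - P i j k l
  alt2 : ∀ i j k l, P i j l k = - P i j k l
  herm : ∀ i j k l, P k l i j = conj (P i j k l)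
  pos : ∀ a b : Fin q → ℂ, LinearIndependent ℂ ![a, b] → 0 < (F P a b (star a) (star b)).re

/-- The tensor `∑ h_{jk} e_j ⊗ conj e_k` is in the radical of `T` on `(1,1)`-classes. -/
def InR {q : ℕ} (P : Fin q → Fin q → Fin q → Fin q → ℂ) (h : Fin q → Fin q → ℂ) : Prop :=
  ∀ b c, ∑ j, ∑ k, h j k * P j b k c = 0

end Pool.Agent.MP_9c903d
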