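import Pool.Agent.Lib.MP_9c903d_ag.NK.Defs

/-!
# Part Ext: a G-invariant homomorphism on the commutator subgroup is the restriction of a
quadratic function on G
-/

namespace Pool.Agent.MP_9c903d

open scoped ComplexConjugate commutatorElement

/-- the set `G × ℂ`, for the Heisenberg type group -/
@[ext] private structure Heis (G : Type*) where
  g : G
  z : ℂ

/-- a biadditive alternating form on `G` -/
private structure IsAlt {G : Type*} [Group G] (om : G → G → ℂ) : Prop where
  l : ∀ a b c, om (a * b) c = om a c + om b c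
  r : ∀ a b c, om a (b * c) = om a b + om a c
  a : ∀ a, om a a = 0

private theorem IsAlt.one_l {G : Type*} [Group G] {om : G → G → ℂ} (h : IsAlt om) (b : G) :
    om 1 b = 0 := by
  have := h.l 1 1 b
  rw [mul_one] at this
  linear_combination -this

private theorem IsAlt.one_r {G : Type*} [Group G] {om : G → G → ℂ} (h : IsAlt om) (b : G) :
    om b 1 = 0 := by
  have := h.r b 1 1
  rw [mul_one] at this
  linear_combination -this

private theorem IsAlt.inv_l {G : Type*} [Group G] {om : G → G → ℂ} (h : IsAlt om) (a b : G) :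
    om a⁻¹ b = -om a b := by
  have := h.l a⁻¹ a b
  rw [inv_mul_cancel, h.one_l] at this
  linear_combination -this

private theorem IsAlt.symm {G : Type*} [Group G] {om : G → G → ℂ} (h : IsAlt om) (a b : G) :
    om b a = -om a b := by
  have := h.a (a * b)
  rw [h.l, h.r, h.r, h.a, h.a] at this
  linear_combination this

/-- the Heisenberg type group -/
@[reducible] private noncomputable def heisGroup {G : Type*} [Group G] {om : G → G → ℂ}
    (h : IsAlt om) : Group (Heis G) :=
  letI : Mul (Heis G) := ⟨fun x y => ⟨x.g * y.g, x.z + y.z - om x.g y.g / 2⟩⟩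
  letI : One (Heis G) := ⟨⟨1, 0⟩⟩
  letI : Inv (Heis G) := ⟨fun x => ⟨x.g⁻¹, -x.z⟩⟩
  Group.ofLeftAxioms
    (fun x y w => by
      refine Heis.ext (mul_assoc _ _ _) ?_
      change x.z + y.z - om x.g y.g / 2 + w.z - om (x.g * y.g) w.g / 2 =
        x.z + (y.z + w.z - om y.g w.g / 2) - om x.g (y.g * w.g) / 2
      rw [h.l, h.r]
      ring)
    (fun x => by
      refine Heis.ext (one_mul _) ?_
      change 0 + x.z - om 1 x.g / 2 = x.z
      rw [h.one_l]
      ring)
    (fun x => by
      refine Heis.ext (inv_mul_cancel _) ?_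
      change -x.z + x.z - om x.g⁻¹ x.g / 2 = 0
      rw [h.inv_l, h.a]
      ring)

theorem exists_quasi {G : Type*} [Group G] (lam : G → ℂ)
    (hadd : ∀ x ∈ commutator G, ∀ y ∈ commutator G, lam (x * y) = lam x + lam y)
    (hinv : ∀ g : G, ∀ x ∈ commutator G, lam (g * x * g⁻¹) = lam x) :
    ∃ c : G → ℂ, ∀ g h, c (g * h) = c g + c h + (1 / 2) * lam ⁅g, h⁆ := by
  classical
  have hmem : ∀ g h : G, ⁅g, h⁆ ∈ commutator G := fun g h =>
    Subgroup.commutator_mem_commutator (Subgroup.mem_top g) (Subgroup.mem_top h)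
  have hconj : ∀ g x : G, x ∈ commutator G → g * x * g⁻¹ ∈ commutator G := fun g x hx =>
    (inferInstance : (commutator G).Normal).conj_mem x hx g
  have hone : lam 1 = 0 := by
    have := hadd 1 (one_mem _) 1 (one_mem _)
    rw [mul_one] at this
    linear_combination -this
  have hom : IsAlt fun g h : G => lam ⁅g, h⁆ := by
    refine ⟨fun a b c => ?_, fun a b c => ?_, fun a => ?_⟩
    · have h1 : ⁅a * b, c⁆ = (a * ⁅b, c⁆ * a⁻¹) * ⁅a, c⁆ := by
        simp only [commutatorElement_def]
        group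
      change lam ⁅a * b, c⁆ = lam ⁅a, c⁆ + lam ⁅b, c⁆
      rw [h1, hadd _ (hconj _ _ (hmem _ _)) _ (hmem _ _), hinv _ _ (hmem _ _)]
      ring
    · have h1 : ⁅a, b * c⁆ = ⁅a, b⁆ * (b * ⁅a, c⁆ * b⁻¹) := by
        simp only [commutatorElement_def]
        group
      change lam ⁅a, b * c⁆ = lam ⁅a, b⁆ + lam ⁅a, c⁆
      rw [h1, hadd _ (hmem _ _) _ (hconj _ _ (hmem _ _)), hinv _ _ (hmem _ _)]
    · rw [commutatorElement_self, hone]
  obtain ⟨om, hom'⟩ : ∃ om : G → G → ℂ, om = fun g h : G => lam ⁅g, h⁆ := ⟨_, rfl⟩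
  have homv : ∀ g h, lam ⁅g, h⁆ = om g h := fun g h => by rw [hom']
  rw [← hom'] at hom
  -- om kills commutators on the left
  have hkill : ∀ n ∈ commutator G, ∀ h : G, om n h = 0 := by
    intro n hn h
    let f : G →* Multiplicative ℂ :=
      { toFun := fun g => Multiplicative.ofAdd (om g h)
        map_one' := by rw [hom.one_l]; rfl
        map_mul' := fun a b => by rw [hom.l]; rfl }
    have h1 : n ∈ f.ker := Abelianization.commutator_subset_ker f hn
    exact Multiplicative.ofAdd.injective (MonoidHom.mem_ker.1 h1)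
  let _ : Group (Heis G) := heisGroup hom
  have hmul : ∀ x y : Heis G, x * y = ⟨x.g * y.g, x.z + y.z - om x.g y.g / 2⟩ := fun x y => rfl
  have hinvH : ∀ x : Heis G, x⁻¹ = ⟨x.g⁻¹, -x.z⟩ := fun x => rfl
  have honeH : (1 : Heis G) = ⟨1, 0⟩ := rfl
  -- the graph of `-lam`
  let Dd : Subgroup (Heis G) :=
    { carrier := {x | x.g ∈ commutator G ∧ x.z = -lam x.g}
      mul_mem' := by
        rintro x y ⟨hx, hx'⟩ ⟨hy, hy'⟩
        refine ⟨mul_mem hx hy, ?_⟩
        change x.z + y.z - om x.g y.g / 2 = -lam (x.g * y.g)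
        rw [hadd _ hx _ hy, hkill _ hx, hx', hy']
        ring
      one_mem' := ⟨one_mem _, by
        change (0 : ℂ) = -lam 1
        rw [hone, neg_zero]⟩
      inv_mem' := by
        rintro x ⟨hx, hx'⟩
        refine ⟨inv_mem hx, ?_⟩
        change -x.z = -lam (x.g⁻¹)
        have h1 := hadd _ hx _ (inv_mem hx)
        rw [mul_inv_cancel, hone] at h1
        rw [hx']
        linear_combination -h1 }
  have hD : commutator (Heis G) ≤ Dd := by
    rw [commutator_def, Subgroup.commutator_le]
    intro x _ y _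
    have h1 : ⁅x, y⁆ = ⟨⁅x.g, y.g⁆, -om x.g y.g⟩ := by
      rw [commutatorElement_def, mul_inv_eq_iff_eq_mul, mul_inv_eq_iff_eq_mul]
      simp only [hmul]
      refine Heis.ext ?_ ?_
      · change x.g * y.g = ⁅x.g, y.g⁆ * y.g * x.g
        rw [commutatorElement_def]
        group
      · change x.z + y.z - om x.g y.g / 2 = -om x.g y.g + y.z - om ⁅x.g, y.g⁆ y.g / 2 + x.z -
          om (⁅x.g, y.g⁆ * y.g) x.g / 2
        rw [hom.l, hkill _ (hmem _ _), hkill _ (hmem _ _), hom.symm x.g y.g]
        ring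
    rw [h1]
    exact ⟨hmem _ _, by rw [homv]⟩
  -- the central line injects into the abelianization
  let ι : ℂ →+ Additive (Abelianization (Heis G)) :=
    { toFun := fun s => Additive.ofMul (Abelianization.of (⟨1, s⟩ : Heis G))
      map_zero' := by
        rw [show (⟨1, 0⟩ : Heis G) = 1 from rfl, map_one]
        rfl
      map_add' := fun s t => by
        have h1 : (⟨1, s + t⟩ : Heis G) = ⟨1, s⟩ * ⟨1, t⟩ := by
          rw [hmul]
          refine Heis.ext (one_mul _).symm ?_
          change s + t = s + t - om 1 1 / 2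
          rw [hom.one_l]
          ring
        rw [h1, map_mul]
        rfl }
  have hι : Function.Injective ι := by
    rw [injective_iff_map_eq_zero]
    intro s hs
    have h1 : Abelianization.of (⟨1, s⟩ : Heis G) = 1 := Additive.ofMul.injective hs
    have h2 : (⟨1, s⟩ : Heis G) ∈ commutator (Heis G) := by
      rw [← Abelianization.ker_of, MonoidHom.mem_ker]
      exact h1
    have h3 : s = -lam 1 := (hD h2).2
    rw [h3, hone, neg_zero]
  obtain ⟨r, hr⟩ := (Module.Baer.of_divisible ℂ).extension_property_addMonoidHom ι hι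
    (AddMonoidHom.id ℂ)
  have hr' : ∀ s : ℂ, r (Additive.ofMul (Abelianization.of (⟨1, s⟩ : Heis G))) = s := fun s =>
    DFunLike.congr_fun hr s
  refine ⟨fun g => r (Additive.ofMul (Abelianization.of (⟨g, 0⟩ : Heis G))), fun g h => ?_⟩
  have h1 : (⟨g, 0⟩ : Heis G) * ⟨h, 0⟩ * ⟨1, om g h / 2⟩ = ⟨g * h, 0⟩ := by
    simp only [hmul]
    refine Heis.ext (mul_one _) ?_
    change 0 + 0 - om g h / 2 + om g h / 2 - om (g * h) 1 / 2 = 0
    rw [hom.one_r]
    ring
  change r (Additive.ofMul (Abelianization.of (⟨g * h, 0⟩ : Heis G))) =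
    r (Additive.ofMul (Abelianization.of (⟨g, 0⟩ : Heis G))) +
      r (Additive.ofMul (Abelianization.of (⟨h, 0⟩ : Heis G))) + (1 / 2) * lam ⁅g, h⁆
  have h2 : Additive.ofMul (Abelianization.of (⟨g * h, 0⟩ : Heis G)) =
      Additive.ofMul (Abelianization.of (⟨g, 0⟩ : Heis G)) +
        Additive.ofMul (Abelianization.of (⟨h, 0⟩ : Heis G)) +
        Additive.ofMul (Abelianization.of (⟨1, om g h / 2⟩ : Heis G)) := by
    rw [← h1, MonoidHom.map_mul, MonoidHom.map_mul]
    rfl
  rw [h2, map_add, map_add, hr', homv]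
  ring

end Pool.Agent.MP_9c903d
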