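import Pool.Agent.Lib.MP_9c903d_ag.NK.Defs

/-!
# Part Three: syzygies of type (3,0)
-/

namespace Pool.Agent.MP_9c903d

open scoped ComplexConjugate commutatorElement

private theorem three_dec {q : ℕ} {P : Fin q → Fin q → Fin q → Fin q → ℂ} (hP : IsForm P)
    {a b : Fin q → ℂ} (h : ∀ c d, ∑ i, ∑ j, a i * b j * P i j c d = 0) (i j : Fin q) :
    a i * b j = a j * b i := by
  by_cases hl : LinearIndependent ℂ ![a, b]
  · exfalso
    have h1 := hP.pos a b hl
    have h2 : F P a b (star a) (star b) = 0 := by
      have e1 : F P a b (star a) (star b) =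
          ∑ k, ∑ l, (star a) k * (star b) l * ∑ i, ∑ j, a i * b j * P i j k l := by
        unfold F
        calc ∑ i, ∑ j, ∑ k, ∑ l, a i * b j * (star a) k * (star b) l * P i j k l
            = ∑ i, ∑ k, ∑ j, ∑ l, a i * b j * (star a) k * (star b) l * P i j k l :=
              Finset.sum_congr rfl fun i _ => Finset.sum_comm
          _ = ∑ k, ∑ i, ∑ j, ∑ l, a i * b j * (star a) k * (star b) l * P i j k l :=
              Finset.sum_comm
          _ = ∑ k, ∑ i, ∑ l, ∑ j, a i * b j * (star a) k * (star b) l * P i j k l :=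
              Finset.sum_congr rfl fun k _ => Finset.sum_congr rfl fun i _ => Finset.sum_comm
          _ = ∑ k, ∑ l, ∑ i, ∑ j, a i * b j * (star a) k * (star b) l * P i j k l :=
              Finset.sum_congr rfl fun k _ => Finset.sum_comm
          _ = _ := by
              refine Finset.sum_congr rfl fun k _ => Finset.sum_congr rfl fun l _ => ?_
              rw [Finset.mul_sum]
              refine Finset.sum_congr rfl fun i _ => ?_
              rw [Finset.mul_sum]
              refine Finset.sum_congr rfl fun j _ => ?_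
              ring
      rw [e1]
      refine Finset.sum_eq_zero fun k _ => Finset.sum_eq_zero fun l _ => ?_
      rw [h k l, mul_zero]
    rw [h2] at h1
    simp at h1
  · rw [LinearIndependent.pair_iff] at hl
    push Not at hl
    obtain ⟨s, t, hst, hne⟩ := hl
    have hi := congrFun hst i
    have hj := congrFun hst j
    simp only [Pi.add_apply, Pi.smul_apply, smul_eq_mul, Pi.zero_apply] at hi hj
    by_cases hs : s = 0
    · have ht := hne hs
      rw [hs, zero_mul, zero_add] at hi hj
      have hbi := (mul_eq_zero.1 hi).resolve_left ht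
      have hbj := (mul_eq_zero.1 hj).resolve_left ht
      rw [hbi, hbj, mul_zero, mul_zero]
    · apply mul_left_cancel₀ hs
      linear_combination b j * hi - b i * hj

private theorem three_plu {q : ℕ} {P : Fin q → Fin q → Fin q → Fin q → ℂ} (hP : IsForm P)
    {k : Fin q → Fin q → ℂ} (hk : ∀ i j, k i j = - k j i)
    (h : ∀ c d, ∑ i, ∑ j, k i j * P i j c d = 0)
    (hpl : ∀ i j l m, k i j * k l m - k i l * k j m + k i m * k j l = 0) : k = 0 := by
  funext p r
  by_contra hpr
  have h1 : ∀ c d, ∑ i, ∑ j, k p i * k r j * P i j c d = 0 := by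
    intro c d
    have e1 : ∑ i, ∑ j, k p i * k r j * P i j c d = - ∑ i, ∑ j, k p j * k r i * P i j c d := by
      rw [Finset.sum_comm, ← Finset.sum_neg_distrib]
      refine Finset.sum_congr rfl fun i _ => ?_
      rw [← Finset.sum_neg_distrib]
      refine Finset.sum_congr rfl fun j _ => ?_
      rw [hP.alt1 j i c d]
      rw [hP.alt1 i j c d]
      ring
    have e2 : ∑ i, ∑ j, k p i * k r j * P i j c d - ∑ i, ∑ j, k p j * k r i * P i j c d =
        k p r * ∑ i, ∑ j, k i j * P i j c d := by
      rw [← Finset.sum_sub_distrib, Finset.mul_sum]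
      refine Finset.sum_congr rfl fun i _ => ?_
      rw [← Finset.sum_sub_distrib, Finset.mul_sum]
      refine Finset.sum_congr rfl fun j _ => ?_
      linear_combination (- P i j c d) * hpl p r i j
    rw [h c d, mul_zero] at e2
    linear_combination (1 / 2 : ℂ) * e1 + (1 / 2 : ℂ) * e2
  have h2 := three_dec hP h1 p r
  have h3 : k p p = 0 := by linear_combination (1 / 2 : ℂ) * hk p p
  have h4 : k r p = - k p r := hk r p
  rw [h3, h4] at h2
  have h5 : k p r * k p r = 0 := by linear_combination h2
  exact hpr (mul_self_eq_zero.1 h5)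

private theorem three_four {k : Fin 4 → Fin 4 → ℂ} (hk : ∀ i j, k i j = - k j i)
    (hpf : k 0 1 * k 2 3 - k 0 2 * k 1 3 + k 0 3 * k 1 2 = 0) (i j l m : Fin 4) :
    k i j * k l m - k i l * k j m + k i m * k j l = 0 := by
  have hd : ∀ i, k i i = 0 := fun i => by linear_combination (1 / 2 : ℂ) * hk i i
  have h10 := hk 1 0
  have h20 := hk 2 0
  have h30 := hk 3 0
  have h21 := hk 2 1
  have h31 := hk 3 1
  have h32 := hk 3 2
  have h0 := hd 0
  have h1 := hd 1
  have h2 := hd 2
  have h3 := hd 3
  fin_cases i <;> fin_cases j <;> fin_cases l <;> fin_cases m <;>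
    simp only [Fin.zero_eta, Fin.mk_one, Fin.reduceFinMk, h10, h20, h30, h21, h31, h32, h0, h1, h2, h3] <;>
    first
      | ring1
      | linear_combination hpf
      | linear_combination - hpf

theorem core30 {q : ℕ} {P : Fin q → Fin q → Fin q → Fin q → ℂ} (hP : IsForm P) (hq2 : 2 ≤ q)
    (hq : q ≤ 4) (t : Fin q → Fin q → Fin q → ℂ) (hanti : ∀ i j k, t i j k = - t i k j)
    (hjac : ∀ i j k, t i j k + t j k i + t k i j = 0)
    (hK : ∀ i c d, ∑ a, ∑ b, t i a b * P a b c d = 0) : t = 0 := by
  rcases Nat.lt_or_ge q 4 with hq3 | hq4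
  · funext i
    refine three_plu hP (hanti i) (hK i) ?_
    have hd : ∀ j, t i j j = 0 := fun j => by linear_combination (1 / 2 : ℂ) * hanti i j j
    intro a b c d
    have hcase : a = b ∨ a = c ∨ a = d ∨ b = c ∨ b = d ∨ c = d := by omega
    rcases hcase with rfl | rfl | rfl | rfl | rfl | rfl
    · rw [hd a]; ring
    · rw [hanti i b a, hd a]; ring
    · rw [hd a, hanti i c a, hanti i b a]; ring
    · rw [hd b]; ring
    · rw [hd b, hanti i c b]; ring
    · rw [hd c]; ring
  · obtain rfl : q = 4 := le_antisymm hq hq4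
    by_contra hne
    obtain ⟨i0, hi0⟩ : ∃ i0, t i0 ≠ 0 := by
      by_contra hcon
      push Not at hcon
      exact hne (funext hcon)
    set k := t i0 with hkdef
    have hk : ∀ i j, k i j = - k j i := hanti i0
    set pf := k 0 1 * k 2 3 - k 0 2 * k 1 3 + k 0 3 * k 1 2 with hpf
    have hpf0 : pf ≠ 0 := fun h0 => hi0 (three_plu hP hk (hK i0) (three_four hk h0))
    have hu : ∀ i, ∃ u : ℂ, ∀ a b, t i a b = u * k a b := by
      intro i
      have hroot : ∃ x : ℂ, pf * (x * x) + (-(t i 0 1 * k 2 3 + k 0 1 * t i 2 3 - t i 0 2 * k 1 3 - k 0 2 * t i 1 3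
          + t i 0 3 * k 1 2 + k 0 3 * t i 1 2)) * x
          + (t i 0 1 * t i 2 3 - t i 0 2 * t i 1 3 + t i 0 3 * t i 1 2) = 0 := by
        refine exists_quadratic_eq_zero hpf0 ?_
        obtain ⟨z, hz⟩ := IsAlgClosed.exists_pow_nat_eq (discrim pf (-(t i 0 1 * k 2 3 + k 0 1 * t i 2 3 - t i 0 2 * k 1 3
          - k 0 2 * t i 1 3 + t i 0 3 * k 1 2 + k 0 3 * t i 1 2))
          (t i 0 1 * t i 2 3 - t i 0 2 * t i 1 3 + t i 0 3 * t i 1 2)) (n := 2) (by norm_num)
        exact ⟨z, by rw [← hz, sq]⟩
      obtain ⟨x, hx⟩ := hroot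
      refine ⟨x, ?_⟩
      have hz : (fun a b => t i a b - x * k a b) = (0 : Fin 4 → Fin 4 → ℂ) := by
        have hanti' : ∀ a b, (fun a b => t i a b - x * k a b) a b = - (fun a b => t i a b - x * k a b) b a := by
          intro a b
          simp only
          rw [hanti i a b, hk a b]
          ring
        refine three_plu hP hanti' ?_ (three_four hanti' ?_)
        · intro c d
          have e1 : ∑ a, ∑ b, (t i a b - x * k a b) * P a b c d =
              ∑ a, ∑ b, t i a b * P a b c d - x * ∑ a, ∑ b, k a b * P a b c d := by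
            rw [Finset.mul_sum, ← Finset.sum_sub_distrib]
            refine Finset.sum_congr rfl fun a _ => ?_
            rw [Finset.mul_sum, ← Finset.sum_sub_distrib]
            refine Finset.sum_congr rfl fun b _ => ?_
            ring
          rw [e1, hK i c d, hK i0 c d]
          ring
        · rw [hpf] at hx
          linear_combination hx
      intro a b
      have := congrFun (congrFun hz a) b
      simp only [Pi.zero_apply] at this
      linear_combination this
    choose u hu using hu
    have hJ : ∀ i j l, u i * k j l + u j * k l i + u l * k i j = 0 := by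
      intro i j l
      have := hjac i j l
      rw [hu i, hu j, hu l] at this
      exact this
    have h10 := hk 1 0
    have h20 := hk 2 0
    have h30 := hk 3 0
    have h21 := hk 2 1
    have h31 := hk 3 1
    have h32 := hk 3 2
    have J1 := hJ 0 1 2
    have J2 := hJ 0 1 3
    have J3 := hJ 0 2 3
    have J4 := hJ 1 2 3
    rw [h20] at J1
    rw [h30] at J2
    rw [h30] at J3
    rw [h31] at J4
    have hu0 : ∀ i, u i * pf = 0 := by
      intro i
      fin_cases i
      · show u 0 * pf = 0
        rw [hpf]
        linear_combination k 0 1 * J3 - k 0 2 * J2 + k 0 3 * J1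
      · show u 1 * pf = 0
        rw [hpf]
        linear_combination k 0 1 * J4 - (- k 1 3) * J1 + (- k 1 2) * J2
      · show u 2 * pf = 0
        rw [hpf]
        linear_combination k 2 3 * J1 + k 0 2 * J4 - k 1 2 * J3
      · show u 3 * pf = 0
        rw [hpf]
        linear_combination k 2 3 * J2 - k 1 3 * J3 + k 0 3 * J4
    have hui := hu0 i0
    have hui' : u i0 = 0 := (mul_eq_zero.1 hui).resolve_right hpf0
    apply hi0
    funext a b
    have := hu i0 a b
    rw [hui', zero_mul] at this
    exact this

end Pool.Agent.MP_9c903d
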