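import Pool.Agent.Lib.MP_9c903d_ag.NK.Ext

/-!
# Part Tri: from a homomorphism gamma_3/gamma_4 -> C to a trilinear function
-/

namespace Pool.Agent.MP_9c903d

open scoped ComplexConjugate commutatorElement

theorem exists_trilinear {G : Type*} [Group G] (θ : G → ℂ)
    (hadd : ∀ x ∈ (⊤ : Subgroup G).lowerCentralSeries 2,
      ∀ y ∈ (⊤ : Subgroup G).lowerCentralSeries 2, θ (x * y) = θ x + θ y)
    (hzero : ∀ x ∈ (⊤ : Subgroup G).lowerCentralSeries 3, θ x = 0)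
    (hne : ∃ x ∈ (⊤ : Subgroup G).lowerCentralSeries 2, θ x ≠ 0) :
    ∃ t : G → G → G → ℂ, (∃ g h l, t g h l ≠ 0) ∧
      (∀ g g' h l, t (g * g') h l = t g h l + t g' h l) ∧
      (∀ g h h' l, t g (h * h') l = t g h l + t g h' l) ∧
      (∀ g h l, t g h l = - t g l h) ∧
      (∀ g h l, t g h l + t h l g + t l g h = 0) ∧
      (∀ g, ∃ c : G → ℂ, ∀ h l, t g h l = c (h * l) - c h - c l) := by
  -- memberships
  have m1 : ∀ h l : G, ⁅h, l⁆ ∈ (⊤ : Subgroup G).lowerCentralSeries 1 := fun h l =>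
    Subgroup.commutator_mem_commutator (Subgroup.mem_top h) (Subgroup.mem_top l)
  have m2 : ∀ y ∈ (⊤ : Subgroup G).lowerCentralSeries 1, ∀ g : G,
      ⁅y, g⁆ ∈ (⊤ : Subgroup G).lowerCentralSeries 2 := fun y hy g =>
    Subgroup.commutator_mem_commutator hy (Subgroup.mem_top g)
  have m3 : ∀ z ∈ (⊤ : Subgroup G).lowerCentralSeries 2, ∀ g : G,
      ⁅z, g⁆ ∈ (⊤ : Subgroup G).lowerCentralSeries 3 := fun z hz g =>
    Subgroup.commutator_mem_commutator hz (Subgroup.mem_top g)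
  have l32 : (⊤ : Subgroup G).lowerCentralSeries 3 ≤ (⊤ : Subgroup G).lowerCentralSeries 2 :=
    Subgroup.lowerCentralSeries_antitone _ (by norm_num)
  have l21 : (⊤ : Subgroup G).lowerCentralSeries 2 ≤ (⊤ : Subgroup G).lowerCentralSeries 1 :=
    Subgroup.lowerCentralSeries_antitone _ (by norm_num)
  have n1 : ((⊤ : Subgroup G).lowerCentralSeries 1).Normal := inferInstance
  have n2 : ((⊤ : Subgroup G).lowerCentralSeries 2).Normal := inferInstance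
  -- theta
  have θ1 : θ 1 = 0 := hzero 1 (Subgroup.one_mem _)
  have θinv : ∀ z ∈ (⊤ : Subgroup G).lowerCentralSeries 2, θ z⁻¹ = - θ z := by
    intro z hz
    have := hadd z hz z⁻¹ (Subgroup.inv_mem _ hz)
    rw [mul_inv_cancel, θ1] at this
    linear_combination -this
  have θconj : ∀ g : G, ∀ z ∈ (⊤ : Subgroup G).lowerCentralSeries 2, θ (g * z * g⁻¹) = θ z := by
    intro g z hz
    have e : g * z * g⁻¹ = ⁅g, z⁆ * z := by rw [commutatorElement_def]; group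
    have e2 : ⁅g, z⁆ ∈ (⊤ : Subgroup G).lowerCentralSeries 3 := by
      rw [← commutatorElement_inv z g]
      exact Subgroup.inv_mem _ (m3 z hz g)
    rw [e, hadd _ (l32 e2) _ hz, hzero _ e2, zero_add]
  -- lam
  have lamadd : ∀ g : G, ∀ y ∈ (⊤ : Subgroup G).lowerCentralSeries 1,
      ∀ y' ∈ (⊤ : Subgroup G).lowerCentralSeries 1, θ ⁅y * y', g⁆ = θ ⁅y, g⁆ + θ ⁅y', g⁆ := by
    intro g y hy y' hy'
    have e : ⁅y * y', g⁆ = (y * ⁅y', g⁆ * y⁻¹) * ⁅y, g⁆ := by simp only [commutatorElement_def]; group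
    rw [e, hadd _ (n2.conj_mem _ (m2 y' hy' g) y) _ (m2 y hy g), θconj y _ (m2 y' hy' g), add_comm]
  have lamone : ∀ g : G, θ ⁅(1 : G), g⁆ = 0 := by
    intro g
    rw [commutatorElement_one_left, θ1]
  have laminv : ∀ g : G, ∀ y ∈ (⊤ : Subgroup G).lowerCentralSeries 1, θ ⁅y⁻¹, g⁆ = - θ ⁅y, g⁆ := by
    intro g y hy
    have := lamadd g y hy y⁻¹ (Subgroup.inv_mem _ hy)
    rw [mul_inv_cancel, lamone] at this
    linear_combination -this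
  have lamconj : ∀ g x : G, ∀ y ∈ (⊤ : Subgroup G).lowerCentralSeries 1,
      θ ⁅x * y * x⁻¹, g⁆ = θ ⁅y, g⁆ := by
    intro g x y hy
    have e : x * y * x⁻¹ = ⁅x, y⁆ * y := by rw [commutatorElement_def]; group
    have e2 : ⁅x, y⁆ ∈ (⊤ : Subgroup G).lowerCentralSeries 2 := by
      rw [← commutatorElement_inv y x]
      exact Subgroup.inv_mem _ (m2 y hy x)
    rw [e, lamadd g _ (l21 e2) _ hy, hzero _ (m3 _ e2 g), zero_add]
  -- the function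
  have addg : ∀ g g' h l : G, θ ⁅⁅h, l⁆, g * g'⁆ = θ ⁅⁅h, l⁆, g⁆ + θ ⁅⁅h, l⁆, g'⁆ := by
    intro g g' h l
    have e : ⁅⁅h, l⁆, g * g'⁆ = ⁅⁅h, l⁆, g⁆ * (g * ⁅⁅h, l⁆, g'⁆ * g⁻¹) := by
      generalize ⁅h, l⁆ = y
      simp only [commutatorElement_def]; group
    rw [e, hadd _ (m2 _ (m1 h l) g) _ (n2.conj_mem _ (m2 _ (m1 h l) g') g), θconj g _ (m2 _ (m1 h l) g')]
  have addh : ∀ g h h' l : G, θ ⁅⁅h * h', l⁆, g⁆ = θ ⁅⁅h, l⁆, g⁆ + θ ⁅⁅h', l⁆, g⁆ := by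
    intro g h h' l
    have e : ⁅h * h', l⁆ = (h * ⁅h', l⁆ * h⁻¹) * ⁅h, l⁆ := by simp only [commutatorElement_def]; group
    rw [e, lamadd g _ (n1.conj_mem _ (m1 h' l) h) _ (m1 h l), lamconj g h _ (m1 h' l), add_comm]
  have anti : ∀ g h l : G, θ ⁅⁅h, l⁆, g⁆ = - θ ⁅⁅l, h⁆, g⁆ := by
    intro g h l
    rw [← commutatorElement_inv l h, laminv g _ (m1 l h)]
  have addl : ∀ g h l l' : G, θ ⁅⁅h, l * l'⁆, g⁆ = θ ⁅⁅h, l⁆, g⁆ + θ ⁅⁅h, l'⁆, g⁆ := by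
    intro g h l l'
    rw [anti g h (l * l'), addh, anti g h l, anti g h l']
    ring
  have invg : ∀ g h l : G, θ ⁅⁅h, l⁆, g⁻¹⁆ = - θ ⁅⁅h, l⁆, g⁆ := by
    intro g h l
    have := addg g g⁻¹ h l
    rw [mul_inv_cancel, commutatorElement_one_right, θ1] at this
    linear_combination -this
  have invh : ∀ g h l : G, θ ⁅⁅h⁻¹, l⁆, g⁆ = - θ ⁅⁅h, l⁆, g⁆ := by
    intro g h l
    have := addh g h h⁻¹ l
    rw [mul_inv_cancel, commutatorElement_one_left, lamone] at this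
    linear_combination -this
  have invl : ∀ g h l : G, θ ⁅⁅h, l⁻¹⁆, g⁆ = - θ ⁅⁅h, l⁆, g⁆ := by
    intro g h l
    rw [anti, invh, anti g h l, neg_neg]
  have jac : ∀ x y z : G, θ ⁅⁅x, y⁆, z⁆ + θ ⁅⁅y, z⁆, x⁆ + θ ⁅⁅z, x⁆, y⁆ = 0 := by
    intro x y z
    have e : ⁅z, ⁅x, y⁆⁆ = (x * z * ⁅⁅z⁻¹, x⁻¹⁆, y⁆ * (x * z)⁻¹) * ((x * y) * ⁅⁅y⁻¹, z⁆, x⁻¹⁆ * (x * y)⁻¹) := by
      simp [commutatorElement_def, mul_assoc]
    have a1 := m2 _ (m1 z⁻¹ x⁻¹) y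
    have a2 := m2 _ (m1 y⁻¹ z) x⁻¹
    have e1 : θ ⁅z, ⁅x, y⁆⁆ = - θ ⁅⁅x, y⁆, z⁆ := by
      rw [← commutatorElement_inv ⁅x, y⁆ z, θinv _ (m2 _ (m1 x y) z)]
    have e2 : θ ⁅z, ⁅x, y⁆⁆ = θ ⁅⁅z⁻¹, x⁻¹⁆, y⁆ + θ ⁅⁅y⁻¹, z⁆, x⁻¹⁆ := by
      rw [e, hadd _ (n2.conj_mem _ a1 _) _ (n2.conj_mem _ a2 _), θconj _ _ a1, θconj _ _ a2]
    rw [invh, invl, invg, invh] at e2
    linear_combination e1 - e2
  refine ⟨fun g h l => (1 / 2) * θ ⁅⁅h, l⁆, g⁆, ?_, ?_, ?_, ?_, ?_, ?_⟩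
  · by_contra hcon
    push Not at hcon
    have h0 : ∀ g h l : G, θ ⁅⁅h, l⁆, g⁆ = 0 := by
      intro g h l
      have := hcon g h l
      simpa using this
    have h1 : ∀ g : G, ∀ y ∈ (⊤ : Subgroup G).lowerCentralSeries 1, θ ⁅y, g⁆ = 0 := by
      intro g y hy
      rw [Subgroup.mem_lowerCentralSeries_succ_iff] at hy
      have key : y ∈ (⊤ : Subgroup G).lowerCentralSeries 1 ∧ θ ⁅y, g⁆ = 0 := by
        induction hy using Subgroup.closure_induction with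
        | mem x hx =>
          obtain ⟨p, _, q, _, rfl⟩ := hx
          exact ⟨m1 p q, h0 g p q⟩
        | one => exact ⟨Subgroup.one_mem _, lamone g⟩
        | mul x y _ _ hx hy =>
          exact ⟨Subgroup.mul_mem _ hx.1 hy.1, by rw [lamadd g _ hx.1 _ hy.1, hx.2, hy.2, add_zero]⟩
        | inv x _ hx => exact ⟨Subgroup.inv_mem _ hx.1, by rw [laminv g _ hx.1, hx.2, neg_zero]⟩
      exact key.2
    obtain ⟨x, hx, hne⟩ := hne
    apply hne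
    have hx' := hx
    rw [Subgroup.mem_lowerCentralSeries_succ_iff] at hx'
    have key : x ∈ (⊤ : Subgroup G).lowerCentralSeries 2 ∧ θ x = 0 := by
      clear hne hx
      induction hx' using Subgroup.closure_induction with
      | mem x hx =>
        obtain ⟨p, hp, q, _, rfl⟩ := hx
        exact ⟨m2 p hp q, h1 q p hp⟩
      | one => exact ⟨Subgroup.one_mem _, θ1⟩
      | mul x y _ _ hx hy =>
        exact ⟨Subgroup.mul_mem _ hx.1 hy.1, by rw [hadd _ hx.1 _ hy.1, hx.2, hy.2, add_zero]⟩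
      | inv x _ hx => exact ⟨Subgroup.inv_mem _ hx.1, by rw [θinv _ hx.1, hx.2, neg_zero]⟩
    exact key.2
  · intro g g' h l
    show (1 / 2) * θ ⁅⁅h, l⁆, g * g'⁆ = (1 / 2) * θ ⁅⁅h, l⁆, g⁆ + (1 / 2) * θ ⁅⁅h, l⁆, g'⁆
    rw [addg]; ring
  · intro g h h' l
    show (1 / 2) * θ ⁅⁅h * h', l⁆, g⁆ = (1 / 2) * θ ⁅⁅h, l⁆, g⁆ + (1 / 2) * θ ⁅⁅h', l⁆, g⁆
    rw [addh]; ring
  · intro g h l
    show (1 / 2) * θ ⁅⁅h, l⁆, g⁆ = - ((1 / 2) * θ ⁅⁅l, h⁆, g⁆)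
    rw [anti]; ring
  · intro g h l
    show (1 / 2) * θ ⁅⁅h, l⁆, g⁆ + (1 / 2) * θ ⁅⁅l, g⁆, h⁆ + (1 / 2) * θ ⁅⁅g, h⁆, l⁆ = 0
    have := jac h l g
    linear_combination (1 / 2) * this
  · intro g
    have hc : commutator G = (⊤ : Subgroup G).lowerCentralSeries 1 :=
      (Subgroup.top_lowerCentralSeries_one).symm
    obtain ⟨c, hc'⟩ := exists_quasi (fun y => θ ⁅y, g⁆)
      (by rw [hc]; exact fun x hx y hy => lamadd g x hx y hy)
      (by rw [hc]; exact fun x y hy => lamconj g x y hy)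
    refine ⟨c, fun h l => ?_⟩
    show (1 / 2) * θ ⁅⁅h, l⁆, g⁆ = c (h * l) - c h - c l
    rw [hc' h l]
    ring

end Pool.Agent.MP_9c903d
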