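import Pool.Agent.Lib.MP_9c903d_ag.NK.Theta
import Pool.Agent.Lib.MP_9c903d_ag.NK.Tri
import Pool.Agent.Lib.MP_9c903d_ag.NK.Bas
import Pool.Agent.Lib.MP_9c903d_ag.NK.Coord
import Pool.Agent.Lib.MP_9c903d_ag.NK.Adapt
import Pool.Agent.Lib.MP_9c903d_ag.NK.Three

/-!
# Part Fin: assembly
-/

namespace Pool.Agent.MP_9c903d

open scoped ComplexConjugate commutatorElement

section

variable {G : Type*} [Group G]

private theorem cj_cj' (φ : H1 G) : cj (cj φ) = φ := by
  refine AddMonoidHom.ext fun g => ?_
  simp [cj]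

private theorem T_swap (D : HodgeRiemannData G) (v w : Fin 4 → H1 G) (i j : Fin 4) (hij : i ≠ j)
    (h : w = v ∘ Equiv.swap i j) : D.T w = - D.T v := by
  rw [h]
  exact D.T.map_swap v hij

private theorem T01 (D : HodgeRiemannData G) (a b c d : H1 G) :
    D.T ![b, a, c, d] = - D.T ![a, b, c, d] :=
  T_swap D _ _ 0 1 (by decide) (by funext i; fin_cases i <;> rfl)

private theorem T12 (D : HodgeRiemannData G) (a b c d : H1 G) :
    D.T ![a, c, b, d] = - D.T ![a, b, c, d] :=
  T_swap D _ _ 1 2 (by decide) (by funext i; fin_cases i <;> rfl)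

private theorem T23 (D : HodgeRiemannData G) (a b c d : H1 G) :
    D.T ![a, b, d, c] = - D.T ![a, b, c, d] :=
  T_swap D _ _ 2 3 (by decide) (by funext i; fin_cases i <;> rfl)

private theorem T13 (D : HodgeRiemannData G) (a b c d : H1 G) :
    D.T ![a, d, c, b] = - D.T ![a, b, c, d] :=
  T_swap D _ _ 1 3 (by decide) (by funext i; fin_cases i <;> rfl)

private theorem T03 (D : HodgeRiemannData G) (a b c d : H1 G) :
    D.T ![d, b, c, a] = - D.T ![a, b, c, d] :=
  T_swap D _ _ 0 3 (by decide) (by funext i; fin_cases i <;> rfl)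

private theorem T_smul (D : HodgeRiemannData G) (s : ℂ) (a b c d : H1 G) :
    D.T ![s • a, b, c, d] = s * D.T ![a, b, c, d] :=
  D.T.toMultilinearMap.cons_smul ![b, c, d] s a

private theorem T_cj3 (D : HodgeRiemannData G) {a b c : H1 G} (ha : a ∈ D.V) (hb : b ∈ D.V)
    (hc : c ∈ D.V) (d : H1 G) : D.T ![cj a, cj b, cj c, d] = 0 := by
  have h := D.real a b c (cj d)
  rw [cj_cj', D.type a ha b hb c hc, map_zero] at h
  exact h

private theorem sum_split {q : ℕ} (f : Fin q ⊕ Fin q → Fin q ⊕ Fin q → ℂ) :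
    ∑ b, ∑ d, f b d = ∑ i, ∑ j, f (.inl i) (.inl j) + ∑ i, ∑ j, f (.inl i) (.inr j)
      + (∑ i, ∑ j, f (.inr i) (.inl j) + ∑ i, ∑ j, f (.inr i) (.inr j)) := by
  simp only [Fintype.sum_sum_type, Finset.sum_add_distrib]
  abel

private theorem key (D : HodgeRiemannData G) {q : ℕ} (ε : Module.Basis (Fin q ⊕ Fin q) ℂ (H1 G))
    (h1 : ∀ i, ε (Sum.inl i) ∈ D.V) (h2 : ∀ i, ε (Sum.inr i) = cj (ε (Sum.inl i)))
    (hP : IsForm (fun i j k l : Fin q =>
      D.T ![ε (Sum.inl i), ε (Sum.inl j), ε (Sum.inr k), ε (Sum.inr l)]))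
    (hq2 : 2 ≤ q) (hq : q ≤ 4) (c : Fin q ⊕ Fin q → Fin q ⊕ Fin q → Fin q ⊕ Fin q → ℂ)
    (ha : ∀ i j k, c i j k = - c i k j) (hj : ∀ i j k, c i j k + c j k i + c k i j = 0)
    (hK : ∀ a p r, ∑ b, ∑ d, c a b d * D.T ![ε b, ε d, ε p, ε r] = 0) :
    (∀ i j k, c (.inl i) (.inl j) (.inl k) = 0) ∧
      (∀ i j k, c (.inl i) (.inl j) (.inr k) = 0) := by
  -- vanishing of the other types
  have z0 : ∀ i j k l, D.T ![ε (.inr i), ε (.inr j), ε (.inr k), ε l] = 0 := by
    intro i j k l
    rw [h2 i, h2 j, h2 k]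
    exact T_cj3 D (h1 i) (h1 j) (h1 k) _
  have z1 : ∀ i j k l, D.T ![ε (.inr i), ε l, ε (.inr j), ε (.inr k)] = 0 := by
    intro i j k l
    rw [T13, z0, neg_zero]
  have z2 : ∀ i j k l, D.T ![ε l, ε (.inr i), ε (.inr j), ε (.inr k)] = 0 := by
    intro i j k l
    rw [T03, z0, neg_zero]
  have z3 : ∀ i j k l, D.T ![ε (.inr i), ε (.inr j), ε l, ε (.inr k)] = 0 := by
    intro i j k l
    rw [T23, z0, neg_zero]
  have z4 : ∀ i j k l, D.T ![ε (.inl i), ε (.inl j), ε (.inl k), ε l] = 0 := by
    intro i j k l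
    exact D.type _ (h1 i) _ (h1 j) _ (h1 k) _
  have hK1 : ∀ a p r, ∑ i, ∑ j, c a (.inl i) (.inl j) *
      D.T ![ε (.inl i), ε (.inl j), ε (.inr p), ε (.inr r)] = 0 := by
    intro a p r
    have h := hK a (.inr p) (.inr r)
    rw [sum_split] at h
    simp only [z0, z1, z2, mul_zero, Finset.sum_const_zero, add_zero] at h
    exact h
  constructor
  · have h := core30 hP hq2 hq (fun i j k => c (.inl i) (.inl j) (.inl k))
      (fun i j k => ha _ _ _) (fun i j k => hj _ _ _) (fun i p r => hK1 _ p r)
    intro i j k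
    exact congrFun (congrFun (congrFun h i) j) k
  · have h := core21 hP hq2 hq (fun i j k => c (.inl i) (.inl j) (.inr k)) ?_ ?_
    · intro i j k
      exact congrFun (congrFun (congrFun h i) j) k
    · intro i b r
      have h := hK (.inl i) (.inl b) (.inr r)
      rw [sum_split] at h
      simp only [z3, z4, mul_zero, Finset.sum_const_zero, add_zero, zero_add] at h
      have e1 : ∀ j k, c (.inl i) (.inl j) (.inr k) *
          D.T ![ε (.inl j), ε (.inr k), ε (.inl b), ε (.inr r)] =
          - (c (.inl i) (.inl j) (.inr k) *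
            D.T ![ε (.inl j), ε (.inl b), ε (.inr k), ε (.inr r)]) := by
        intro j k
        rw [T12 D (ε (.inl j)) (ε (.inl b)) (ε (.inr k)) (ε (.inr r)), mul_neg]
      have e2 : ∀ k j, c (.inl i) (.inr k) (.inl j) *
          D.T ![ε (.inr k), ε (.inl j), ε (.inl b), ε (.inr r)] =
          - (c (.inl i) (.inl j) (.inr k) *
            D.T ![ε (.inl j), ε (.inl b), ε (.inr k), ε (.inr r)]) := by
        intro k j
        rw [T01 D (ε (.inl j)) (ε (.inr k)) (ε (.inl b)) (ε (.inr r)),
          T12 D (ε (.inl j)) (ε (.inl b)) (ε (.inr k)) (ε (.inr r)), ha (.inl i) (.inr k) (.inl j)]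
        ring
      simp only [e1, e2] at h
      rw [Finset.sum_comm (f := fun k j => - (c (.inl i) (.inl j) (.inr k) *
            D.T ![ε (.inl j), ε (.inl b), ε (.inr k), ε (.inr r)]))] at h
      simp only [Finset.sum_neg_distrib] at h
      have h' : (2 : ℂ) * ∑ j, ∑ k, c (.inl i) (.inl j) (.inr k) *
            D.T ![ε (.inl j), ε (.inl b), ε (.inr k), ε (.inr r)] = 0 := by
        linear_combination - h
      exact (mul_eq_zero.1 h').resolve_left two_ne_zero
    · intro k p r
      have h := hK1 (.inr k) p r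
      have e : ∀ i j, c (.inr k) (.inl i) (.inl j) =
          - c (.inl i) (.inl j) (.inr k) + c (.inl j) (.inl i) (.inr k) := by
        intro i j
        have := hj (.inr k) (.inl i) (.inl j)
        have h3 := ha (.inl j) (.inr k) (.inl i)
        linear_combination this - h3
      simp only [e] at h
      have e3 : ∀ i j, (- c (.inl i) (.inl j) (.inr k) + c (.inl j) (.inl i) (.inr k)) *
          D.T ![ε (.inl i), ε (.inl j), ε (.inr p), ε (.inr r)] =
          - (c (.inl i) (.inl j) (.inr k) *
            D.T ![ε (.inl i), ε (.inl j), ε (.inr p), ε (.inr r)]) -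
          c (.inl j) (.inl i) (.inr k) *
            D.T ![ε (.inl j), ε (.inl i), ε (.inr p), ε (.inr r)] := by
        intro i j
        rw [T01 D (ε (.inl i)) (ε (.inl j)) (ε (.inr p)) (ε (.inr r))]
        ring
      simp only [e3, Finset.sum_sub_distrib, Finset.sum_neg_distrib] at h
      rw [Finset.sum_comm (f := fun i j => c (.inl j) (.inl i) (.inr k) *
            D.T ![ε (.inl j), ε (.inl i), ε (.inr p), ε (.inr r)])] at h
      have h' : (2 : ℂ) * ∑ i, ∑ j, c (.inl i) (.inl j) (.inr k) *
            D.T ![ε (.inl i), ε (.inl j), ε (.inr p), ε (.inr r)] = 0 := by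
        linear_combination - h
      exact (mul_eq_zero.1 h').resolve_left two_ne_zero

private theorem K_of_cup (D : HodgeRiemannData G) {I : Type*} [Fintype I]
    (ε : Module.Basis I ℂ (H1 G)) (c : I → I → I → ℂ) (t : G → G → G → ℂ)
    (ht : ∀ g h l, t g h l = ∑ i, ∑ j, ∑ k, c i j k * ε i (.ofMul g) * ε j (.ofMul h) *
      ε k (.ofMul l))
    (hc : ∀ g, ∃ c0 : G → ℂ, ∀ h l, t g h l = c0 (h * l) - c0 h - c0 l)
    (x y : H1 G) (a : I) : ∑ b, ∑ d, c a b d * D.T ![ε b, ε d, x, y] = 0 := by
  classical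
  have hz : ∀ g : G, ∑ i, (∑ b, ∑ d, c i b d * D.T ![ε b, ε d, x, y]) * ε i (.ofMul g) = 0 := by
    intro g
    obtain ⟨c0, hc0⟩ := hc g
    let e := Fintype.equivFin (I × I)
    let s : I × I → ℂ := fun p => ∑ i, c i p.1 p.2 * ε i (.ofMul g)
    have hcz : CupZero (fun m => s (e.symm m) • ε (e.symm m).1) (fun m => ε (e.symm m).2) := by
      refine ⟨c0, fun h l => ?_⟩
      rw [← hc0, ht]
      rw [Equiv.sum_comp e.symm (fun p : I × I => (s p • ε p.1) (.ofMul h) * ε p.2 (.ofMul l)),
        Fintype.sum_prod_type]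
      have hR : ∑ i, ∑ j, ∑ k, c i j k * ε i (.ofMul g) * ε j (.ofMul h) * ε k (.ofMul l) =
          ∑ j, ∑ k, ∑ i, c i j k * ε i (.ofMul g) * ε j (.ofMul h) * ε k (.ofMul l) := by
        rw [Finset.sum_comm]
        exact Finset.sum_congr rfl fun j _ => Finset.sum_comm
      rw [hR]
      refine Finset.sum_congr rfl fun j _ => Finset.sum_congr rfl fun k _ => ?_
      show s (j, k) * ε j (.ofMul h) * ε k (.ofMul l) = _
      simp only [s, Finset.sum_mul]
    have hT := D.cup _ _ _ hcz x y
    rw [Equiv.sum_comp e.symm (fun p : I × I => D.T ![s p • ε p.1, ε p.2, x, y]),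
      Fintype.sum_prod_type] at hT
    simp only [T_smul] at hT
    rw [← hT]
    simp only [s, Finset.sum_mul]
    rw [Finset.sum_comm]
    refine Finset.sum_congr rfl fun b _ => ?_
    rw [Finset.sum_comm]
    refine Finset.sum_congr rfl fun d _ => Finset.sum_congr rfl fun i _ => ?_
    ring
  exact congrFun (coeff_zero ε _ hz) a

end

theorem main {G : Type*} [Group G] (D : HodgeRiemannData G) [Module.Finite ℂ (H1 G)]
    (hn : Group.IsNilpotent G) (htf : ∀ g : G, ∀ n : ℕ, 0 < n → g ^ n = 1 → g = 1)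
    (hc : 3 ≤ Group.nilpotencyClass G) : 10 ≤ Module.finrank ℂ (H1 G) := by
  by_contra hlt
  obtain ⟨q, ε, h1, h2⟩ := exists_basis D
  have hq : q ≤ 4 := by
    rw [Module.finrank_eq_card_basis ε, Fintype.card_sum, Fintype.card_fin] at hlt
    omega
  obtain ⟨θ, hθ1, hθ2, hθ3⟩ := exists_theta hn htf hc
  obtain ⟨t, ⟨g0, h0, l0, hne⟩, ht1, ht2, ht3, ht4, ht5⟩ := exists_trilinear θ hθ1 hθ2 hθ3
  obtain ⟨c, hct, hca, hcj⟩ := trilinear_coord ε t ht1 ht2 ht3 ht4
  have hP := isForm D hn ε h1 h2
  have hK : ∀ a p r, ∑ b, ∑ d, c a b d * D.T ![ε b, ε d, ε p, ε r] = 0 :=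
    fun a p r => K_of_cup D ε c t hct ht5 _ _ a
  have hc0 : c = 0 := by
    rcases Nat.lt_or_ge q 2 with hq2 | hq2
    · interval_cases q
      · funext i
        rcases i with i | i <;> exact i.elim0
      · -- q = 1
        by_contra hcne
        have hdiag : ∀ a b, c a b b = 0 := by
          intro a b
          have := hca a b b
          linear_combination (1 / 2 : ℂ) * this
        have hsne : (fun a => c a (.inl 0) (.inr 0)) ≠ 0 := by
          intro hs
          apply hcne
          have hs' : ∀ a, c a (.inl 0) (.inr 0) = 0 := fun a => congrFun hs a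
          funext a b d
          rcases b with b | b <;> rcases d with d | d
          all_goals
            have hb : b = 0 := Subsingleton.elim _ _
            have hd : d = 0 := Subsingleton.elim _ _
            subst hb hd
          · exact hdiag _ _
          · exact hs' _
          · show c a (.inr 0) (.inl 0) = 0
            rw [hca, hs', neg_zero]
          · exact hdiag _ _
        have hex : ∃ g : G, ∑ a, c a (.inl 0) (.inr 0) * ε a (.ofMul g) ≠ 0 := by
          by_contra hcon
          push Not at hcon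
          exact hsne (coeff_zero ε _ hcon)
        obtain ⟨g, hg⟩ := hex
        obtain ⟨c0, hc0⟩ := ht5 g
        set s : ℂ := ∑ a, c a (.inl 0) (.inr 0) * ε a (.ofMul g) with hs
        have htg : ∀ h l, t g h l = s * (ε (.inl 0) (.ofMul h) * ε (.inr 0) (.ofMul l) -
            ε (.inr 0) (.ofMul h) * ε (.inl 0) (.ofMul l)) := by
          intro h l
          rw [hct, hs, Finset.sum_mul]
          refine Finset.sum_congr rfl fun a _ => ?_
          simp only [Fintype.sum_sum_type, Finset.univ_unique, Finset.sum_singleton,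
            Fin.default_eq_zero, Fin.isValue, hdiag, zero_mul]
          rw [hca a (.inr 0) (.inl 0)]
          ring
        have hcup : CupZero ![ε (.inl 0)] ![cj (ε (.inl 0))] := by
          refine ⟨fun x => (c0 x + s * (ε (.inl 0) (.ofMul x) * ε (.inr 0) (.ofMul x))) / (2 * s),
            fun h l => ?_⟩
          have e1 := hc0 h l
          rw [htg] at e1
          simp only [Finset.univ_unique, Finset.sum_singleton, Fin.default_eq_zero, Fin.isValue,
            Matrix.cons_val_zero, ← h2, ofMul_mul, map_add]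
          field_simp
          linear_combination e1
        have := D.one _ (h1 0) hcup
        exact ε.ne_zero _ this
    · obtain ⟨k1, k2⟩ := key D ε h1 h2 hP hq2 hq c hca hcj hK
      have hcjε : ∀ i, cj (ε i) = ε i.swap := by
        intro i
        rcases i with i | i
        · exact (h2 i).symm
        · rw [h2 i, cj_cj']; rfl
      have hsw : ∀ b d p r, D.T ![ε b.swap, ε d.swap, ε p.swap, ε r.swap] =
          conj (D.T ![ε b, ε d, ε p, ε r]) := by
        intro b d p r
        rw [← D.real, hcjε, hcjε, hcjε, hcjε]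
      obtain ⟨k3, k4⟩ := key D ε h1 h2 hP hq2 hq
        (fun a b d => conj (c a.swap b.swap d.swap))
        (fun i j k => by rw [hca, map_neg]) (fun i j k => by
          rw [← map_add, ← map_add, hcj, map_zero]) (fun a p r => by
          have h := congrArg conj (hK a.swap p.swap r.swap)
          simp only [map_sum, map_mul, map_zero] at h
          rw [← h]
          rw [← Equiv.sum_comp (Equiv.sumComm (Fin q) (Fin q))]
          refine Finset.sum_congr rfl fun b _ => ?_
          rw [← Equiv.sum_comp (Equiv.sumComm (Fin q) (Fin q))]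
          refine Finset.sum_congr rfl fun d _ => ?_
          simp only [Equiv.sumComm_apply, Sum.swap_swap]
          rw [← hsw, Sum.swap_swap, Sum.swap_swap])
      have k3' : ∀ i j k, c (.inr i) (.inr j) (.inr k) = 0 := fun i j k =>
        (map_eq_zero (starRingEnd ℂ)).1 (k3 i j k)
      have k4' : ∀ i j k, c (.inr i) (.inr j) (.inl k) = 0 := fun i j k =>
        (map_eq_zero (starRingEnd ℂ)).1 (k4 i j k)
      have k5 : ∀ i j k, c (.inl i) (.inr j) (.inl k) = 0 := fun i j k => by
        rw [hca, k2, neg_zero]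
      have k6 : ∀ i j k, c (.inr i) (.inl j) (.inr k) = 0 := fun i j k => by
        rw [hca, k4', neg_zero]
      have k7 : ∀ i j k, c (.inr i) (.inl j) (.inl k) = 0 := fun i j k => by
        have := hcj (.inr i) (.inl j) (.inl k)
        rw [k2, k5, add_zero, add_zero] at this
        exact this
      have k8 : ∀ i j k, c (.inl i) (.inr j) (.inr k) = 0 := fun i j k => by
        have := hcj (.inl i) (.inr j) (.inr k)
        rw [k4', k6, add_zero, add_zero] at this
        exact this
      funext a b d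
      rcases a with a | a <;> rcases b with b | b <;> rcases d with d | d
      · exact k1 _ _ _
      · exact k2 _ _ _
      · exact k5 _ _ _
      · exact k8 _ _ _
      · exact k7 _ _ _
      · exact k6 _ _ _
      · exact k4' _ _ _
      · exact k3' _ _ _
  apply hne
  rw [hct, hc0]
  simp

end Pool.Agent.MP_9c903d
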