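import Pool.Agent.Lib.MP_9c903d_ag.NK.Defs

/-!
# Part Rank: elements of rank 1, 2, 3 of the radical
-/

namespace Pool.Agent.MP_9c903d

open scoped ComplexConjugate commutatorElement

variable {q : ℕ} {P : Fin q → Fin q → Fin q → Fin q → ℂ}

theorem rank_F_add1 (a a' b c d : Fin q → ℂ) : F P (a + a') b c d = F P a b c d + F P a' b c d := by
  simp only [F, Pi.add_apply, add_mul, Finset.sum_add_distrib]

theorem rank_F_add3 (a b c c' d : Fin q → ℂ) : F P a b (c + c') d = F P a b c d + F P a b c' d := by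
  simp only [F, Pi.add_apply, mul_add, add_mul, Finset.sum_add_distrib]

theorem rank_F_smul1 (t : ℂ) (a b c d : Fin q → ℂ) : F P (t • a) b c d = t * F P a b c d := by
  simp only [F, Finset.mul_sum]
  refine Finset.sum_congr rfl fun i _ => Finset.sum_congr rfl fun j _ =>
    Finset.sum_congr rfl fun k _ => Finset.sum_congr rfl fun l _ => ?_
  simp only [Pi.smul_apply, smul_eq_mul]
  ring

theorem rank_F_smul3 (t : ℂ) (a b c d : Fin q → ℂ) : F P a b (t • c) d = t * F P a b c d := by
  simp only [F, Finset.mul_sum]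
  refine Finset.sum_congr rfl fun i _ => Finset.sum_congr rfl fun j _ =>
    Finset.sum_congr rfl fun k _ => Finset.sum_congr rfl fun l _ => ?_
  simp only [Pi.smul_apply, smul_eq_mul]
  ring

theorem rank_F_swap12 (hP : IsForm P) (a b c d : Fin q → ℂ) : F P b a c d = - F P a b c d := by
  unfold F
  rw [Finset.sum_comm, ← Finset.sum_neg_distrib]
  refine Finset.sum_congr rfl fun i _ => ?_
  rw [← Finset.sum_neg_distrib]
  refine Finset.sum_congr rfl fun j _ => ?_
  rw [← Finset.sum_neg_distrib]
  refine Finset.sum_congr rfl fun k _ => ?_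
  rw [← Finset.sum_neg_distrib]
  refine Finset.sum_congr rfl fun l _ => ?_
  rw [hP.alt1 i j k l]
  ring

theorem rank_F_swap34 (hP : IsForm P) (a b c d : Fin q → ℂ) : F P a b d c = - F P a b c d := by
  unfold F
  rw [← Finset.sum_neg_distrib]
  refine Finset.sum_congr rfl fun i _ => ?_
  rw [← Finset.sum_neg_distrib]
  refine Finset.sum_congr rfl fun j _ => ?_
  rw [Finset.sum_comm, ← Finset.sum_neg_distrib]
  refine Finset.sum_congr rfl fun k _ => ?_
  rw [← Finset.sum_neg_distrib]
  refine Finset.sum_congr rfl fun l _ => ?_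
  rw [hP.alt2 i j k l]
  ring

theorem rank_F_self12 (hP : IsForm P) (a c d : Fin q → ℂ) : F P a a c d = 0 := by
  have h := rank_F_swap12 hP a a c d
  have h2 : (2 : ℂ) * F P a a c d = 0 := by linear_combination h
  simpa using h2

theorem rank_F_self34 (hP : IsForm P) (a b c : Fin q → ℂ) : F P a b c c = 0 := by
  have h := rank_F_swap34 hP a b c c
  have h2 : (2 : ℂ) * F P a b c c = 0 := by linear_combination h
  simpa using h2

theorem rank_F_add2 (hP : IsForm P) (a b b' c d : Fin q → ℂ) :
    F P a (b + b') c d = F P a b c d + F P a b' c d := by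
  rw [rank_F_swap12 hP (b + b') a, rank_F_add1, rank_F_swap12 hP b a, rank_F_swap12 hP b' a]
  ring

theorem rank_F_smul2 (hP : IsForm P) (t : ℂ) (a b c d : Fin q → ℂ) :
    F P a (t • b) c d = t * F P a b c d := by
  rw [rank_F_swap12 hP (t • b) a, rank_F_smul1, rank_F_swap12 hP b a]
  ring

theorem rank_F_add4 (hP : IsForm P) (a b c d d' : Fin q → ℂ) :
    F P a b c (d + d') = F P a b c d + F P a b c d' := by
  rw [rank_F_swap34 hP a b (d + d') c, rank_F_add3, rank_F_swap34 hP a b d c,
    rank_F_swap34 hP a b d' c]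
  ring

theorem rank_F_smul4 (hP : IsForm P) (t : ℂ) (a b c d : Fin q → ℂ) :
    F P a b c (t • d) = t * F P a b c d := by
  rw [rank_F_swap34 hP a b (t • d) c, rank_F_smul3, rank_F_swap34 hP a b d c]
  ring

private theorem rank_pos_ne (hP : IsForm P) {a b : Fin q → ℂ} (h : LinearIndependent ℂ ![a, b])
    (h0 : F P a b (star a) (star b) = 0) : False := by
  have := hP.pos a b h
  rw [h0] at this
  simp at this

private theorem rank_pair_of {a b x : Fin q → ℂ} (h : LinearIndependent ℂ ![a, b]) {s t : ℂ}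
    (hx : x = s • a + t • b) (ht : t ≠ 0) : LinearIndependent ℂ ![x, a] := by
  rw [LinearIndependent.pair_iff] at h ⊢
  intro p r hpr
  have h1 : (p * s + r) • a + (p * t) • b = 0 := by
    rw [← hpr, hx]
    module
  obtain ⟨h2, h3⟩ := h _ _ h1
  have hp : p = 0 := by
    rcases mul_eq_zero.1 h3 with h | h
    · exact h
    · exact absurd h ht
  refine ⟨hp, ?_⟩
  rw [hp] at h2
  simpa using h2

theorem rank_one {q : ℕ} {P : Fin q → Fin q → Fin q → Fin q → ℂ} (hP : IsForm P) (hq : 2 ≤ q)
    (a u : Fin q → ℂ) (ha : a ≠ 0) (hu : u ≠ 0) (h : ∀ b c, F P a b u c = 0) : False := by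
  by_cases hli : LinearIndependent ℂ ![a, star u]
  · refine rank_pos_ne hP hli ?_
    rw [star_star, rank_F_swap34 hP, h]
    simp
  · rw [LinearIndependent.pair_iff] at hli
    push Not at hli
    obtain ⟨s, t, hst, hne⟩ := hli
    have hs : s ≠ 0 := by
      intro hs
      have ht := hne hs
      rw [hs, zero_smul, zero_add] at hst
      rcases smul_eq_zero.1 hst with h1 | h1
      · exact ht h1
      · exact hu (by rw [← star_star u, h1, star_zero])
    have ht : t ≠ 0 := by
      intro ht
      rw [ht, zero_smul, add_zero] at hst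
      rcases smul_eq_zero.1 hst with h1 | h1
      · exact hs h1
      · exact ha h1
    have h1 : a = (-(s⁻¹ * t)) • star u := by
      have h2 : s • a = -(t • star u) := eq_neg_of_add_eq_zero_left hst
      have h3 : a = s⁻¹ • (s • a) := by rw [smul_smul, inv_mul_cancel₀ hs, one_smul]
      rw [h3, h2, smul_neg, smul_smul, neg_smul]
    have h2 : star a = (star (-(s⁻¹ * t))) • u := by
      conv_lhs => rw [h1]
      rw [star_smul, star_star]
    have hfin : 1 < Module.finrank ℂ (Fin q → ℂ) := by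
      rw [Module.finrank_fin_fun]; omega
    obtain ⟨b, hb⟩ := exists_linearIndependent_pair_of_one_lt_finrank hfin ha
    refine rank_pos_ne hP hb ?_
    rw [h2, rank_F_smul3, h, mul_zero]

theorem rank_two {q : ℕ} {P : Fin q → Fin q → Fin q → Fin q → ℂ} (hP : IsForm P)
    (a0 a1 u0 u1 : Fin q → ℂ) (ha : LinearIndependent ℂ ![a0, a1])
    (hu : LinearIndependent ℂ ![u0, u1])
    (h : ∀ b c, F P a0 b u0 c + F P a1 b u1 c = 0) :
    LinearIndependent ℂ ![a0, a1, star u0, star u1] := by
  have k0 : ∀ c, F P a0 a1 u0 c = 0 := by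
    intro c
    have := h a1 c
    rwa [rank_F_self12 hP, add_zero] at this
  have k1 : ∀ c, F P a0 a1 u1 c = 0 := by
    intro c
    have := h a0 c
    rw [rank_F_self12 hP, zero_add, rank_F_swap12 hP] at this
    simpa using this
  rw [Fintype.linearIndependent_iff]
  intro g hg
  rw [Fin.sum_univ_four] at hg
  simp only [Matrix.cons_val_zero, Matrix.cons_val_one, Matrix.cons_val] at hg
  set x : Fin q → ℂ := g 0 • a0 + g 1 • a1 with hx
  have hx2 : star x = (-star (g 2)) • u0 + (-star (g 3)) • u1 := by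
    have e1 : x = (-g 2) • star u0 + (-g 3) • star u1 := by
      have e2 : x + (g 2 • star u0 + g 3 • star u1) = 0 := by rw [← add_assoc]; exact hg
      rw [eq_neg_of_add_eq_zero_left e2]
      module
    rw [e1, star_add, star_smul, star_smul, star_star, star_star, star_neg, star_neg]
  have hz : ∀ c, F P a0 a1 (star x) c = 0 := by
    intro c
    rw [hx2, rank_F_add3, rank_F_smul3, rank_F_smul3, k0, k1]
    simp
  have g1 : g 1 = 0 := by
    by_contra hne
    refine rank_pos_ne hP (rank_pair_of ha hx hne) ?_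
    have e : ∀ v d : Fin q → ℂ, F P x a0 v d = g 1 * F P a1 a0 v d := by
      intro v d
      rw [hx, rank_F_add1, rank_F_smul1, rank_F_smul1, rank_F_self12 hP]
      simp
    rw [e, rank_F_swap12 hP, hz]
    simp
  have g0 : g 0 = 0 := by
    by_contra hne
    have ha' : LinearIndependent ℂ ![a1, a0] := LinearIndependent.pair_symm_iff.1 ha
    have hx' : x = g 1 • a1 + g 0 • a0 := by rw [hx, add_comm]
    refine rank_pos_ne hP (rank_pair_of ha' hx' hne) ?_
    have e : ∀ v d : Fin q → ℂ, F P x a1 v d = g 0 * F P a0 a1 v d := by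
      intro v d
      rw [hx, rank_F_add1, rank_F_smul1, rank_F_smul1, rank_F_self12 hP]
      simp
    rw [e, hz]
    simp
  have hx0 : star x = 0 := by rw [hx, g0, g1]; simp
  rw [hx2] at hx0
  rw [LinearIndependent.pair_iff] at hu
  obtain ⟨e2, e3⟩ := hu _ _ hx0
  have g2 : g 2 = 0 := by simpa using e2
  have g3 : g 3 = 0 := by simpa using e3
  intro i
  fin_cases i
  · exact g0
  · exact g1
  · exact g2
  · exact g3

private theorem rank_li_star {n : ℕ} {u : Fin n → Fin q → ℂ} (h : LinearIndependent ℂ u) :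
    LinearIndependent ℂ (fun i => star (u i)) := by
  rw [Fintype.linearIndependent_iff] at h ⊢
  intro g hg i
  have h1 : ∑ i, star (g i) • u i = 0 := by
    have h2 := congrArg star hg
    rw [star_sum, star_zero] at h2
    rw [← h2]
    refine Finset.sum_congr rfl fun i _ => ?_
    rw [star_smul, star_star]
  have h3 := h _ h1 i
  simpa using h3

private theorem rank_sum {n : ℕ} (hP : IsForm P) (A U : Fin n → Fin q → ℂ)
    (h : ∀ i k j m, F P (A i) (A k) (U j) (U m) = 0) (s s' t t' : Fin n → ℂ) :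
    F P (∑ i, s i • A i) (∑ i, s' i • A i) (∑ i, t i • U i) (∑ i, t' i • U i) = 0 := by
  have z1 : ∀ b c d : Fin q → ℂ, F P 0 b c d = 0 := fun b c d => by simp [F]
  have z2 : ∀ a c d : Fin q → ℂ, F P a 0 c d = 0 := fun b c d => by simp [F]
  have z3 : ∀ a b d : Fin q → ℂ, F P a b 0 d = 0 := fun b c d => by simp [F]
  have z4 : ∀ a b c : Fin q → ℂ, F P a b c 0 = 0 := fun b c d => by simp [F]
  have s1 : ∀ (S : Finset (Fin n)) (b c d : Fin q → ℂ) (w : Fin n → ℂ),
      F P (∑ i ∈ S, w i • A i) b c d = ∑ i ∈ S, w i * F P (A i) b c d := by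
    intro S b c d w
    induction S using Finset.induction_on with
    | empty => simp [z1]
    | insert i S hi ih => rw [Finset.sum_insert hi, Finset.sum_insert hi, rank_F_add1, rank_F_smul1, ih]
  have s2 : ∀ (S : Finset (Fin n)) (a c d : Fin q → ℂ) (w : Fin n → ℂ),
      F P a (∑ i ∈ S, w i • A i) c d = ∑ i ∈ S, w i * F P a (A i) c d := by
    intro S a c d w
    induction S using Finset.induction_on with
    | empty => simp [z2]
    | insert i S hi ih =>
      rw [Finset.sum_insert hi, Finset.sum_insert hi, rank_F_add2 hP, rank_F_smul2 hP, ih]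
  have s3 : ∀ (S : Finset (Fin n)) (a b d : Fin q → ℂ) (w : Fin n → ℂ),
      F P a b (∑ i ∈ S, w i • U i) d = ∑ i ∈ S, w i * F P a b (U i) d := by
    intro S a b d w
    induction S using Finset.induction_on with
    | empty => simp [z3]
    | insert i S hi ih => rw [Finset.sum_insert hi, Finset.sum_insert hi, rank_F_add3, rank_F_smul3, ih]
  have s4 : ∀ (S : Finset (Fin n)) (a b c : Fin q → ℂ) (w : Fin n → ℂ),
      F P a b c (∑ i ∈ S, w i • U i) = ∑ i ∈ S, w i * F P a b c (U i) := by
    intro S a b c w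
    induction S using Finset.induction_on with
    | empty => simp [z4]
    | insert i S hi ih =>
      rw [Finset.sum_insert hi, Finset.sum_insert hi, rank_F_add4 hP, rank_F_smul4 hP, ih]
  rw [s1]
  refine Finset.sum_eq_zero fun i _ => ?_
  rw [s2]
  rw [Finset.sum_eq_zero, mul_zero]
  intro k _
  rw [s3]
  rw [Finset.sum_eq_zero, mul_zero]
  intro j _
  rw [s4]
  rw [Finset.sum_eq_zero, mul_zero]
  intro m _
  rw [h, mul_zero]

theorem rank_three {q : ℕ} {P : Fin q → Fin q → Fin q → Fin q → ℂ} (hP : IsForm P) (hq : q ≤ 4)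
    (a0 a1 a2 u0 u1 u2 : Fin q → ℂ) (ha : LinearIndependent ℂ ![a0, a1, a2])
    (hu : LinearIndependent ℂ ![u0, u1, u2])
    (h : ∀ b c, F P a0 b u0 c + F P a1 b u1 c + F P a2 b u2 c = 0) : False := by
  have sA := rank_F_self12 (P := P) hP
  have sU := rank_F_self34 (P := P) hP
  have wA := rank_F_swap12 (P := P) hP
  have wU := rank_F_swap34 (P := P) hP
  have e00 := h a0 u0
  have e01 := h a0 u1
  have e02 := h a0 u2
  have e10 := h a1 u0
  have e11 := h a1 u1
  have e12 := h a1 u2
  have e20 := h a2 u0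
  have e21 := h a2 u1
  have e22 := h a2 u2
  rw [sA, wA a0 a1, wA a0 a2, wU _ _ u0 u1, wU _ _ u0 u2] at e00
  rw [sA, sU, wA a0 a2, wU _ _ u1 u2] at e01
  rw [sA, sU, wA a0 a1] at e02
  rw [sU, sA, wA a1 a2, wU _ _ u0 u2] at e10
  rw [sA, wA a1 a2, wU _ _ u1 u2] at e11
  rw [sA, sU] at e12
  rw [sU, sA, wU _ _ u0 u1] at e20
  rw [sU, sA] at e21
  rw [sA] at e22
  have X : F P a0 a1 u0 u1 = 0 := by
    have : (2 : ℂ) * F P a0 a1 u0 u1 = 0 := by linear_combination e00 + e11 - e22
    simpa using this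
  have Y : F P a0 a2 u0 u2 = 0 := by
    have : (2 : ℂ) * F P a0 a2 u0 u2 = 0 := by linear_combination e00 + e22 - e11
    simpa using this
  have Z : F P a1 a2 u1 u2 = 0 := by
    have : (2 : ℂ) * F P a1 a2 u1 u2 = 0 := by linear_combination e11 + e22 - e00
    simpa using this
  have b1 : F P a0 a1 u0 u2 = 0 := by linear_combination e12
  have b2 : F P a0 a1 u1 u2 = 0 := by linear_combination - e02
  have b3 : F P a0 a2 u0 u1 = 0 := by linear_combination e21
  have b4 : F P a0 a2 u1 u2 = 0 := by linear_combination e01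
  have b5 : F P a1 a2 u0 u1 = 0 := by linear_combination - e20
  have b6 : F P a1 a2 u0 u2 = 0 := by linear_combination e10
  have hall : ∀ i k j m : Fin 3, F P (![a0, a1, a2] i) (![a0, a1, a2] k) (![u0, u1, u2] j)
      (![u0, u1, u2] m) = 0 := by
    have hU : ∀ a b, F P a b u0 u1 = 0 → F P a b u0 u2 = 0 → F P a b u1 u2 = 0 →
        ∀ j m : Fin 3, F P a b (![u0, u1, u2] j) (![u0, u1, u2] m) = 0 := by
      intro a b h1 h2 h3 j m
      fin_cases j <;> fin_cases m
      · exact sU _ _ _
      · exact h1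
      · exact h2
      · show F P a b u1 u0 = 0
        rw [wU, h1, neg_zero]
      · exact sU _ _ _
      · exact h3
      · show F P a b u2 u0 = 0
        rw [wU, h2, neg_zero]
      · show F P a b u2 u1 = 0
        rw [wU, h3, neg_zero]
      · exact sU _ _ _
    have hn : ∀ a b, (∀ j m : Fin 3, F P a b (![u0, u1, u2] j) (![u0, u1, u2] m) = 0) →
        ∀ j m : Fin 3, F P b a (![u0, u1, u2] j) (![u0, u1, u2] m) = 0 := by
      intro a b h1 j m
      rw [wA, h1, neg_zero]
    intro i k
    fin_cases i <;> fin_cases k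
    · exact fun j m => sA _ _ _
    · exact hU _ _ X b1 b2
    · exact hU _ _ b3 Y b4
    · exact hn _ _ (hU _ _ X b1 b2)
    · exact fun j m => sA _ _ _
    · exact hU _ _ b5 b6 Z
    · exact hn _ _ (hU _ _ b3 Y b4)
    · exact hn _ _ (hU _ _ b5 b6 Z)
    · exact fun j m => sA _ _ _
  have hu' := rank_li_star hu
  set W : Submodule ℂ (Fin q → ℂ) := Submodule.span ℂ (Set.range ![a0, a1, a2]) with hW
  set V : Submodule ℂ (Fin q → ℂ) := Submodule.span ℂ (Set.range fun i => star (![u0, u1, u2] i))
    with hV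
  have d1 : Module.finrank ℂ W = 3 := by
    rw [hW, finrank_span_eq_card ha, Fintype.card_fin]
  have d2 : Module.finrank ℂ V = 3 := by
    rw [hV, finrank_span_eq_card hu', Fintype.card_fin]
  have d3 := Submodule.finrank_sup_add_finrank_inf_eq W V
  have d4 : Module.finrank ℂ ↥(W ⊔ V) ≤ 4 := by
    refine (Submodule.finrank_le _).trans ?_
    rw [Module.finrank_fin_fun]
    exact hq
  have d5 : 1 < Module.finrank ℂ ↥(W ⊓ V) := by omega
  have : Nontrivial ↥(W ⊓ V) := Module.nontrivial_of_finrank_pos (R := ℂ) (by omega)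
  obtain ⟨x, hx⟩ := exists_ne (0 : ↥(W ⊓ V))
  obtain ⟨y, hxy⟩ := exists_linearIndependent_pair_of_one_lt_finrank d5 hx
  have hxy' : LinearIndependent ℂ ![(x : Fin q → ℂ), (y : Fin q → ℂ)] := by
    rw [LinearIndependent.pair_iff] at hxy ⊢
    intro s t hst
    refine hxy s t ?_
    apply Subtype.ext
    simpa using hst
  obtain ⟨s, hs⟩ := (Submodule.mem_span_range_iff_exists_fun ℂ).1 x.2.1
  obtain ⟨s', hs'⟩ := (Submodule.mem_span_range_iff_exists_fun ℂ).1 y.2.1
  obtain ⟨t, ht⟩ := (Submodule.mem_span_range_iff_exists_fun ℂ).1 x.2.2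
  obtain ⟨t', ht'⟩ := (Submodule.mem_span_range_iff_exists_fun ℂ).1 y.2.2
  have st : ∀ w : Fin 3 → ℂ, star (∑ i, w i • star (![u0, u1, u2] i)) = ∑ i, star (w i) • ![u0, u1, u2] i := by
    intro w
    rw [star_sum]
    refine Finset.sum_congr rfl fun i _ => ?_
    rw [star_smul, star_star]
  refine rank_pos_ne hP hxy' ?_
  have e := rank_sum hP ![a0, a1, a2] ![u0, u1, u2] hall s s' (fun i => star (t i)) (fun i => star (t' i))
  rw [hs, hs', ← st t, ← st t', ht, ht'] at e
  exact e

end Pool.Agent.MP_9c903d
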