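import Pool.Agent.Lib.MP_9c903d_ag.NK.Defs

/-!
# Part Surf: a nilpotent group has no epimorphism onto a surface group of genus >= 2
-/

namespace Pool.Agent.MP_9c903d

open scoped ComplexConjugate commutatorElement

/-- The images of the generators in the symmetric group of degree 3. -/
private def surfGen (g : ℕ) (p : Fin g × Bool) : Equiv.Perm (Fin 3) :=
  if p.2 = true then 1 else if p.1.val = 0 then Equiv.swap 0 1
  else if p.1.val = 1 then Equiv.swap 1 2 else 1

private theorem surfGen_rel (g : ℕ) :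
    ∀ r ∈ ({((List.ofFn fun i : Fin g =>
      ⁅(FreeGroup.of (i, false) : FreeGroup (Fin g × Bool)), FreeGroup.of (i, true)⁆).prod)} :
        Set (FreeGroup (Fin g × Bool))), FreeGroup.lift (surfGen g) r = 1 := by
  intro r hr
  rw [Set.mem_singleton_iff] at hr
  rw [hr, map_list_prod]
  apply List.prod_eq_one
  intro x hx
  rw [List.mem_map] at hx
  obtain ⟨y, hy, rfl⟩ := hx
  rw [List.mem_ofFn] at hy
  obtain ⟨i, rfl⟩ := hy
  have h1 : surfGen g (i, true) = 1 := if_pos rfl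
  rw [map_commutatorElement, FreeGroup.lift_apply_of, FreeGroup.lift_apply_of, h1,
    commutatorElement_one_right]

private theorem surf_perm : ∀ σ : Equiv.Perm (Fin 3), σ = 1 ∨ σ = Equiv.swap 0 1 ∨
    σ = Equiv.swap 1 2 ∨ σ = Equiv.swap 0 1 * Equiv.swap 1 2 ∨
    σ = Equiv.swap 1 2 * Equiv.swap 0 1 ∨
    σ = Equiv.swap 0 1 * Equiv.swap 1 2 * Equiv.swap 0 1 := by
  decide

private theorem surf_center : ∀ z : Equiv.Perm (Fin 3),
    (∀ w : Equiv.Perm (Fin 3), w * z = z * w) → z = 1 := by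
  decide

theorem no_surj {G : Type*} [Group G] (hn : Group.IsNilpotent G) (g : ℕ) (hg : 2 ≤ g)
    (f : G →* SurfaceGroup g) (hf : Function.Surjective f) : False := by
  let ρ : SurfaceGroup g →* Equiv.Perm (Fin 3) := PresentedGroup.toGroup (surfGen_rel g)
  have hρ : ∀ p : Fin g × Bool, ρ (PresentedGroup.of p) = surfGen g p := fun p =>
    PresentedGroup.toGroup.of (surfGen_rel g)
  have h1 : ∃ x, ρ x = Equiv.swap 0 1 :=
    ⟨_, hρ (⟨0, by omega⟩, false)⟩
  have h2 : ∃ x, ρ x = Equiv.swap 1 2 :=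
    ⟨_, hρ (⟨1, by omega⟩, false)⟩
  obtain ⟨x, hx⟩ := h1
  obtain ⟨y, hy⟩ := h2
  have hsurj : Function.Surjective ρ := by
    intro σ
    rcases surf_perm σ with h | h | h | h | h | h
    · exact ⟨1, by rw [map_one, h]⟩
    · exact ⟨x, by rw [hx, h]⟩
    · exact ⟨y, by rw [hy, h]⟩
    · exact ⟨x * y, by rw [map_mul, hx, hy, h]⟩
    · exact ⟨y * x, by rw [map_mul, hx, hy, h]⟩
    · exact ⟨x * y * x, by rw [map_mul, map_mul, hx, hy, h]⟩
  haveI := hn
  haveI h3 : Group.IsNilpotent (Equiv.Perm (Fin 3)) :=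
    Group.nilpotent_of_surjective (ρ.comp f) (hsurj.comp hf)
  refine Group.IsNilpotent.center_ne_bot (G := Equiv.Perm (Fin 3)) ?_
  rw [eq_bot_iff]
  intro z hz
  rw [Subgroup.mem_center_iff] at hz
  rw [Subgroup.mem_bot]
  exact surf_center z hz

end Pool.Agent.MP_9c903d
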