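import Pool.Agent.Lib.MP_9c903d_ag.NK.Defs

/-!
# Part Theta: a torsion-free nilpotent group of class >= 3 has a nonzero homomorphism
gamma_3 -> C that kills gamma_4
-/

namespace Pool.Agent.MP_9c903d

open scoped ComplexConjugate commutatorElement

private theorem Theta_pow {Q : Type*} [Group Q] {x g : Q} (hc : ∀ h, ⁅x, g⁆ * h = h * ⁅x, g⁆) (m : ℕ) :
    ⁅x ^ m, g⁆ = ⁅x, g⁆ ^ m := by
  induction m with
  | zero => simp [commutatorElement_def]
  | succ m ih =>
    have h1 : ⁅x ^ (m + 1), g⁆ = x ^ m * ⁅x, g⁆ * (x ^ m)⁻¹ * ⁅x ^ m, g⁆ := by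
      rw [pow_succ, commutatorElement_def, commutatorElement_def, commutatorElement_def]
      group
    rw [h1, ← hc (x ^ m), ih, pow_succ', mul_assoc _ (x ^ m), mul_inv_cancel, mul_one]

private theorem Theta_step {G : Type*} [Group G] (i : ℕ)
    (h : ∀ x ∈ (⊤ : Subgroup G).lowerCentralSeries i, ∃ m : ℕ, 0 < m ∧ x ^ m ∈ (⊤ : Subgroup G).lowerCentralSeries (i + 1)) :
    ∀ x ∈ (⊤ : Subgroup G).lowerCentralSeries (i + 1), ∃ m : ℕ, 0 < m ∧ x ^ m ∈ (⊤ : Subgroup G).lowerCentralSeries (i + 2) := by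
  have hcen : ∀ y ∈ (⊤ : Subgroup G).lowerCentralSeries (i + 1), ∀ g : G ⧸ (⊤ : Subgroup G).lowerCentralSeries (i + 2),
      QuotientGroup.mk' ((⊤ : Subgroup G).lowerCentralSeries (i + 2)) y * g =
        g * QuotientGroup.mk' ((⊤ : Subgroup G).lowerCentralSeries (i + 2)) y := by
    intro y hy g
    obtain ⟨g, rfl⟩ := QuotientGroup.mk'_surjective _ g
    rw [← commutatorElement_eq_one_iff_mul_comm, ← map_commutatorElement]
    rw [QuotientGroup.mk'_apply, QuotientGroup.eq_one_iff]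
    exact Subgroup.commutator_mem_commutator hy (Subgroup.mem_top g)
  intro x hx
  have hx' : x ∈ Subgroup.closure {x | ∃ p ∈ (⊤ : Subgroup G).lowerCentralSeries i, ∃ q ∈ (⊤ : Subgroup G), ⁅p, q⁆ = x} := hx
  have key : x ∈ (⊤ : Subgroup G).lowerCentralSeries (i + 1) ∧
      ∃ m : ℕ, 0 < m ∧ x ^ m ∈ (⊤ : Subgroup G).lowerCentralSeries (i + 2) := by
    refine Subgroup.closure_induction (p := fun x _ => x ∈ (⊤ : Subgroup G).lowerCentralSeries (i + 1) ∧
      ∃ m : ℕ, 0 < m ∧ x ^ m ∈ (⊤ : Subgroup G).lowerCentralSeries (i + 2)) ?_ ?_ ?_ ?_ hx'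
    · rintro _ ⟨p, hp, q, -, rfl⟩
      have hmem : ⁅p, q⁆ ∈ (⊤ : Subgroup G).lowerCentralSeries (i + 1) :=
        Subgroup.commutator_mem_commutator hp (Subgroup.mem_top q)
      refine ⟨hmem, ?_⟩
      obtain ⟨m, hm, hpm⟩ := h p hp
      refine ⟨m, hm, ?_⟩
      rw [← QuotientGroup.eq_one_iff, ← QuotientGroup.mk'_apply, map_pow, map_commutatorElement, ← Theta_pow, ← map_pow]
      · rw [commutatorElement_eq_one_iff_mul_comm]
        exact hcen _ hpm _
      · intro k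
        rw [← map_commutatorElement]
        exact hcen _ hmem _
    · exact ⟨Subgroup.one_mem _, 1, one_pos, by simp⟩
    · rintro a b - - ⟨ha, m, hm, ham⟩ ⟨hb, n, hn, hbn⟩
      refine ⟨Subgroup.mul_mem _ ha hb, m * n, Nat.mul_pos hm hn, ?_⟩
      rw [← QuotientGroup.eq_one_iff, ← QuotientGroup.mk'_apply] at ham hbn ⊢
      have hc : Commute (QuotientGroup.mk' ((⊤ : Subgroup G).lowerCentralSeries (i + 2)) a)
          (QuotientGroup.mk' ((⊤ : Subgroup G).lowerCentralSeries (i + 2)) b) := hcen a ha _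
      rw [map_pow] at ham hbn ⊢
      rw [map_mul, hc.mul_pow, pow_mul, ham, mul_comm m n, pow_mul _ n m, hbn, one_pow, one_pow, mul_one]
    · rintro a - ⟨ha, m, hm, ham⟩
      exact ⟨Subgroup.inv_mem _ ha, m, hm, by rw [inv_pow]; exact Subgroup.inv_mem _ ham⟩
  exact key.2

private theorem Theta_exists {G : Type*} [Group G] (hn : Group.IsNilpotent G)
    (htf : ∀ g : G, ∀ n : ℕ, 0 < n → g ^ n = 1 → g = 1) (hc : 3 ≤ Group.nilpotencyClass G) :
    ∃ x ∈ (⊤ : Subgroup G).lowerCentralSeries 2, ∀ m : ℕ, 0 < m → x ^ m ∉ (⊤ : Subgroup G).lowerCentralSeries 3 := by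
  by_contra hcon
  push Not at hcon
  have hT : ∀ i : ℕ, ∀ x ∈ (⊤ : Subgroup G).lowerCentralSeries (i + 2), ∃ m : ℕ, 0 < m ∧
      x ^ m ∈ (⊤ : Subgroup G).lowerCentralSeries (i + 3) := by
    intro i
    induction i with
    | zero => exact hcon
    | succ i ih => exact Theta_step (i + 2) ih
  obtain ⟨k, hk⟩ := Nat.exists_eq_add_of_le hc
  have hbot : (⊤ : Subgroup G).lowerCentralSeries (k + 3) = ⊥ := by
    rw [Subgroup.lowerCentralSeries_eq_bot_iff_nilpotencyClass_le, hk, add_comm]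
  have hbot2 : (⊤ : Subgroup G).lowerCentralSeries (k + 2) = ⊥ := by
    rw [eq_bot_iff]
    intro x hx
    obtain ⟨m, hm, hxm⟩ := hT k x hx
    rw [hbot, Subgroup.mem_bot] at hxm
    rw [Subgroup.mem_bot]
    exact htf x m hm hxm
  rw [Subgroup.lowerCentralSeries_eq_bot_iff_nilpotencyClass_le] at hbot2
  omega

theorem exists_theta {G : Type*} [Group G] (hn : Group.IsNilpotent G)
    (htf : ∀ g : G, ∀ n : ℕ, 0 < n → g ^ n = 1 → g = 1) (hc : 3 ≤ Group.nilpotencyClass G) :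
    ∃ θ : G → ℂ,
      (∀ x ∈ (⊤ : Subgroup G).lowerCentralSeries 2, ∀ y ∈ (⊤ : Subgroup G).lowerCentralSeries 2,
        θ (x * y) = θ x + θ y) ∧
      (∀ x ∈ (⊤ : Subgroup G).lowerCentralSeries 3, θ x = 0) ∧
      ∃ x ∈ (⊤ : Subgroup G).lowerCentralSeries 2, θ x ≠ 0 := by
  classical
  obtain ⟨x, hx, hxm⟩ := Theta_exists hn htf hc
  set L2 := (⊤ : Subgroup G).lowerCentralSeries 2 with hL2
  set N : Subgroup L2 := ((⊤ : Subgroup G).lowerCentralSeries 3).subgroupOf L2 with hN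
  have hNn : N.Normal := inferInstance
  have hcomm : ∀ a b : L2 ⧸ N, a * b = b * a := by
    intro a b
    obtain ⟨a, rfl⟩ := QuotientGroup.mk'_surjective _ a
    obtain ⟨b, rfl⟩ := QuotientGroup.mk'_surjective _ b
    rw [← commutatorElement_eq_one_iff_mul_comm, ← map_commutatorElement, QuotientGroup.mk'_apply, QuotientGroup.eq_one_iff]
    rw [hN, Subgroup.mem_subgroupOf]
    exact Subgroup.commutator_mem_commutator (H₁ := (⊤ : Subgroup G).lowerCentralSeries 2) (H₂ := ⊤) a.2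
      (Subgroup.mem_top (b : G))
  let inst : CommGroup (L2 ⧸ N) := { (inferInstance : Group (L2 ⧸ N)) with mul_comm := hcomm }
  let a : Additive (L2 ⧸ N) := Additive.ofMul (QuotientGroup.mk' N ⟨x, hx⟩)
  have hainj : Function.Injective (zmultiplesHom (Additive (L2 ⧸ N)) a) := by
    rw [injective_iff_map_eq_zero]
    intro n hn0
    by_contra hne
    have h1 : ∀ m : ℕ, 0 < m → ¬ m • a = 0 := by
      intro m hm h0
      have h2 : QuotientGroup.mk' N (⟨x, hx⟩ ^ m : L2) = 1 := by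
        rw [map_pow]
        exact h0
      rw [QuotientGroup.mk'_apply, QuotientGroup.eq_one_iff, hN, Subgroup.mem_subgroupOf] at h2
      exact hxm m hm h2
    rw [zmultiplesHom_apply] at hn0
    refine h1 n.natAbs (Int.natAbs_pos.2 hne) ?_
    rcases Int.natAbs_eq n with h | h
    · rw [← natCast_zsmul, ← h]
      exact hn0
    · rw [← natCast_zsmul]
      rw [h, neg_zsmul, neg_eq_zero] at hn0
      exact hn0
  have hbaer : Module.Baer ℤ ℂ := Module.Baer.of_divisible ℂ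
  obtain ⟨r, hr⟩ := Module.Baer.extension_property_addMonoidHom hbaer (zmultiplesHom (Additive (L2 ⧸ N)) a) hainj
    (Int.castAddHom ℂ)
  have hra : r a = 1 := by
    have h := congrArg (fun φ : ℤ →+ ℂ => φ 1) hr
    simpa using h
  refine ⟨fun y => if hy : y ∈ L2 then r (Additive.ofMul (QuotientGroup.mk' N ⟨y, hy⟩)) else 0, ?_, ?_, ⟨x, hx, ?_⟩⟩
  · intro y hy z hz
    beta_reduce
    rw [dif_pos hy, dif_pos hz, dif_pos (Subgroup.mul_mem _ hy hz), ← map_add, ← ofMul_mul, ← map_mul]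
    rfl
  · intro y hy
    have hy2 : y ∈ L2 := Subgroup.lowerCentralSeries_antitone ⊤ (by norm_num : 2 ≤ 3) hy
    beta_reduce
    rw [dif_pos hy2]
    have h : QuotientGroup.mk' N ⟨y, hy2⟩ = 1 := by
      rw [QuotientGroup.mk'_apply, QuotientGroup.eq_one_iff, hN, Subgroup.mem_subgroupOf]
      exact hy
    rw [h, ofMul_one, map_zero]
  · simp only [dif_pos hx]
    change r a ≠ 0
    rw [hra]
    exact one_ne_zero

end Pool.Agent.MP_9c903d
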